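import Pool.Agent.Run7.h672.AE.S

set_option autoImplicit false

/-!
# Numbers with independent random digits in a sparse set: dense orbits
-/

namespace Pool.Agent.Run7.h672.AE
open Finset MeasureTheory ProbabilityTheory Filter Topology
open Pool.Agent.H807R2.Dav (ee)
open Pool.Agent.TH872.Mir (Far farCount)
open Pool.Agent.Run7.h672.EX (cnt equi_of grid run)

variable {Ω : Type*} {m0 : MeasurableSpace Ω}

/-- uniform recurrence of irrational rotations -/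
lemma recur (α : ℝ) (hα : Irrational α) (t₁ t₂ : ℝ) (h1 : 0 ≤ t₁) (h12 : t₁ < t₂) (h2 : t₂ ≤ 1) :
    ∃ R : ℕ, ∀ s₀ : ℝ, ∃ m : ℕ, 1 ≤ m ∧ m ≤ R ∧ t₁ ≤ Int.fract (m * α + s₀) ∧ Int.fract (m * α + s₀) < t₂ := by
  obtain ⟨d, hd⟩ : ∃ d, d = (t₂ - t₁) / 2 := ⟨_, rfl⟩
  have hd0 : 0 < d := by rw [hd]; linarith
  have hdisc := disc_of (x := fun n : ℕ => (n : ℝ) * α) (fun h hh ε hε => by
    have := rotation α 0 hα h hh ε hε
    simpa using this) (d / 2) (by positivity)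
  obtain ⟨R, hR, hR1⟩ := (hdisc.and (eventually_ge_atTop 1)).exists
  have hR0 : (0 : ℝ) < R := by exact_mod_cast hR1
  -- intervals of length `d` are hit
  have hit : ∀ u : ℝ, 0 ≤ u → u + d ≤ 1 → ∃ m : ℕ, 1 ≤ m ∧ m ≤ R ∧ u ≤ Int.fract (m * α) ∧ Int.fract (m * α) < u + d := by
    intro u hu hud
    have h3 := hR u (u + d) hu (by linarith) hud
    have h4 : 0 < cnt (fun n : ℕ => (n : ℝ) * α) R u (u + d) := by
      by_contra hcon
      have h5 : cnt (fun n : ℕ => (n : ℝ) * α) R u (u + d) = 0 := by omega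
      rw [h5, Nat.cast_zero, zero_sub, abs_neg, abs_of_nonneg (by nlinarith)] at h3
      nlinarith
    unfold cnt at h4
    obtain ⟨m, hm⟩ := card_pos.1 h4
    rw [mem_filter, mem_Icc] at hm
    exact ⟨m, hm.1.1, hm.1.2, hm.2.1, hm.2.2⟩
  refine ⟨R, fun s₀ => ?_⟩
  obtain ⟨s, hs⟩ : ∃ s, s = Int.fract s₀ := ⟨_, rfl⟩
  have hs0 : 0 ≤ s := by rw [hs]; exact Int.fract_nonneg _
  have hs1 : s < 1 := by rw [hs]; exact Int.fract_lt_one _
  have hsum : ∀ (m : ℕ) (w : ℝ) (k : ℤ), 0 ≤ w → w < 1 → Int.fract (m * α) + s = w + k → Int.fract (m * α + s₀) = w := by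
    intro m w k hw0 hw1 h3
    rw [Int.fract_eq_iff]
    refine ⟨hw0, hw1, ⌊(m : ℝ) * α⌋ + ⌊s₀⌋ + k, ?_⟩
    have e1 : (m : ℝ) * α = ⌊(m : ℝ) * α⌋ + Int.fract (m * α) := (Int.floor_add_fract _).symm
    have e2 : s₀ = ⌊s₀⌋ + s := by rw [hs]; exact (Int.floor_add_fract _).symm
    push_cast
    linarith
  rcases le_or_gt s (t₁ + d) with hc | hc
  · -- the interval `[t₁ + d, t₂)`
    obtain ⟨m, hm1, hm2, hm3, hm4⟩ := hit (t₁ + d - s) (by linarith) (by linarith)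
    have h5 := hsum m (Int.fract (m * α) + s) 0 (by linarith) (by linarith) (by push_cast; ring)
    refine ⟨m, hm1, hm2, ?_, ?_⟩
    · rw [h5]; linarith
    · rw [h5]; linarith
  · obtain ⟨m, hm1, hm2, hm3, hm4⟩ := hit (t₁ - s + 1) (by linarith) (by linarith)
    have h5 := hsum m (Int.fract (m * α) + s - 1) 1 (by linarith) (by linarith) (by push_cast; ring)
    refine ⟨m, hm1, hm2, ?_, ?_⟩
    · rw [h5]; linarith
    · rw [h5]; linarith

lemma KK_step {α α₀ : ℝ} (hα : 0 < α) : ∃ B : ℕ, ∀ n m, KK α α₀ (n + m) ≤ KK α α₀ n + B * m := by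
  obtain ⟨B, hB⟩ := exists_nat_gt (α + 1)
  have h1 : ∀ n, KK α α₀ (n + 1) ≤ KK α α₀ n + B := by
    intro n
    unfold KK
    have h2 : ⌊((n + 1 : ℕ) : ℝ) * α + α₀⌋₊ ≤ ⌊(n : ℝ) * α + α₀⌋₊ + B := by
      apply Nat.le_of_lt_succ
      have h3 : ((n + 1 : ℕ) : ℝ) * α + α₀ < ((⌊(n : ℝ) * α + α₀⌋₊ + B).succ : ℕ) := by
        have h4 := Nat.lt_floor_add_one ((n : ℝ) * α + α₀)
        push_cast
        nlinarith
      have h5 : (0 : ℝ) < ((⌊(n : ℝ) * α + α₀⌋₊ + B).succ : ℕ) := by positivity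
      rcases le_or_gt 0 (((n + 1 : ℕ) : ℝ) * α + α₀) with h6 | h6
      · exact (Nat.floor_lt h6).2 h3
      · rw [Nat.floor_of_nonpos h6.le]
        omega
    omega
  refine ⟨B, fun n m => ?_⟩
  induction m with
  | zero => simp
  | succ m ih =>
    have := h1 (n + m)
    have e1 : n + (m + 1) = n + m + 1 := rfl
    rw [e1]
    nlinarith

lemma KK_unbounded {α α₀ : ℝ} (hα : 0 < α) (M : ℕ) : ∃ n, M ≤ KK α α₀ n := by
  obtain ⟨q, hq⟩ := KK_gap (α₀ := α₀) hα M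
  exact ⟨q, by have := hq 0 q (by omega); omega⟩

lemma KK_mono {α α₀ : ℝ} (hα : 0 < α) : Monotone (KK α α₀) := by
  intro m n hmn
  unfold KK
  have h1 : (m : ℝ) ≤ n := by exact_mod_cast hmn
  have h2 : (m : ℝ) * α + α₀ ≤ n * α + α₀ := by nlinarith
  have := Nat.floor_le_floor h2
  omega

/-- the choice of a term -/
lemma pick {α α₀ : ℝ} (hα0 : 0 < α) (hα : Irrational α) (E : ℕ → Prop) (hrun : ∀ L : ℕ, ∃ a, ∀ j, a ≤ j → j < a + L → E j)
    (t₁ t₂ : ℝ) (h1 : 0 ≤ t₁) (h12 : t₁ < t₂) (h2 : t₂ ≤ 1) (k M : ℕ) :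
    ∃ n, M < KK α α₀ n ∧ (∀ j, KK α α₀ n - k ≤ j → j < KK α α₀ n → E j) ∧ t₁ ≤ Int.fract (n * α + α₀) ∧
      Int.fract (n * α + α₀) < t₂ := by
  classical
  obtain ⟨R, hR⟩ := recur α hα t₁ t₂ h1 h12 h2
  obtain ⟨B, hB⟩ := KK_step (α₀ := α₀) hα0
  obtain ⟨L₀, hL₀⟩ : ∃ L₀, L₀ = M + KK α α₀ 0 + 1 := ⟨_, rfl⟩
  obtain ⟨a₀, ha₀⟩ := hrun (L₀ + (k + B * (R + 1) + 1))
  -- a run which starts late
  obtain ⟨a, haM, ha⟩ : ∃ a, L₀ ≤ a ∧ ∀ j, a ≤ j → j < a + (k + B * (R + 1) + 1) → E j :=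
    ⟨a₀ + L₀, by omega, fun j hj1 hj2 => ha₀ j (by omega) (by omega)⟩
  have hex := KK_unbounded (α₀ := α₀) hα0 (a + k)
  obtain ⟨n₁, hn₁⟩ : ∃ n₁, n₁ = Nat.find hex := ⟨_, rfl⟩
  have h3 : a + k ≤ KK α α₀ n₁ := by rw [hn₁]; exact Nat.find_spec hex
  have h4 : n₁ ≠ 0 := by
    intro h0
    rw [h0] at h3
    omega
  have h5 : KK α α₀ (n₁ - 1) < a + k := by
    have := Nat.find_min hex (m := n₁ - 1) (by omega)
    omega
  have h6 := hB (n₁ - 1) 1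
  rw [Nat.sub_add_cancel (by omega), mul_one] at h6
  obtain ⟨m, hm1, hm2, hm3, hm4⟩ := hR (n₁ * α + α₀)
  refine ⟨n₁ + m, ?_, ?_, ?_, ?_⟩
  · have := KK_mono (α₀ := α₀) hα0 (show n₁ ≤ n₁ + m by omega)
    omega
  · intro j hj1 hj2
    have h7 := hB n₁ m
    have h8 : B * m ≤ B * R := Nat.mul_le_mul_left _ hm2
    have h9 := KK_mono (α₀ := α₀) hα0 (show n₁ ≤ n₁ + m by omega)
    apply ha
    · omega
    · rw [mul_add, mul_one]
      omega
  · push_cast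
    rw [show ((n₁ : ℝ) + m) * α + α₀ = m * α + (n₁ * α + α₀) by ring]
    exact hm3
  · push_cast
    rw [show ((n₁ : ℝ) + m) * α + α₀ = m * α + (n₁ * α + α₀) by ring]
    exact hm4

/-- the leading digits of `x n` -/
lemma lead {b : ℕ} (hb : 2 ≤ b) {β c : ℝ} (hβ : 1 < β) (hc : c ≠ 0) (x : ℕ → ℝ)
    (hx : Tendsto (fun n : ℕ => x n / β ^ n) atTop (𝓝 c)) : ∃ σ : ℤ, (σ = 1 ∨ σ = -1) ∧
    Tendsto (fun n : ℕ => x n / (b : ℝ) ^ KK (Real.logb b β) (Real.logb b |c|) n -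
      σ * (b : ℝ) ^ (Int.fract ((n : ℝ) * Real.logb b β + Real.logb b |c|) - 1)) atTop (𝓝 0) := by
  have hb2 : (2 : ℝ) ≤ b := by exact_mod_cast hb
  have hb0 : (0 : ℝ) < b := by linarith
  have hb1 : (b : ℝ) ≠ 1 := by linarith
  obtain ⟨α, hα⟩ : ∃ α, α = Real.logb b β := ⟨_, rfl⟩
  obtain ⟨α₀, hα₀⟩ : ∃ α₀, α₀ = Real.logb b |c| := ⟨_, rfl⟩
  rw [← hα, ← hα₀]
  have hα0 : 0 < α := by rw [hα]; exact Real.logb_pos (by linarith) hβ
  have hβ0 : 0 < β := by linarith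
  have hbα : (b : ℝ) ^ α = β := by rw [hα]; exact Real.rpow_logb hb0 hb1 hβ0
  have hbα₀ : (b : ℝ) ^ α₀ = |c| := by rw [hα₀]; exact Real.rpow_logb hb0 hb1 (abs_pos.2 hc)
  have hpow : ∀ n : ℕ, (b : ℝ) ^ ((n : ℝ) * α + α₀) = |c| * β ^ n := by
    intro n
    rw [Real.rpow_add hb0, hbα₀, mul_comm (n : ℝ), Real.rpow_mul hb0.le, hbα, Real.rpow_natCast, mul_comm]
  obtain ⟨σ, hσ, hσc⟩ : ∃ σ : ℤ, (σ = 1 ∨ σ = -1) ∧ (σ : ℝ) * |c| = c := by
    rcases lt_or_gt_of_ne hc with h | h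
    · exact ⟨-1, Or.inr rfl, by rw [abs_of_neg h]; push_cast; ring⟩
    · exact ⟨1, Or.inl rfl, by rw [abs_of_pos h]; push_cast; ring⟩
  refine ⟨σ, hσ, ?_⟩
  have hge : ∀ᶠ n : ℕ in atTop, 0 ≤ (n : ℝ) * α + α₀ := by
    obtain ⟨n₁, hn₁⟩ := exists_nat_gt (|α₀| / α)
    filter_upwards [eventually_ge_atTop n₁] with n hn
    rw [div_lt_iff₀ hα0] at hn₁
    have h1 : (n₁ : ℝ) ≤ n := by exact_mod_cast hn
    have h2 := neg_abs_le α₀
    nlinarith
  have hlead : ∀ᶠ n : ℕ in atTop, (b : ℝ) ^ (Int.fract ((n : ℝ) * α + α₀) - 1) = |c| * β ^ n / (b : ℝ) ^ KK α α₀ n := by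
    filter_upwards [hge] with n hn
    rw [← hpow, ← Real.rpow_natCast, ← Real.rpow_sub hb0]
    congr 1
    unfold KK
    have e1 : (((⌊(n : ℝ) * α + α₀⌋₊ : ℕ) : ℤ)) = ⌊(n : ℝ) * α + α₀⌋ := Int.natCast_floor_eq_floor hn
    have e2 : ((⌊(n : ℝ) * α + α₀⌋₊ : ℕ) : ℝ) = (⌊(n : ℝ) * α + α₀⌋ : ℝ) := by
      rw [← e1]
      push_cast
      rfl
    have e3 : Int.fract ((n : ℝ) * α + α₀) = (n : ℝ) * α + α₀ - ⌊(n : ℝ) * α + α₀⌋ := rfl
    rw [e3]
    push_cast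
    rw [e2]
    ring
  have h1 : Tendsto (fun n : ℕ => (x n / β ^ n - c) / |c|) atTop (𝓝 0) := by
    have h2 := (hx.sub_const c).div_const |c|
    rw [sub_self, zero_div] at h2
    exact h2
  refine squeeze_zero_norm' (a := fun n : ℕ => ‖(x n / β ^ n - c) / |c|‖) ?_ (by simpa using h1.norm)
  filter_upwards [hlead] with n hn
  have hu1 : (b : ℝ) ^ (Int.fract ((n : ℝ) * α + α₀) - 1) ≤ 1 := by
    apply Real.rpow_le_one_of_one_le_of_nonpos (by linarith)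
    linarith [Int.fract_lt_one ((n : ℝ) * α + α₀)]
  have hu0 : 0 < (b : ℝ) ^ (Int.fract ((n : ℝ) * α + α₀) - 1) := Real.rpow_pos_of_pos hb0 _
  have hc' : 0 < |c| := abs_pos.2 hc
  have e1 : x n / (b : ℝ) ^ KK α α₀ n - σ * (b : ℝ) ^ (Int.fract ((n : ℝ) * α + α₀) - 1) =
      ((x n / β ^ n - c) / |c|) * (b : ℝ) ^ (Int.fract ((n : ℝ) * α + α₀) - 1) := by
    rw [hn]
    have e2 : ((x n / β ^ n - c) / |c|) * (|c| * β ^ n / (b : ℝ) ^ KK α α₀ n) = (x n - c * β ^ n) / (b : ℝ) ^ KK α α₀ n := by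
      have := pow_pos hβ0 n
      field_simp
    rw [e2, sub_div]
    congr 1
    conv_rhs => rw [← hσc]
    ring
  rw [e1, norm_mul, Real.norm_of_nonneg hu0.le]
  exact mul_le_of_le_one_right (norm_nonneg _) hu1

/-- from exponential sums to infinitely many visits -/
lemma inf_of {x : ℕ → ℝ} (hx : ∀ h : ℕ, 1 ≤ h → ∀ ε : ℝ, 0 < ε → ∀ᶠ N : ℕ in atTop, ‖∑ n ∈ Icc 1 N, ee (h * x n)‖ ≤ ε * N)
    (s t : ℝ) (hs : 0 ≤ s) (hst : s < t) (ht : t ≤ 1) : {n : ℕ | s ≤ Int.fract (x n) ∧ Int.fract (x n) < t}.Infinite := by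
  intro hfin
  have h1 := disc_of hx ((t - s) / 2) (by linarith)
  obtain ⟨M, hM⟩ := exists_nat_gt (hfin.toFinset.card / ((t - s) / 2))
  obtain ⟨N, hN, hN1⟩ := (h1.and (eventually_ge_atTop (M + 1))).exists
  have h2 := hN s t hs hst ht
  have h3 : cnt x N s t ≤ hfin.toFinset.card := by
    unfold cnt
    apply card_le_card
    intro n hn
    rw [mem_filter] at hn
    rw [Set.Finite.mem_toFinset]
    exact hn.2
  have h4 : (cnt x N s t : ℝ) ≤ hfin.toFinset.card := by exact_mod_cast h3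
  rw [div_lt_iff₀ (by linarith)] at hM
  have h5 : ((M : ℝ) + 1) ≤ N := by exact_mod_cast hN1
  rw [abs_le] at h2
  nlinarith

/-- **dense orbits for sparse random digits** -/
theorem dense {P : Measure Ω} [IsProbabilityMeasure P] {b : ℕ} (hb : 2 ≤ b) {X : ℕ → Ω → ℕ} (hX : ∀ j, Measurable (X j))
    (hI : iIndepFun X P) (hlt : ∀ j ω, X j ω < b) {η : ℝ} (hη : 0 < η)
    (hrun : ∀ L : ℕ, ∃ a, ∀ j, a ≤ j → j < a + L → Two P X η j)
    {β c : ℝ} (hβ : 1 < β) (hirr : Irrational (Real.logb b β)) (hc : c ≠ 0) (x : ℕ → ℝ)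
    (hx : Tendsto (fun n : ℕ => x n / β ^ n) atTop (𝓝 c)) (y : ℕ → ℝ) :
    ∀ᵐ ω ∂P, ∀ s t : ℝ, 0 ≤ s → s < t → t ≤ 1 →
      {n : ℕ | s ≤ Int.fract (x n * num b X ω + y n) ∧ Int.fract (x n * num b X ω + y n) < t}.Infinite := by
  classical
  have hb2 : (2 : ℝ) ≤ b := by exact_mod_cast hb
  have hb0 : (0 : ℝ) < b := by linarith
  have hb1 : (b : ℝ) ≠ 1 := by linarith
  obtain ⟨σ, hσ, hθ⟩ := lead hb hβ hc x hx
  obtain ⟨α, hα⟩ : ∃ α, α = Real.logb b β := ⟨_, rfl⟩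
  obtain ⟨α₀, hα₀⟩ : ∃ α₀, α₀ = Real.logb b |c| := ⟨_, rfl⟩
  rw [← hα] at hirr
  rw [← hα, ← hα₀] at hθ
  have hα0 : 0 < α := by rw [hα]; exact Real.logb_pos (by linarith) hβ
  -- the target of the leading digits
  obtain ⟨u, hu⟩ : ∃ u : ℝ, u = (Real.sqrt 2)⁻¹ := ⟨_, rfl⟩
  have hui : Irrational u := by rw [hu]; exact irrational_sqrt_two.inv
  have hs2 : 1 < Real.sqrt 2 := by rw [Real.lt_sqrt (by norm_num)]; norm_num
  have hs2' : Real.sqrt 2 < 2 := by rw [Real.sqrt_lt' (by norm_num)]; norm_num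
  have hu0 : 0 < u := by rw [hu]; positivity
  have hu1 : u < 1 := by rw [hu]; exact inv_lt_one_of_one_lt₀ hs2
  have hub : 1 / (b : ℝ) < u := by
    rw [hu, ← one_div]
    exact one_div_lt_one_div_of_lt (by positivity) (by linarith)
  obtain ⟨τ, hτ⟩ : ∃ τ, τ = 1 + Real.logb b u := ⟨_, rfl⟩
  have hτ1 : τ < 1 := by
    rw [hτ]
    have := Real.logb_neg (b := (b : ℝ)) (by linarith) hu0 hu1
    linarith
  have hτ0 : 0 < τ := by
    rw [hτ]
    have h1 : Real.logb b (1 / (b : ℝ)) < Real.logb b u := Real.logb_lt_logb (by linarith) (by positivity) hub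
    rw [one_div, Real.logb_inv, Real.logb_self_eq_one (by linarith)] at h1
    linarith
  have hbτ : (b : ℝ) ^ (τ - 1) = u := by
    rw [hτ, add_sub_cancel_left]
    exact Real.rpow_logb hb0 hb1 hu0
  -- the choice of the terms
  have hpick : ∀ k M : ℕ, ∃ n, M < KK α α₀ n ∧ (∀ j, KK α α₀ n - k ≤ j → j < KK α α₀ n → Two P X η j) ∧
      τ * (1 - 1 / ((k : ℝ) + 1)) ≤ Int.fract (n * α + α₀) ∧ Int.fract (n * α + α₀) < τ := by
    intro k M
    have h1 : 1 / ((k : ℝ) + 1) ≤ 1 := by rw [div_le_one (by positivity)]; linarith [Nat.cast_nonneg (α := ℝ) k]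
    have h2 : 0 < 1 / ((k : ℝ) + 1) := by positivity
    exact pick hα0 hirr _ hrun _ _ (by nlinarith) (by nlinarith) hτ1.le k M
  choose f hf using hpick
  obtain ⟨ns, hns0, hns⟩ : ∃ ns : ℕ → ℕ, ns 0 = f 0 0 ∧ ∀ k, ns (k + 1) = f (k + 1) (KK α α₀ (ns k)) :=
    ⟨fun k => Nat.rec (f 0 0) (fun k n => f (k + 1) (KK α α₀ n)) k, rfl, fun k => rfl⟩
  have hnsP : ∀ k, (∀ j, KK α α₀ (ns k) - k ≤ j → j < KK α α₀ (ns k) → Two P X η j) ∧
      τ * (1 - 1 / ((k : ℝ) + 1)) ≤ Int.fract (ns k * α + α₀) ∧ Int.fract (ns k * α + α₀) < τ := by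
    intro k
    cases k with
    | zero => rw [hns0]; exact (hf 0 0).2
    | succ k => rw [hns]; exact (hf (k + 1) _).2
  have hKm : StrictMono (fun k => KK α α₀ (ns k)) := by
    apply strictMono_nat_of_lt_succ
    intro k
    show KK α α₀ (ns k) < KK α α₀ (ns (k + 1))
    rw [hns]
    exact (hf (k + 1) (KK α α₀ (ns k))).1
  have hnsm : StrictMono ns := by
    apply strictMono_nat_of_lt_succ
    intro k
    have h1 : KK α α₀ (ns k) < KK α α₀ (ns (k + 1)) := hKm (Nat.lt_succ_self k)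
    by_contra hcon
    have := KK_mono (α₀ := α₀) hα0 (not_lt.1 hcon)
    omega
  have hfr : Tendsto (fun k : ℕ => Int.fract (ns k * α + α₀)) atTop (𝓝 τ) := by
    refine tendsto_of_tendsto_of_tendsto_of_le_of_le (g := fun k : ℕ => τ * (1 - 1 / ((k : ℝ) + 1))) (h := fun _ => τ) ?_ tendsto_const_nhds
      (fun k => (hnsP k).2.1) (fun k => (hnsP k).2.2.le)
    have h1 := (tendsto_one_div_add_atTop_nhds_zero_nat (𝕜 := ℝ)).const_sub 1 |>.const_mul τ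
    simpa using h1
  have hlim : Tendsto (fun k : ℕ => x (ns k) / (b : ℝ) ^ KK α α₀ (ns k)) atTop (𝓝 (σ * u)) := by
    have h1 := hθ.comp hnsm.tendsto_atTop
    have h2 : Tendsto (fun k : ℕ => (σ : ℝ) * (b : ℝ) ^ (Int.fract (ns k * α + α₀) - 1)) atTop (𝓝 (σ * u)) := by
      apply Tendsto.const_mul
      rw [← hbτ]
      exact ((Real.continuous_const_rpow hb0.ne').tendsto (τ - 1)).comp (hfr.sub_const 1)
    have h3 := h1.add h2
    rw [zero_add] at h3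
    refine h3.congr fun k => ?_
    simp only [Function.comp]
    ring
  have hσu : Irrational ((σ : ℝ) * u) := by
    rcases hσ with h | h
    · rw [h]; push_cast; rw [one_mul]; exact hui
    · rw [h]; push_cast; rw [neg_one_mul]; exact hui.neg
  have hsp := sparse hb hX hI hlt hη (fun k => x (ns k)) (fun k => y (ns k)) (fun k => KK α α₀ (ns k)) hKm (σ * u) hσu hlim (fun G => by
    filter_upwards [eventually_ge_atTop G] with k hk j hj1 hj2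
    exact (hnsP k).1 j (by omega) hj2)
  filter_upwards [hsp] with ω hω s t hs hst ht
  have h1 := inf_of (x := fun k => x (ns k) * num b X ω + y (ns k)) hω s t hs hst ht
  have h2 := h1.image (f := ns) hnsm.injective.injOn
  refine h2.mono ?_
  rintro n ⟨k, hk, rfl⟩
  exact hk

end Pool.Agent.Run7.h672.AE
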