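import Pool.Agent.Run7.h672.EX.D

set_option autoImplicit false

/-!
# Numbers with independent random digits: exponential sums
-/

namespace Pool.Agent.Run7.h672.AE
open Finset MeasureTheory ProbabilityTheory
open Pool.Agent.H807R2.Dav (ee)

variable {Ω : Type*} {m0 : MeasurableSpace Ω}

/-- the part of the number `∑ X_j / b ^ (j + 1)` with the digits at the places of `s` -/
noncomputable def part (b : ℕ) (X : ℕ → Ω → ℕ) (s : Finset ℕ) (ω : Ω) : ℝ := ∑ j ∈ s, (X j ω : ℝ) / (b : ℝ) ^ (j + 1)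

/-- the characteristic function of the digit at the place `j` -/
noncomputable def phi (P : Measure Ω) (X : ℕ → Ω → ℕ) (j : ℕ) (t : ℝ) : ℂ := ∫ ω, ee ((X j ω : ℝ) * t) ∂P

/-- the events of the digits at the places of `S` -/
@[reducible] def sig (X : ℕ → Ω → ℕ) (S : Set ℕ) : MeasurableSpace Ω := ⨆ i ∈ S, MeasurableSpace.comap (X i) inferInstance

lemma ee_cont : Continuous ee := by
  unfold ee
  fun_prop

lemma ee_sum {ι : Type*} (s : Finset ι) (f : ι → ℝ) : ee (∑ i ∈ s, f i) = ∏ i ∈ s, ee (f i) := by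
  classical
  induction s using Finset.induction_on with
  | empty => simp [ee]
  | insert a s ha ih => rw [sum_insert ha, prod_insert ha, Pool.Agent.H807R2.Dav.ee_add, ih]

lemma meas_X {X : ℕ → Ω → ℕ} {S : Set ℕ} {j : ℕ} (hj : j ∈ S) : Measurable[sig X S] (X j) := by
  have h : MeasurableSpace.comap (X j) inferInstance ≤ sig X S := le_iSup₂ (f := fun i (_ : i ∈ S) => MeasurableSpace.comap (X i) inferInstance) j hj
  exact Measurable.mono (comap_measurable (X j)) h le_rfl

lemma meas_part (b : ℕ) {X : ℕ → Ω → ℕ} {S : Set ℕ} (s : Finset ℕ) (hs : ∀ j ∈ s, j ∈ S) : Measurable[sig X S] (part b X s) := by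
  unfold part
  refine Finset.measurable_sum s fun j hj => ?_
  exact (Measurable.comp (g := fun k : ℕ => (k : ℝ)) measurable_from_top (meas_X (hs j hj))).div_const _

lemma sig_le {X : ℕ → Ω → ℕ} (hX : ∀ j, Measurable (X j)) (S : Set ℕ) : sig X S ≤ m0 :=
  iSup₂_le fun j _ => (hX j).comap_le

lemma meas_part' (b : ℕ) {X : ℕ → Ω → ℕ} (hX : ∀ j, Measurable (X j)) (s : Finset ℕ) : Measurable (part b X s) :=
  (meas_part b (S := Set.univ) s (fun _ _ => Set.mem_univ _)).mono (sig_le hX _) le_rfl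

/-- independence of the digits at disjoint sets of places -/
lemma indep {P : Measure Ω} {X : ℕ → Ω → ℕ} (hX : ∀ j, Measurable (X j)) (hI : iIndepFun X P) {S T : Set ℕ} (hST : Disjoint S T)
    {f g : Ω → ℂ} (hf : Measurable[sig X S] f) (hg : Measurable[sig X T] g) : IndepFun f g P := by
  have h1 : Indep (sig X S) (sig X T) P := indep_iSup_of_disjoint (fun j => (hX j).comap_le) hI.iIndep hST
  rw [IndepFun_iff_Indep]
  exact indep_of_indep_of_le_left (indep_of_indep_of_le_right h1 hg.comap_le) hf.comap_le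

lemma int_mul {P : Measure Ω} {X : ℕ → Ω → ℕ} (hX : ∀ j, Measurable (X j)) (hI : iIndepFun X P) {S T : Set ℕ} (hST : Disjoint S T)
    {f g : Ω → ℂ} (hf : Measurable[sig X S] f) (hg : Measurable[sig X T] g) :
    ∫ ω, f ω * g ω ∂P = (∫ ω, f ω ∂P) * ∫ ω, g ω ∂P :=
  (indep hX hI hST hf hg).integral_fun_mul_eq_mul_integral (hf.mono (sig_le hX _) le_rfl).aestronglyMeasurable
    (hg.mono (sig_le hX _) le_rfl).aestronglyMeasurable

/-- the characteristic function of a part -/
lemma char_part {P : Measure Ω} {X : ℕ → Ω → ℕ} (hX : ∀ j, Measurable (X j)) (hI : iIndepFun X P) (b : ℕ) (s : Finset ℕ) (x : ℝ) :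
    ∫ ω, ee (x * part b X s ω) ∂P = ∏ j ∈ s, phi P X j (x / (b : ℝ) ^ (j + 1)) := by
  classical
  have h1 : iIndepFun (fun i : s => X i) P := hI.precomp (g := fun i : s => (i : ℕ)) Subtype.val_injective
  have h2 := h1.integral_fun_prod_comp (𝕜 := ℂ) (f := fun (i : s) (k : ℕ) => ee ((k : ℝ) * (x / (b : ℝ) ^ ((i : ℕ) + 1))))
    (fun i => (hX i).aemeasurable) (fun i => Measurable.aestronglyMeasurable measurable_from_top)
  have e1 : ∀ ω, ee (x * part b X s ω) = ∏ i : s, ee ((X i ω : ℝ) * (x / (b : ℝ) ^ ((i : ℕ) + 1))) := by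
    intro ω
    unfold part
    rw [mul_sum, ee_sum, ← Finset.prod_coe_sort]
    apply prod_congr rfl
    intro i _
    congr 1
    ring
  simp_rw [e1]
  rw [h2, ← Finset.prod_coe_sort s]
  rfl

/-- the difference of the term `n` and of its conditional expectation -/
noncomputable def D (P : Measure Ω) (b : ℕ) (X : ℕ → Ω → ℕ) (x : ℕ → ℝ) (z : ℕ → ℂ) (a c : ℕ → ℕ) (n : ℕ) (ω : Ω) : ℂ :=
  (z n * ee (x n * part b X (range (a n)) ω)) *
    (ee (x n * part b X (Ico (a n) (c n)) ω) - ∏ j ∈ Ico (a n) (c n), phi P X j (x n / (b : ℝ) ^ (j + 1)))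

lemma ee_meas {mm : MeasurableSpace Ω} {f : Ω → ℝ} (hf : Measurable[mm] f) : Measurable[mm] (fun ω => ee (f ω)) :=
  ee_cont.measurable.comp hf

lemma D_meas {P : Measure Ω} (b : ℕ) {X : ℕ → Ω → ℕ} (x : ℕ → ℝ) (z : ℕ → ℂ) (a c : ℕ → ℕ) (n : ℕ) {S : Set ℕ} (h1 : ∀ j < c n, j ∈ S)
    (hac : a n ≤ c n) : Measurable[sig X S] (D P b X x z a c n) := by
  unfold D
  have e1 : Measurable[sig X S] (fun ω => ee (x n * part b X (range (a n)) ω)) :=
    ee_meas ((meas_part b _ (fun j hj => h1 j (lt_of_lt_of_le (mem_range.1 hj) hac))).const_mul _)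
  have e2 : Measurable[sig X S] (fun ω => ee (x n * part b X (Ico (a n) (c n)) ω)) :=
    ee_meas ((meas_part b _ (fun j hj => h1 j (mem_Ico.1 hj).2)).const_mul _)
  exact (e1.const_mul _).mul (e2.sub_const _)

/-- orthogonality -/
lemma orth {P : Measure Ω} [IsProbabilityMeasure P] {X : ℕ → Ω → ℕ} (hX : ∀ j, Measurable (X j)) (hI : iIndepFun X P) (b : ℕ)
    (x : ℕ → ℝ) (z : ℕ → ℂ) (a c : ℕ → ℕ) (m n : ℕ) (hm : a m ≤ c m) (hmn : c m ≤ a n) :
    ∫ ω, starRingEnd ℂ (D P b X x z a c m ω) * D P b X x z a c n ω ∂P = 0 := by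
  have h1 : ∀ ω, starRingEnd ℂ (D P b X x z a c m ω) * D P b X x z a c n ω =
      (starRingEnd ℂ (D P b X x z a c m ω) * (z n * ee (x n * part b X (range (a n)) ω))) *
      (ee (x n * part b X (Ico (a n) (c n)) ω) - ∏ j ∈ Ico (a n) (c n), phi P X j (x n / (b : ℝ) ^ (j + 1))) := by
    intro ω
    conv_lhs => rw [show D P b X x z a c n ω = (z n * ee (x n * part b X (range (a n)) ω)) *
      (ee (x n * part b X (Ico (a n) (c n)) ω) - ∏ j ∈ Ico (a n) (c n), phi P X j (x n / (b : ℝ) ^ (j + 1))) from rfl]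
    ring
  simp_rw [h1]
  rw [int_mul hX hI (S := {j | j < a n}) (T := {j | a n ≤ j})]
  · have h2 : ∫ ω, (ee (x n * part b X (Ico (a n) (c n)) ω) - ∏ j ∈ Ico (a n) (c n), phi P X j (x n / (b : ℝ) ^ (j + 1))) ∂P = 0 := by
      rw [integral_sub, char_part hX hI, integral_const]
      · simp
      · refine Integrable.of_bound (ee_meas ((meas_part' b hX _).const_mul _)).aestronglyMeasurable 1 (ae_of_all _ fun ω => ?_)
        rw [Pool.Agent.H807R2.Dav.norm_ee]
      · exact integrable_const _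
    rw [h2, mul_zero]
  · rw [Set.disjoint_left]
    intro j hj hj2
    simp only [Set.mem_ofPred_eq] at hj hj2
    omega
  · have e1 : Measurable[sig X {j | j < a n}] (fun ω => starRingEnd ℂ (D P b X x z a c m ω)) :=
      Complex.continuous_conj.measurable.comp (D_meas b x z a c m (fun j hj => lt_of_lt_of_le hj hmn) hm)
    have e2 : Measurable[sig X {j | j < a n}] (fun ω => ee (x n * part b X (range (a n)) ω)) :=
      ee_meas ((meas_part b _ (fun j hj => mem_range.1 hj)).const_mul _)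
    exact e1.mul (e2.const_mul _)
  · exact (ee_meas ((meas_part b _ (fun j hj => (mem_Ico.1 hj).1)).const_mul _)).sub_const _

end Pool.Agent.Run7.h672.AE
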