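import Pool.Agent.Run7.h672.AE.A

set_option autoImplicit false

/-!
# Numbers with independent random digits: almost sure convergence of the exponential sums
-/

namespace Pool.Agent.Run7.h672.AE
open Finset MeasureTheory ProbabilityTheory Filter Topology
open Pool.Agent.H807R2.Dav (ee)

variable {Ω : Type*} {m0 : MeasurableSpace Ω}

lemma norm_phi {P : Measure Ω} [IsProbabilityMeasure P] (X : ℕ → Ω → ℕ) (j : ℕ) (t : ℝ) : ‖phi P X j t‖ ≤ 1 := by
  unfold phi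
  refine (norm_integral_le_of_norm_le_const (C := 1) (ae_of_all _ fun ω => ?_)).trans (le_of_eq ?_)
  · rw [Pool.Agent.H807R2.Dav.norm_ee]
  · simp

lemma norm_prod_phi {P : Measure Ω} [IsProbabilityMeasure P] (X : ℕ → Ω → ℕ) (s : Finset ℕ) (t : ℕ → ℝ) : ‖∏ j ∈ s, phi P X j (t j)‖ ≤ 1 := by
  rw [norm_prod]
  exact prod_le_one (fun _ _ => norm_nonneg _) (fun j _ => norm_phi X j _)

lemma norm_D {P : Measure Ω} [IsProbabilityMeasure P] (b : ℕ) (X : ℕ → Ω → ℕ) (x : ℕ → ℝ) (z : ℕ → ℂ) (hz : ∀ n, ‖z n‖ ≤ 1)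
    (a c : ℕ → ℕ) (n : ℕ) (ω : Ω) : ‖D P b X x z a c n ω‖ ≤ 2 := by
  unfold D
  rw [norm_mul, norm_mul, Pool.Agent.H807R2.Dav.norm_ee, mul_one]
  have h1 := norm_sub_le (ee (x n * part b X (Ico (a n) (c n)) ω)) (∏ j ∈ Ico (a n) (c n), phi P X j (x n / (b : ℝ) ^ (j + 1)))
  rw [Pool.Agent.H807R2.Dav.norm_ee] at h1
  have h2 := norm_prod_phi (P := P) X (Ico (a n) (c n)) (fun j => x n / (b : ℝ) ^ (j + 1))
  calc _ ≤ 1 * 2 := mul_le_mul (hz n) (by linarith) (norm_nonneg _) (by norm_num)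
    _ = 2 := by norm_num

/-- the second moment -/
lemma second {P : Measure Ω} [IsProbabilityMeasure P] {X : ℕ → Ω → ℕ} (hX : ∀ j, Measurable (X j)) (hI : iIndepFun X P) (b : ℕ)
    (x : ℕ → ℝ) (z : ℕ → ℂ) (hz : ∀ n, ‖z n‖ ≤ 1) (a c : ℕ → ℕ) (hac : ∀ n, a n ≤ c n) (q : ℕ)
    (hgap : ∀ m n, m + q ≤ n → c m ≤ a n) (N : ℕ) :
    ∫ ω, ‖∑ n ∈ Icc 1 N, D P b X x z a c n ω‖ ^ 2 ∂P ≤ 8 * q * N := by
  classical
  have hint : ∀ m n, Integrable (fun ω => starRingEnd ℂ (D P b X x z a c m ω) * D P b X x z a c n ω) P := by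
    intro m n
    have e1 : ∀ n, Measurable (D P b X x z a c n) := fun n =>
      (D_meas b x z a c n (S := Set.univ) (fun _ _ => Set.mem_univ _) (hac n)).mono (sig_le hX _) le_rfl
    refine Integrable.of_bound ((Complex.continuous_conj.measurable.comp (e1 m)).mul (e1 n)).aestronglyMeasurable 4
      (ae_of_all _ fun ω => ?_)
    rw [norm_mul, RCLike.norm_conj]
    calc _ ≤ (2 : ℝ) * 2 := mul_le_mul (norm_D b X x z hz a c m ω) (norm_D b X x z hz a c n ω) (norm_nonneg _) (by norm_num)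
      _ = 4 := by norm_num
  have h1 : ((∫ ω, ‖∑ n ∈ Icc 1 N, D P b X x z a c n ω‖ ^ 2 ∂P : ℝ) : ℂ) =
      ∑ m ∈ Icc 1 N, ∑ n ∈ Icc 1 N, ∫ ω, starRingEnd ℂ (D P b X x z a c m ω) * D P b X x z a c n ω ∂P := by
    rw [← integral_complex_ofReal]
    have e1 : ∀ ω, ((‖∑ n ∈ Icc 1 N, D P b X x z a c n ω‖ ^ 2 : ℝ) : ℂ) =
        ∑ m ∈ Icc 1 N, ∑ n ∈ Icc 1 N, starRingEnd ℂ (D P b X x z a c m ω) * D P b X x z a c n ω := by
      intro ω
      rw [← Complex.normSq_eq_norm_sq, ← Complex.mul_conj, map_sum, mul_comm, sum_mul_sum]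
    simp_rw [e1]
    rw [integral_finsetSum]
    · apply sum_congr rfl
      intro m _
      rw [integral_finsetSum]
      intro n _
      exact hint m n
    · intro m _
      exact integrable_finsetSum _ fun n _ => hint m n
  have h2 : ∀ m ∈ Icc 1 N, ‖∑ n ∈ Icc 1 N, ∫ ω, starRingEnd ℂ (D P b X x z a c m ω) * D P b X x z a c n ω ∂P‖ ≤ 8 * q := by
    intro m _
    refine (norm_sum_le _ _).trans ?_
    have h3 : ∀ n ∈ Icc 1 N, ‖∫ ω, starRingEnd ℂ (D P b X x z a c m ω) * D P b X x z a c n ω ∂P‖ ≤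
        if m < n + q ∧ n < m + q then 4 else 0 := by
      intro n _
      split_ifs with h
      · refine (norm_integral_le_of_norm_le_const (C := 4) (ae_of_all _ fun ω => ?_)).trans (le_of_eq ?_)
        · rw [norm_mul, RCLike.norm_conj]
          calc _ ≤ (2 : ℝ) * 2 := mul_le_mul (norm_D b X x z hz a c m ω) (norm_D b X x z hz a c n ω) (norm_nonneg _) (by norm_num)
            _ = 4 := by norm_num
        · simp
      · rw [not_and_or, not_lt, not_lt] at h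
        rcases h with h | h
        · have h4 := orth hX hI b x z a c n m (hac n) (hgap n m h)
          have h5 : ∫ ω, starRingEnd ℂ (D P b X x z a c m ω) * D P b X x z a c n ω ∂P =
              starRingEnd ℂ (∫ ω, starRingEnd ℂ (D P b X x z a c n ω) * D P b X x z a c m ω ∂P) := by
            rw [← integral_conj]
            congr 1
            funext ω
            rw [map_mul, Complex.conj_conj, mul_comm]
          rw [h5, h4]
          simp
        · rw [orth hX hI b x z a c m n (hac m) (hgap m n h)]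
          simp
    refine (sum_le_sum h3).trans ?_
    rw [← sum_filter, sum_const, nsmul_eq_mul]
    have h4 : ((Icc 1 N).filter (fun n => m < n + q ∧ n < m + q)) ⊆ Ico (m + 1 - q) (m + q) := by
      intro n hn
      rw [mem_filter] at hn
      rw [mem_Ico]
      omega
    have h5 := card_le_card h4
    rw [Nat.card_Ico] at h5
    have h6 : (((Icc 1 N).filter (fun n => m < n + q ∧ n < m + q)).card : ℝ) ≤ 2 * q := by
      have : ((Icc 1 N).filter (fun n => m < n + q ∧ n < m + q)).card ≤ 2 * q := by omega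
      exact_mod_cast this
    linarith
  have h0 : 0 ≤ ∫ ω, ‖∑ n ∈ Icc 1 N, D P b X x z a c n ω‖ ^ 2 ∂P := integral_nonneg fun ω => by positivity
  have h3 : ∫ ω, ‖∑ n ∈ Icc 1 N, D P b X x z a c n ω‖ ^ 2 ∂P =
      ‖((∫ ω, ‖∑ n ∈ Icc 1 N, D P b X x z a c n ω‖ ^ 2 ∂P : ℝ) : ℂ)‖ := by
    rw [Complex.norm_real, Real.norm_eq_abs, abs_of_nonneg h0]
  rw [h3, h1]
  refine (norm_sum_le _ _).trans ((sum_le_sum h2).trans (le_of_eq ?_))
  rw [sum_const, nsmul_eq_mul, Nat.card_Icc, Nat.add_sub_cancel]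
  ring

/-- the averages over the first `k ^ 2` terms tend to zero -/
lemma as_sq {P : Measure Ω} [IsProbabilityMeasure P] {X : ℕ → Ω → ℕ} (hX : ∀ j, Measurable (X j)) (hI : iIndepFun X P) (b : ℕ)
    (x : ℕ → ℝ) (z : ℕ → ℂ) (hz : ∀ n, ‖z n‖ ≤ 1) (a c : ℕ → ℕ) (hac : ∀ n, a n ≤ c n) (q : ℕ)
    (hgap : ∀ m n, m + q ≤ n → c m ≤ a n) :
    ∀ᵐ ω ∂P, ∀ ε : ℝ, 0 < ε → ∀ᶠ k : ℕ in atTop, ‖∑ n ∈ Icc 1 (k ^ 2), D P b X x z a c n ω‖ ≤ ε * k ^ 2 := by
  have hmD : ∀ n, Measurable (D P b X x z a c n) := fun n =>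
    (D_meas b x z a c n (S := Set.univ) (fun _ _ => Set.mem_univ _) (hac n)).mono (sig_le hX _) le_rfl
  obtain ⟨f, hf⟩ : ∃ f : ℕ → Ω → ℝ, f = fun (k : ℕ) ω => ‖∑ n ∈ Icc 1 (k ^ 2), D P b X x z a c n ω‖ ^ 2 / ((k : ℝ) ^ 2) ^ 2 := ⟨_, rfl⟩
  have hf0 : ∀ k ω, 0 ≤ f k ω := by
    intro k ω
    rw [hf]
    positivity
  have hfm : ∀ k, Measurable (f k) := by
    intro k
    rw [hf]
    exact ((Finset.measurable_sum _ fun n _ => hmD n).norm.pow_const 2).div_const _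
  have hfi : ∀ k, ∫ ω, f k ω ∂P ≤ 8 * q * (1 / (k : ℝ) ^ 2) := by
    intro k
    rw [hf]
    simp only
    rw [integral_div]
    rcases Nat.eq_zero_or_pos k with h0 | h0
    · subst h0
      simp
    · have hk : (0 : ℝ) < k := by exact_mod_cast h0
      have h1 := second hX hI b x z hz a c hac q hgap (k ^ 2)
      rw [div_le_iff₀ (by positivity)]
      refine h1.trans (le_of_eq ?_)
      push_cast
      field_simp
  have hfint : ∀ k, Integrable (f k) P := by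
    intro k
    refine Integrable.of_bound (hfm k).aestronglyMeasurable ((2 * (k : ℝ) ^ 2) ^ 2 / ((k : ℝ) ^ 2) ^ 2) (ae_of_all _ fun ω => ?_)
    rw [Real.norm_eq_abs, abs_of_nonneg (hf0 k ω), hf]
    simp only
    apply div_le_div_of_nonneg_right _ (by positivity)
    apply pow_le_pow_left₀ (norm_nonneg _)
    refine (norm_sum_le _ _).trans ((sum_le_sum fun n _ => norm_D b X x z hz a c n ω).trans (le_of_eq ?_))
    rw [sum_const, nsmul_eq_mul, Nat.card_Icc, Nat.add_sub_cancel]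
    push_cast
    ring
  have hsum : Summable (fun k : ℕ => 8 * (q : ℝ) * (1 / (k : ℝ) ^ 2)) :=
    (Real.summable_one_div_nat_pow.2 (by norm_num)).mul_left _
  have hlin : ∫⁻ ω, ∑' k, ENNReal.ofReal (f k ω) ∂P ≠ ⊤ := by
    rw [lintegral_tsum fun k => (hfm k).ennreal_ofReal.aemeasurable]
    have h1 : ∀ k, ∫⁻ ω, ENNReal.ofReal (f k ω) ∂P ≤ ENNReal.ofReal (8 * q * (1 / (k : ℝ) ^ 2)) := by
      intro k
      rw [← ofReal_integral_eq_lintegral_ofReal (hfint k) (ae_of_all _ (hf0 k))]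
      exact ENNReal.ofReal_le_ofReal (hfi k)
    refine ne_top_of_le_ne_top ?_ (ENNReal.tsum_le_tsum h1)
    rw [← ENNReal.ofReal_tsum_of_nonneg (fun k => by positivity) hsum]
    exact ENNReal.ofReal_ne_top
  have hae := ae_lt_top (Measurable.tsum fun k => (hfm k).ennreal_ofReal) hlin
  filter_upwards [hae] with ω hω ε hε
  have h1 := ENNReal.tendsto_atTop_zero_of_tsum_ne_top hω.ne
  have h2 : ∀ᶠ k : ℕ in atTop, ENNReal.ofReal (f k ω) < ENNReal.ofReal (ε ^ 2) :=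
    h1.eventually_lt_const (by simpa using (by positivity : (0 : ℝ) < ε ^ 2))
  filter_upwards [h2, eventually_ge_atTop 1] with k hk hk1
  have hk0 : (0 : ℝ) < k := by exact_mod_cast hk1
  have h3 : f k ω < ε ^ 2 := (ENNReal.ofReal_lt_ofReal_iff (by positivity)).1 hk
  rw [hf] at h3
  simp only at h3
  rw [div_lt_iff₀ (by positivity)] at h3
  have h4 : ‖∑ n ∈ Icc 1 (k ^ 2), D P b X x z a c n ω‖ ^ 2 ≤ (ε * k ^ 2) ^ 2 := by
    refine h3.le.trans (le_of_eq ?_)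
    ring
  exact (pow_le_pow_iff_left₀ (norm_nonneg _) (by positivity) (by norm_num)).1 h4

/-- from the squares to all numbers -/
lemma all_of_sq (d : ℕ → ℂ) (hd : ∀ n, ‖d n‖ ≤ 2)
    (h : ∀ ε : ℝ, 0 < ε → ∀ᶠ k : ℕ in atTop, ‖∑ n ∈ Icc 1 (k ^ 2), d n‖ ≤ ε * k ^ 2) (ε : ℝ) (hε : 0 < ε) :
    ∀ᶠ N : ℕ in atTop, ‖∑ n ∈ Icc 1 N, d n‖ ≤ ε * N := by
  obtain ⟨k₀, hk₀⟩ := eventually_atTop.1 (h (ε / 2) (by positivity))
  obtain ⟨m, hm⟩ := exists_nat_gt (8 / ε)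
  filter_upwards [eventually_ge_atTop ((k₀ + m + 1) ^ 2)] with N hN
  obtain ⟨k, hk⟩ : ∃ k, k = Nat.sqrt N := ⟨_, rfl⟩
  have hk1 : k₀ + m + 1 ≤ k := by
    rw [hk, Nat.le_sqrt']
    exact hN
  have hk2 : k ^ 2 ≤ N := by rw [hk]; exact Nat.sqrt_le' N
  have hk3 : N < (k + 1) ^ 2 := by rw [hk]; exact Nat.lt_succ_sqrt' N
  have h1 : ∑ n ∈ Icc 1 N, d n = ∑ n ∈ Icc 1 (k ^ 2), d n + ∑ n ∈ Ioc (k ^ 2) N, d n := by
    rw [← sum_union]
    · congr 1
      ext n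
      rw [mem_union, mem_Icc, mem_Icc, mem_Ioc]
      have : 1 ≤ k ^ 2 := Nat.one_le_pow _ _ (by omega)
      omega
    · rw [disjoint_left]
      intro n hn hn2
      rw [mem_Icc] at hn
      rw [mem_Ioc] at hn2
      omega
  rw [h1]
  have h2 : ‖∑ n ∈ Ioc (k ^ 2) N, d n‖ ≤ 4 * k := by
    refine (norm_sum_le _ _).trans ((sum_le_sum fun n _ => hd n).trans ?_)
    rw [sum_const, nsmul_eq_mul, Nat.card_Ioc]
    have h3 : N - k ^ 2 ≤ 2 * k := by
      have : (k + 1) ^ 2 = k ^ 2 + 2 * k + 1 := by ring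
      omega
    have h4 : ((N - k ^ 2 : ℕ) : ℝ) ≤ 2 * k := by exact_mod_cast h3
    linarith
  have h3 := hk₀ k (by omega)
  have hkm : 8 / ε ≤ k := hm.le.trans (by exact_mod_cast (by omega : m ≤ k))
  have hk0 : (0 : ℝ) ≤ k := Nat.cast_nonneg k
  have h4 : 4 * (k : ℝ) ≤ ε / 2 * k ^ 2 := by
    rw [div_le_iff₀ hε] at hkm
    nlinarith
  have h5 : ((k : ℝ) ^ 2) ≤ N := by exact_mod_cast hk2
  calc _ ≤ ε / 2 * k ^ 2 + ε / 2 * k ^ 2 := (norm_add_le _ _).trans (add_le_add h3 (h2.trans h4))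
    _ = ε * k ^ 2 := by ring
    _ ≤ ε * N := mul_le_mul_of_nonneg_left h5 hε.le

/-- the number with the digits `X` -/
noncomputable def num (b : ℕ) (X : ℕ → Ω → ℕ) (ω : Ω) : ℝ := ∑' j : ℕ, (X j ω : ℝ) / (b : ℝ) ^ (j + 1)

lemma num_summable {b : ℕ} (hb : 2 ≤ b) {X : ℕ → Ω → ℕ} (hlt : ∀ j ω, X j ω < b) (ω : Ω) :
    Summable (fun j : ℕ => (X j ω : ℝ) / (b : ℝ) ^ (j + 1)) := by
  have hb2 : (2 : ℝ) ≤ b := by exact_mod_cast hb
  refine Summable.of_nonneg_of_le (fun j => by positivity) (fun j => ?_)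
    (summable_geometric_of_lt_one (r := 1 / (b : ℝ)) (by positivity) (by rw [div_lt_one (by linarith)]; linarith))
  have h1 : (X j ω : ℝ) ≤ b := by exact_mod_cast (hlt j ω).le
  rw [one_div, inv_pow, div_le_iff₀ (by positivity), pow_succ]
  have : ((b : ℝ) ^ j)⁻¹ * ((b : ℝ) ^ j * b) = b := by field_simp
  rw [this]
  exact h1

lemma num_sub_part {b : ℕ} (hb : 2 ≤ b) {X : ℕ → Ω → ℕ} (hlt : ∀ j ω, X j ω < b) (ω : Ω) (c : ℕ) :
    0 ≤ num b X ω - part b X (range c) ω ∧ num b X ω - part b X (range c) ω ≤ 1 / (b : ℝ) ^ c := by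
  have hb2 : (2 : ℝ) ≤ b := by exact_mod_cast hb
  have hb0 : (0 : ℝ) < b := by linarith
  have hs := num_summable hb hlt ω
  have h1 : num b X ω - part b X (range c) ω = ∑' j : ℕ, (X (j + c) ω : ℝ) / (b : ℝ) ^ (j + c + 1) := by
    unfold num part
    rw [← hs.sum_add_tsum_nat_add c]
    ring
  rw [h1]
  refine ⟨tsum_nonneg fun j => by positivity, ?_⟩
  have hg : Summable (fun j : ℕ => (1 / (b : ℝ)) ^ j) :=
    summable_geometric_of_lt_one (by positivity) (by rw [div_lt_one (by linarith)]; linarith)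
  have h2 : ∀ j : ℕ, (X (j + c) ω : ℝ) / (b : ℝ) ^ (j + c + 1) ≤ ((b - 1) / (b : ℝ) ^ (c + 1)) * (1 / (b : ℝ)) ^ j := by
    intro j
    have h3 : (X (j + c) ω : ℝ) ≤ b - 1 := by
      have : X (j + c) ω + 1 ≤ b := hlt (j + c) ω
      have h4 : ((X (j + c) ω : ℝ) + 1) ≤ b := by exact_mod_cast this
      linarith
    rw [one_div, inv_pow, ← div_eq_mul_inv, div_div, ← pow_add]
    rw [show c + 1 + j = j + c + 1 by omega]
    gcongr
  refine ((Summable.tsum_le_tsum h2 ((summable_nat_add_iff c).2 hs) (hg.mul_left _))).trans (le_of_eq ?_)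
  rw [tsum_mul_left, tsum_geometric_of_lt_one (by positivity) (by rw [div_lt_one (by linarith)]; linarith)]
  have : (b : ℝ) - 1 ≠ 0 := by linarith
  rw [pow_succ]
  field_simp

lemma ee_lip (s t : ℝ) : ‖ee s - ee t‖ ≤ 7 * |s - t| := by
  have h1 : ee s - ee t = ee t * (ee (s - t) - 1) := by
    rw [mul_sub, mul_one, ← Pool.Agent.H807R2.Dav.ee_add]
    congr 2
    ring
  rw [h1, norm_mul, Pool.Agent.H807R2.Dav.norm_ee, one_mul, Pool.Agent.H807R2.Dav.ee_eq']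
  refine (Real.norm_exp_I_mul_ofReal_sub_one_le).trans ?_
  rw [Real.norm_eq_abs, abs_mul, abs_of_pos (by positivity)]
  have h2 := Real.pi_lt_d2
  nlinarith [abs_nonneg (s - t)]

/-- **the exponential sums are small for almost all numbers** -/
theorem weyl {P : Measure Ω} [IsProbabilityMeasure P] {b : ℕ} (hb : 2 ≤ b) {X : ℕ → Ω → ℕ} (hX : ∀ j, Measurable (X j))
    (hI : iIndepFun X P) (hlt : ∀ j ω, X j ω < b) (x : ℕ → ℝ) (z : ℕ → ℂ) (hz : ∀ n, ‖z n‖ ≤ 1) (K : ℕ → ℕ) (C : ℝ)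
    (hxK : ∀ n, |x n| ≤ C * (b : ℝ) ^ K n) (hgap : ∀ G : ℕ, ∃ q : ℕ, ∀ m n, m + q ≤ n → K m + 2 * G ≤ K n)
    (hH : ∀ ε : ℝ, 0 < ε → ∃ G : ℕ, C ≤ ε * (b : ℝ) ^ G ∧
      ∀ᶠ N : ℕ in atTop, ∑ n ∈ Icc 1 N, ∏ j ∈ Ico (K n - G) (K n + G), ‖phi P X j (x n / (b : ℝ) ^ (j + 1))‖ ≤ ε * N) :
    ∀ᵐ ω ∂P, ∀ ε : ℝ, 0 < ε → ∀ᶠ N : ℕ in atTop, ‖∑ n ∈ Icc 1 N, z n * ee (x n * num b X ω)‖ ≤ ε * N := by
  have hb2 : (2 : ℝ) ≤ b := by exact_mod_cast hb
  have hb0 : (0 : ℝ) < b := by linarith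
  have key : ∀ ε : ℝ, 0 < ε → ∀ᵐ ω ∂P, ∀ᶠ N : ℕ in atTop, ‖∑ n ∈ Icc 1 N, z n * ee (x n * num b X ω)‖ ≤ 9 * ε * N := by
    intro ε hε
    obtain ⟨G, hG1, hG2⟩ := hH ε hε
    obtain ⟨q, hq⟩ := hgap G
    obtain ⟨a, ha⟩ : ∃ a : ℕ → ℕ, a = fun n => K n - G := ⟨_, rfl⟩
    obtain ⟨c, hc⟩ : ∃ c : ℕ → ℕ, c = fun n => K n + G := ⟨_, rfl⟩
    have hac : ∀ n, a n ≤ c n := by
      intro n
      rw [ha, hc]
      show K n - G ≤ K n + G
      omega
    have hae := as_sq hX hI b x z hz a c hac q (fun m n hmn => by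
      have := hq m n hmn
      rw [ha, hc]
      show K m + G ≤ K n - G
      omega)
    filter_upwards [hae] with ω hω
    have h1 := all_of_sq (fun n => D P b X x z a c n ω) (fun n => norm_D b X x z hz a c n ω) hω ε hε
    filter_upwards [h1, hG2] with N hN1 hN2
    have h2 : ∀ n, ‖z n * ee (x n * num b X ω) - D P b X x z a c n ω‖ ≤
        ∏ j ∈ Ico (K n - G) (K n + G), ‖phi P X j (x n / (b : ℝ) ^ (j + 1))‖ + 7 * ε := by
      intro n
      have e1 : part b X (range (c n)) ω = part b X (range (a n)) ω + part b X (Ico (a n) (c n)) ω := by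
        unfold part
        rw [range_eq_Ico, range_eq_Ico, sum_Ico_consecutive _ (Nat.zero_le _) (hac n)]
      have e2 : z n * ee (x n * num b X ω) - D P b X x z a c n ω =
          z n * (ee (x n * num b X ω) - ee (x n * part b X (range (c n)) ω)) +
          (z n * ee (x n * part b X (range (a n)) ω)) * ∏ j ∈ Ico (a n) (c n), phi P X j (x n / (b : ℝ) ^ (j + 1)) := by
        unfold D
        rw [e1, mul_add (x n), Pool.Agent.H807R2.Dav.ee_add]
        ring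
      rw [e2]
      refine (norm_add_le _ _).trans ?_
      rw [add_comm]
      apply add_le_add
      · rw [norm_mul, norm_mul, Pool.Agent.H807R2.Dav.norm_ee, mul_one, norm_prod, ha, hc]
        exact mul_le_of_le_one_left (prod_nonneg fun _ _ => norm_nonneg _) (hz n)
      · rw [norm_mul]
        refine (mul_le_of_le_one_left (norm_nonneg _) (hz n)).trans ((ee_lip _ _).trans ?_)
        apply mul_le_mul_of_nonneg_left _ (by norm_num)
        rw [← mul_sub, abs_mul]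
        obtain ⟨g1, g2⟩ := num_sub_part hb hlt ω (c n)
        rw [abs_of_nonneg g1]
        have hcn : c n = K n + G := by rw [hc]
        rw [hcn] at g2 ⊢
        have hC0 : 0 ≤ C * (b : ℝ) ^ K n := (abs_nonneg _).trans (hxK n)
        calc |x n| * (num b X ω - part b X (range (K n + G)) ω) ≤ (C * (b : ℝ) ^ K n) * (1 / (b : ℝ) ^ (K n + G)) :=
              mul_le_mul (hxK n) g2 (by rw [← hcn]; exact g1) hC0
          _ = C / (b : ℝ) ^ G := by rw [pow_add]; field_simp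
          _ ≤ ε := by rw [div_le_iff₀ (by positivity)]; exact hG1
    have e3 : ∑ n ∈ Icc 1 N, z n * ee (x n * num b X ω) = ∑ n ∈ Icc 1 N, D P b X x z a c n ω +
        ∑ n ∈ Icc 1 N, (z n * ee (x n * num b X ω) - D P b X x z a c n ω) := by
      rw [← sum_add_distrib]
      apply sum_congr rfl
      intro n _
      ring
    rw [e3]
    have h3 : ‖∑ n ∈ Icc 1 N, (z n * ee (x n * num b X ω) - D P b X x z a c n ω)‖ ≤ ε * N + 7 * ε * N := by
      refine (norm_sum_le _ _).trans ((sum_le_sum fun n _ => h2 n).trans ?_)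
      rw [sum_add_distrib, sum_const, nsmul_eq_mul, Nat.card_Icc, Nat.add_sub_cancel]
      linarith
    refine (norm_add_le _ _).trans ?_
    linarith
  have h1 : ∀ᵐ ω ∂P, ∀ i : ℕ, ∀ᶠ N : ℕ in atTop, ‖∑ n ∈ Icc 1 N, z n * ee (x n * num b X ω)‖ ≤ 9 * (1 / ((i : ℝ) + 1)) * N :=
    ae_all_iff.2 fun i => key _ (by positivity)
  filter_upwards [h1] with ω hω ε hε
  obtain ⟨i, hi⟩ := exists_nat_gt (9 / ε)
  filter_upwards [hω i] with N hN
  refine hN.trans ?_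
  apply mul_le_mul_of_nonneg_right _ (Nat.cast_nonneg N)
  rw [mul_one_div, div_le_iff₀ (by positivity)]
  rw [div_lt_iff₀ hε] at hi
  nlinarith

end Pool.Agent.Run7.h672.AE
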