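import Pool.Agent.Run7.h672.AE.B

set_option autoImplicit false

/-!
# Numbers with independent random digits: the characteristic functions of the digits
-/

namespace Pool.Agent.Run7.h672.AE
open Finset MeasureTheory ProbabilityTheory Filter Topology
open Pool.Agent.H807R2.Dav (ee)
open Pool.Agent.TH872.Mir (Far farCount)

variable {Ω : Type*} {m0 : MeasurableSpace Ω}

/-- two values of the digit at the place `j` have probabilities of at least `η` -/
def Two (P : Measure Ω) (X : ℕ → Ω → ℕ) (η : ℝ) (j : ℕ) : Prop :=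
  ∃ u v : ℕ, u ≠ v ∧ η ≤ P.real {ω | X j ω = u} ∧ η ≤ P.real {ω | X j ω = v}

lemma phi_eq {P : Measure Ω} [IsProbabilityMeasure P] {b : ℕ} {X : ℕ → Ω → ℕ} (hX : ∀ j, Measurable (X j))
    (hlt : ∀ j ω, X j ω < b) (j : ℕ) (t : ℝ) :
    phi P X j t = ∑ k ∈ range b, (P.real {ω | X j ω = k} : ℂ) * ee ((k : ℝ) * t) := by
  classical
  have hm : ∀ k : ℕ, MeasurableSet {ω | X j ω = k} := fun k => (hX j) (measurableSet_singleton k)
  have e1 : ∀ ω, ee ((X j ω : ℝ) * t) = ∑ k ∈ range b, ({ω | X j ω = k} : Set Ω).indicator (fun _ => ee ((k : ℝ) * t)) ω := by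
    intro ω
    rw [sum_eq_single (X j ω)]
    · rw [Set.indicator_of_mem]
      rfl
    · intro k _ hk
      rw [Set.indicator_of_notMem]
      exact fun h => hk h.symm
    · intro h
      exact absurd (mem_range.2 (hlt j ω)) h
  unfold phi
  simp_rw [e1]
  rw [integral_finsetSum]
  · apply sum_congr rfl
    intro k _
    rw [integral_indicator_const _ (hm k)]
    rw [Complex.real_smul]
  · intro k _
    exact (integrable_const _).indicator (hm k)

/-- the bound for the characteristic function of one digit -/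
noncomputable def gam (b : ℕ) (η : ℝ) : ℝ := 1 - 4 * η * (1 / ((b : ℝ) ^ 2 * b.factorial)) ^ 2

lemma prob_sum {P : Measure Ω} [IsProbabilityMeasure P] {b : ℕ} {X : ℕ → Ω → ℕ} (hX : ∀ j, Measurable (X j))
    (hlt : ∀ j ω, X j ω < b) (j : ℕ) : ∑ k ∈ range b, P.real {ω | X j ω = k} = 1 := by
  have h := phi_eq (P := P) hX hlt j 0
  unfold phi at h
  simp only [mul_zero, Pool.Agent.H807R2.Dav.ee_zero, mul_one] at h
  rw [integral_const, probReal_univ, one_smul] at h
  have h2 : ((∑ k ∈ range b, P.real {ω | X j ω = k} : ℝ) : ℂ) = 1 := by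
    rw [Complex.ofReal_sum]
    exact h.symm
  exact_mod_cast h2

lemma phi_le {P : Measure Ω} [IsProbabilityMeasure P] {b : ℕ} (hb : 2 ≤ b) {X : ℕ → Ω → ℕ} (hX : ∀ j, Measurable (X j))
    (hlt : ∀ j ω, X j ω < b) {η : ℝ} (hη : 0 < η) {j : ℕ} (hT : Two P X η j) (t : ℝ)
    (hf : Far (1 / (b : ℝ) ^ 2) ((b.factorial : ℝ) * t)) : ‖phi P X j t‖ ≤ gam b η := by
  classical
  have hb2 : (2 : ℝ) ≤ b := by exact_mod_cast hb
  have hb0 : (0 : ℝ) < b := by linarith
  have hF : (0 : ℝ) < b.factorial := by exact_mod_cast b.factorial_pos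
  obtain ⟨p, hp⟩ : ∃ p : ℕ → ℝ, p = fun k => P.real {ω | X j ω = k} := ⟨_, rfl⟩
  have hp0 : ∀ k, 0 ≤ p k := by
    intro k
    rw [hp]
    exact measureReal_nonneg
  have hp1 : ∑ k ∈ range b, p k = 1 := by rw [hp]; exact prob_sum hX hlt j
  have hph : phi P X j t = ∑ k ∈ range b, (p k : ℂ) * ee ((k : ℝ) * t) := by rw [hp]; exact phi_eq hX hlt j t
  -- an ordered pair of digits
  have hT' : ∃ u v : ℕ, u < v ∧ η ≤ p u ∧ η ≤ p v := by
    obtain ⟨u, v, huv, h1, h2⟩ := hT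
    rw [hp]
    rcases lt_or_gt_of_ne huv with h | h
    · exact ⟨u, v, h, h1, h2⟩
    · exact ⟨v, u, h, h2, h1⟩
  obtain ⟨u, v, huv, hu, hv⟩ := hT'
  have hvb : v < b := by
    by_contra hcon
    have h3 : {ω | X j ω = v} = ∅ := by
      ext ω
      simp only [Set.mem_ofPred_eq, Set.mem_empty_iff_false, iff_false]
      have := hlt j ω
      omega
    rw [hp] at hv
    simp only [h3, measureReal_empty] at hv
    linarith
  have hub : u < b := by omega
  obtain ⟨δ, hδ⟩ : ∃ δ : ℝ, δ = 1 / ((b : ℝ) ^ 2 * b.factorial) := ⟨_, rfl⟩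
  have hδ0 : 0 < δ := by rw [hδ]; positivity
  -- the difference of the digits
  have hfar : ∀ n : ℤ, δ ≤ |(((v : ℝ) - u) * t) - n| := by
    intro n
    obtain ⟨g, hg⟩ : (v - u) ∣ b.factorial := Nat.dvd_factorial (by omega) (by omega)
    have hg1 : (b.factorial : ℝ) = ((v : ℝ) - u) * g := by
      have : ((b.factorial : ℕ) : ℝ) = (((v - u) * g : ℕ) : ℝ) := by rw [← hg]
      rw [this, Nat.cast_mul, Nat.cast_sub huv.le]
    have h1 := hf ((g : ℤ) * n)
    have e1 : (b.factorial : ℝ) * t - (((g : ℤ) * n : ℤ) : ℝ) = g * (((v : ℝ) - u) * t - n) := by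
      rw [hg1]
      push_cast
      ring
    rw [e1, abs_mul, Nat.abs_cast] at h1
    have hgle : (g : ℝ) ≤ b.factorial := by
      have h2 : g ≤ b.factorial := Nat.le_of_dvd b.factorial_pos ⟨v - u, by rw [mul_comm]; exact hg⟩
      exact_mod_cast h2
    rw [hδ, div_le_iff₀ (by positivity)]
    have h3 : 1 / (b : ℝ) ^ 2 ≤ b.factorial * |((v : ℝ) - u) * t - n| := h1.trans (mul_le_mul_of_nonneg_right hgle (abs_nonneg _))
    rw [div_le_iff₀ (by positivity)] at h3
    linarith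
  have hcos := Pool.Agent.W93.RD.cos_dist (((v : ℝ) - u) * t) δ hδ0.le hfar
  have hsplit : ∀ f : ℕ → ℝ, ∑ k ∈ range b, f k = f u + f v + ∑ k ∈ ((range b).erase u).erase v, f k := by
    intro f
    rw [← add_sum_erase (range b) f (mem_range.2 hub), ← add_sum_erase ((range b).erase u) f (mem_erase.2 ⟨by omega, mem_range.2 hvb⟩)]
    ring
  have hsplitC : ∀ f : ℕ → ℂ, ∑ k ∈ range b, f k = f u + f v + ∑ k ∈ ((range b).erase u).erase v, f k := by
    intro f
    rw [← add_sum_erase (range b) f (mem_range.2 hub), ← add_sum_erase ((range b).erase u) f (mem_erase.2 ⟨by omega, mem_range.2 hvb⟩)]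
    ring
  rw [hph, hsplitC]
  rw [hsplit p] at hp1
  have h1 : ‖(p u : ℂ) * ee ((u : ℝ) * t) + (p v : ℂ) * ee ((v : ℝ) * t)‖ ≤ p u + p v - 4 * η * δ ^ 2 := by
    have e1 : (p u : ℂ) * ee ((u : ℝ) * t) + (p v : ℂ) * ee ((v : ℝ) * t) =
        ((p u - η : ℝ) : ℂ) * ee ((u : ℝ) * t) + ((p v - η : ℝ) : ℂ) * ee ((v : ℝ) * t) +
        (η : ℂ) * (ee ((u : ℝ) * t) * (1 + ee (((v : ℝ) - u) * t))) := by
      have e2 : ee ((v : ℝ) * t) = ee ((u : ℝ) * t) * ee (((v : ℝ) - u) * t) := by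
        rw [← Pool.Agent.H807R2.Dav.ee_add]
        congr 1
        ring
      rw [mul_add (ee ((u : ℝ) * t)), ← e2]
      push_cast
      ring
    rw [e1]
    refine (norm_add₃_le).trans ?_
    rw [norm_mul, norm_mul, norm_mul, norm_mul, Pool.Agent.H807R2.Dav.norm_ee, Pool.Agent.H807R2.Dav.norm_ee, Complex.norm_real,
      Complex.norm_real, Complex.norm_real, Real.norm_of_nonneg (by linarith), Real.norm_of_nonneg (by linarith),
      Real.norm_of_nonneg hη.le]
    nlinarith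
  have h2 : ‖∑ k ∈ ((range b).erase u).erase v, (p k : ℂ) * ee ((k : ℝ) * t)‖ ≤ ∑ k ∈ ((range b).erase u).erase v, p k := by
    refine (norm_sum_le _ _).trans (le_of_eq ?_)
    apply sum_congr rfl
    intro k _
    rw [norm_mul, Pool.Agent.H807R2.Dav.norm_ee, mul_one, Complex.norm_real, Real.norm_of_nonneg (hp0 k)]
  refine (norm_add_le _ _).trans ?_
  unfold gam
  rw [← hδ]
  linarith

lemma gam_bounds {b : ℕ} (hb : 2 ≤ b) {η : ℝ} (hη : 0 < η) (hη1 : η ≤ 1) : 0 ≤ gam b η ∧ gam b η < 1 := by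
  have hb2 : (2 : ℝ) ≤ b := by exact_mod_cast hb
  have hF : (1 : ℝ) ≤ b.factorial := by exact_mod_cast b.factorial_pos
  obtain ⟨δ, hδ⟩ : ∃ δ : ℝ, δ = 1 / ((b : ℝ) ^ 2 * b.factorial) := ⟨_, rfl⟩
  have hδ0 : 0 < δ := by rw [hδ]; positivity
  have hδ1 : δ ≤ 1 / 4 := by
    rw [hδ]
    apply one_div_le_one_div_of_le (by norm_num)
    nlinarith
  unfold gam
  rw [← hδ]
  constructor
  · nlinarith [mul_pos hδ0 hδ0]
  · nlinarith [mul_pos hη (mul_pos hδ0 hδ0)]

lemma two_le_one {P : Measure Ω} [IsProbabilityMeasure P] {X : ℕ → Ω → ℕ} {η : ℝ} {j : ℕ} (h : Two P X η j) : η ≤ 1 := by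
  obtain ⟨u, v, -, h1, -⟩ := h
  exact h1.trans measureReal_le_one

lemma prod_sub_le {ι : Type*} [DecidableEq ι] (s t : Finset ι) (hst : t ⊆ s) (f : ι → ℝ) (h0 : ∀ i ∈ s, 0 ≤ f i) (h1 : ∀ i ∈ s, f i ≤ 1) :
    ∏ i ∈ s, f i ≤ ∏ i ∈ t, f i := by
  rw [← prod_sdiff hst]
  refine mul_le_of_le_one_left (prod_nonneg fun i hi => h0 i (hst hi)) ?_
  exact prod_le_one (fun i hi => h0 i (mem_sdiff.1 hi).1) (fun i hi => h1 i (mem_sdiff.1 hi).1)

/-- the product over a window -/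
lemma window {P : Measure Ω} [IsProbabilityMeasure P] {b : ℕ} (hb : 2 ≤ b) {X : ℕ → Ω → ℕ} (hX : ∀ j, Measurable (X j))
    (hlt : ∀ j ω, X j ω < b) {η : ℝ} (hη : 0 < η) (hη1 : η ≤ 1) (x : ℝ) (K G R : ℕ) (hG : G ≤ K) (hT : ∀ j, K - G ≤ j → j < K → Two P X η j)
    (hR : R ≤ farCount b b.factorial G (x / (b : ℝ) ^ K)) :
    ∏ j ∈ Ico (K - G) (K + G), ‖phi P X j (x / (b : ℝ) ^ (j + 1))‖ ≤ gam b η ^ R := by
  classical
  have hb0 : (0 : ℝ) < b := by exact_mod_cast (by omega : 0 < b)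
  obtain ⟨hg0, hg1⟩ := gam_bounds hb hη hη1
  obtain ⟨S, hS⟩ : ∃ S : Finset ℕ, S = (range G).filter (fun j => Far (1 / (b : ℝ) ^ 2) ((b.factorial : ℝ) * ((b : ℝ) ^ j * (x / (b : ℝ) ^ K)))) := ⟨_, rfl⟩
  have hcard : R ≤ S.card := by
    refine hR.trans (le_of_eq ?_)
    rw [hS]
    unfold farCount
    congr!
  have hinj : Set.InjOn (fun i => K - 1 - i) (S : Set ℕ) := by
    intro i hi i' hi' h
    rw [mem_coe, hS, mem_filter, mem_range] at hi hi'
    simp only at h
    omega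
  refine (prod_sub_le _ (S.image (fun i => K - 1 - i)) ?_ _ (fun _ _ => norm_nonneg _) (fun j _ => norm_phi X j _)).trans ?_
  · intro j hj
    rw [mem_image] at hj
    obtain ⟨i, hi, rfl⟩ := hj
    rw [hS, mem_filter, mem_range] at hi
    rw [mem_Ico]
    omega
  · rw [prod_image hinj]
    calc _ ≤ ∏ i ∈ S, gam b η := by
          apply prod_le_prod (fun _ _ => norm_nonneg _)
          intro i hi
          rw [hS, mem_filter, mem_range] at hi
          apply phi_le hb hX hlt hη (hT _ (by omega) (by omega))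
          have e1 : x / (b : ℝ) ^ (K - 1 - i + 1) = (b : ℝ) ^ i * (x / (b : ℝ) ^ K) := by
            have e2 : (b : ℝ) ^ K = (b : ℝ) ^ (K - 1 - i + 1) * (b : ℝ) ^ i := by
              rw [← pow_add]
              congr 1
              omega
            rw [e2]
            field_simp
          rw [e1]
          exact hi.2
      _ = gam b η ^ S.card := by rw [prod_const]
      _ ≤ gam b η ^ R := pow_le_pow_of_le_one hg0 hg1.le hcard

end Pool.Agent.Run7.h672.AE
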