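import Pool.Agent.Run7.h672.AE.C

set_option autoImplicit false

/-!
# Numbers with independent random digits: sequences which grow like `β ^ n`
-/

namespace Pool.Agent.Run7.h672.AE
open Finset MeasureTheory ProbabilityTheory Filter Topology
open Pool.Agent.H807R2.Dav (ee)
open Pool.Agent.TH872.Mir (Far farCount)
open Pool.Agent.Run7.h672.EX (cnt equi_of grid)

/-- from exponential sums to the discrepancy -/
lemma disc_of {x : ℕ → ℝ} (hx : ∀ h : ℕ, 1 ≤ h → ∀ ε : ℝ, 0 < ε → ∀ᶠ N : ℕ in atTop, ‖∑ n ∈ Icc 1 N, ee (h * x n)‖ ≤ ε * N)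
    (ε : ℝ) (hε : 0 < ε) : ∀ᶠ N : ℕ in atTop, ∀ s t : ℝ, 0 ≤ s → s < t → t ≤ 1 → |(cnt x N s t : ℝ) - (t - s) * N| ≤ ε * N := by
  obtain ⟨δ, hδ⟩ : ∃ δ : ℝ, δ = min 1 (ε / 8) := ⟨_, rfl⟩
  have hδ0 : 0 < δ := by rw [hδ]; exact lt_min one_pos (by positivity)
  have hδ1 : δ ≤ 1 := by rw [hδ]; exact min_le_left _ _
  have hδ8 : δ ≤ ε / 8 := by rw [hδ]; exact min_le_right _ _
  obtain ⟨K, hK⟩ := exists_nat_gt (1 / δ ^ 2)
  have hK0 : (0 : ℝ) < K := lt_of_le_of_lt (by positivity) hK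
  have hK1 : 1 ≤ K := by exact_mod_cast hK0
  have h1 : ∀ᶠ N : ℕ in atTop, ∀ h ∈ Icc 1 K, ‖∑ n ∈ Icc 1 N, ee (h * x n)‖ ≤ δ / K * N := by
    rw [eventually_all_finset]
    intro h hh
    exact hx h (mem_Icc.1 hh).1 _ (by positivity)
  filter_upwards [h1] with N hN s t hs hst ht
  have hN0 : (0 : ℝ) ≤ N := Nat.cast_nonneg N
  refine (equi_of x N K hK1 δ hδ0 hδ1 s t hs hst ht).trans ?_
  have h2 : ∑ h ∈ Icc 1 K, ‖∑ n ∈ Icc 1 N, ee (h * x n)‖ / (h : ℝ) ≤ δ * N := by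
    calc _ ≤ ∑ h ∈ Icc 1 K, δ / K * N := by
          apply sum_le_sum
          intro h hh
          refine (div_le_self (norm_nonneg _) ?_).trans (hN h hh)
          exact_mod_cast (mem_Icc.1 hh).1
      _ = δ * N := by
          rw [sum_const, nsmul_eq_mul, Nat.card_Icc, Nat.add_sub_cancel]
          field_simp
  have h3 : (N : ℝ) / (K * δ) ≤ N * δ := by
    rw [div_le_iff₀ (by positivity)]
    rw [div_lt_iff₀ (by positivity)] at hK
    nlinarith [mul_nonneg hN0 (by linarith : (0:ℝ) ≤ K * δ ^ 2 - 1)]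
  nlinarith

/-- irrational rotations -/
lemma rotation (α α₀ : ℝ) (hα : Irrational α) (h : ℕ) (hh : 1 ≤ h) (ε : ℝ) (hε : 0 < ε) :
    ∀ᶠ N : ℕ in atTop, ‖∑ n ∈ Icc 1 N, ee (h * (n * α + α₀))‖ ≤ ε * N := by
  obtain ⟨r, hr⟩ : ∃ r : ℂ, r = ee (h * α) := ⟨_, rfl⟩
  have hr1 : r ≠ 1 := by
    intro h1
    rw [hr, Pool.Agent.H807R2.Dav.ee_eq] at h1
    rw [Complex.exp_eq_one_iff] at h1
    obtain ⟨m, hm⟩ := h1
    have h2 : (h : ℝ) * α = m := by
      have h3 : ((2 * Real.pi * (h * α) : ℝ) : ℂ) * Complex.I = ((2 * Real.pi * m : ℝ) : ℂ) * Complex.I := by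
        rw [hm]
        push_cast
        ring
      have h4 := mul_right_cancel₀ Complex.I_ne_zero h3
      have h5 : 2 * Real.pi * (h * α) = 2 * Real.pi * m := by exact_mod_cast h4
      exact mul_left_cancel₀ (by positivity) h5
    exact (hα.natCast_mul (by omega : h ≠ 0)) ⟨m, by rw [h2]; push_cast; rfl⟩
  have e1 : ∀ n : ℕ, ee (h * (n * α + α₀)) = ee (h * α₀) * r ^ n := by
    intro n
    rw [hr, Pool.Agent.H807R2.Dav.ee_eq (h * α), ← Complex.exp_nat_mul, Pool.Agent.H807R2.Dav.ee_eq, Pool.Agent.H807R2.Dav.ee_eq,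
      ← Complex.exp_add]
    congr 1
    push_cast
    ring
  have hnr : ‖r‖ = 1 := by rw [hr, Pool.Agent.H807R2.Dav.norm_ee]
  have hb : ∀ N : ℕ, ‖∑ n ∈ Icc 1 N, ee (h * (n * α + α₀))‖ ≤ 2 / ‖r - 1‖ := by
    intro N
    simp_rw [e1]
    rw [← mul_sum, norm_mul, Pool.Agent.H807R2.Dav.norm_ee, one_mul]
    have e2 : ∑ n ∈ Icc 1 N, r ^ n = r * ∑ n ∈ range N, r ^ n := by
      induction N with
      | zero => simp
      | succ N ih =>
        rw [Finset.sum_Icc_succ_top (by omega), ih, sum_range_succ, pow_succ]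
        ring
    rw [e2, geom_sum_eq hr1, norm_mul, hnr, one_mul, norm_div]
    apply div_le_div_of_nonneg_right _ (norm_nonneg _)
    refine (norm_sub_le _ _).trans ?_
    rw [norm_pow, hnr, one_pow, norm_one]
    norm_num
  obtain ⟨M, hM⟩ := exists_nat_gt (2 / ‖r - 1‖ / ε)
  filter_upwards [eventually_ge_atTop M] with N hN
  refine (hb N).trans ?_
  rw [div_lt_iff₀ hε] at hM
  have h1 : (M : ℝ) ≤ N := by exact_mod_cast hN
  nlinarith

end Pool.Agent.Run7.h672.AE
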