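import Pool.Agent.Run7.h672.AE.P
import Pool.Agent.H429R2.Mult

set_option autoImplicit false

/-!
# The base-6 automaton on configurations with independent random cells
-/

namespace Pool.Agent.Run7.h672.AE
open Finset MeasureTheory ProbabilityTheory Filter Topology
open Pool.Agent.H807R2.Dav (ee)
open Pool.Agent.Run7.h672.EX (cnt)
open Pool.Agent.H429R2.Auto (Conf F Rep rep_iter letter digits_sum sum_lt eq_of_digits)

section Digits

variable {Ω : Type*} {m0 : MeasurableSpace Ω}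

lemma part_Ico_le {b : ℕ} (hb : 2 ≤ b) {X : ℕ → Ω → ℕ} (hlt : ∀ j ω, X j ω < b) (ω : Ω) (k n : ℕ) :
    part b X (Ico k (k + n)) ω ≤ 1 / (b : ℝ) ^ k - 1 / (b : ℝ) ^ (k + n) := by
  have hb2 : (2 : ℝ) ≤ b := by exact_mod_cast hb
  have hb0 : (0 : ℝ) < b := by linarith
  induction n with
  | zero => simp [part]
  | succ n ih =>
    unfold part at ih ⊢
    rw [← add_assoc, sum_Ico_succ_top (by omega)]
    have h3 : (X (k + n) ω : ℝ) ≤ b - 1 := by
      have : X (k + n) ω + 1 ≤ b := hlt (k + n) ω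
      have h4 : ((X (k + n) ω : ℝ) + 1) ≤ b := by exact_mod_cast this
      linarith
    have h4 : (X (k + n) ω : ℝ) / (b : ℝ) ^ (k + n + 1) ≤ 1 / (b : ℝ) ^ (k + n) - 1 / (b : ℝ) ^ (k + n + 1) := by
      rw [div_le_iff₀ (by positivity), sub_mul, div_mul_cancel₀ _ (by positivity), pow_succ]
      have : 1 / (b : ℝ) ^ (k + n) * ((b : ℝ) ^ (k + n) * b) = b := by field_simp
      rw [this]
      exact h3
    linarith

/-- the tail is smaller than one unit if the digits are not all maximal from some place on -/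
lemma tail_lt {b : ℕ} (hb : 2 ≤ b) {X : ℕ → Ω → ℕ} (hlt : ∀ j ω, X j ω < b) (ω : Ω) (hne : ∀ J, ∃ j, J ≤ j ∧ X j ω ≠ b - 1) (k : ℕ) :
    num b X ω - part b X (range k) ω < 1 / (b : ℝ) ^ k := by
  have hb2 : (2 : ℝ) ≤ b := by exact_mod_cast hb
  have hb0 : (0 : ℝ) < b := by linarith
  obtain ⟨j, hj1, hj2⟩ := hne k
  obtain ⟨n, rfl⟩ : ∃ n, j = k + n := ⟨j - k, by omega⟩
  have h1 := (num_sub_part hb hlt ω (k + n + 1)).2
  have h2 : part b X (range (k + n + 1)) ω = part b X (range k) ω + part b X (Ico k (k + n)) ω + (X (k + n) ω : ℝ) / (b : ℝ) ^ (k + n + 1) := by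
    unfold part
    rw [sum_range_succ, range_eq_Ico, range_eq_Ico, sum_Ico_consecutive _ (Nat.zero_le _) (by omega)]
  have h3 := part_Ico_le hb hlt ω k n
  have h4 : (X (k + n) ω : ℝ) ≤ b - 2 := by
    have : X (k + n) ω + 2 ≤ b := by
      have := hlt (k + n) ω
      omega
    have h5 : ((X (k + n) ω : ℝ) + 2) ≤ b := by exact_mod_cast this
    linarith
  have h5 : (X (k + n) ω : ℝ) / (b : ℝ) ^ (k + n + 1) ≤ 1 / (b : ℝ) ^ (k + n) - 2 / (b : ℝ) ^ (k + n + 1) := by
    rw [div_le_iff₀ (by positivity), sub_mul, div_mul_cancel₀ _ (by positivity), pow_succ]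
    have : 1 / (b : ℝ) ^ (k + n) * ((b : ℝ) ^ (k + n) * b) = b := by field_simp
    rw [this]
    exact h4
  have h6 : (0 : ℝ) < 1 / (b : ℝ) ^ (k + n + 1) := by positivity
  have h7 : 2 / (b : ℝ) ^ (k + n + 1) = 1 / (b : ℝ) ^ (k + n + 1) + 1 / (b : ℝ) ^ (k + n + 1) := by ring
  linarith

/-- the integer with the first `k` digits -/
def head (b : ℕ) (X : ℕ → Ω → ℕ) (ω : Ω) : ℕ → ℕ
  | 0 => 0
  | k + 1 => b * head b X ω k + X k ω

lemma head_eq {b : ℕ} (hb : 2 ≤ b) (X : ℕ → Ω → ℕ) (ω : Ω) (k : ℕ) : (head b X ω k : ℝ) = (b : ℝ) ^ k * part b X (range k) ω := by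
  have hb0 : (0 : ℝ) < b := by exact_mod_cast (by omega : 0 < b)
  induction k with
  | zero => simp [head, part]
  | succ k ih =>
    have h1 : head b X ω (k + 1) = b * head b X ω k + X k ω := rfl
    rw [h1]
    unfold part at *
    rw [sum_range_succ]
    push_cast
    rw [ih, mul_add, pow_succ]
    field_simp

lemma floor_num {b : ℕ} (hb : 2 ≤ b) {X : ℕ → Ω → ℕ} (hlt : ∀ j ω, X j ω < b) (ω : Ω) (hne : ∀ J, ∃ j, J ≤ j ∧ X j ω ≠ b - 1) (k : ℕ) :
    ⌊(b : ℝ) ^ k * num b X ω⌋₊ = head b X ω k := by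
  have hb0 : (0 : ℝ) < b := by exact_mod_cast (by omega : 0 < b)
  obtain ⟨h1, -⟩ := num_sub_part hb hlt ω k
  have h2 := tail_lt hb hlt ω hne k
  have h3 := head_eq hb X ω k
  have h0 : 0 ≤ num b X ω := by
    have h4 : 0 ≤ part b X (range k) ω := by
      unfold part
      positivity
    linarith
  rw [Nat.floor_eq_iff (by positivity), h3]
  rw [lt_div_iff₀ (by positivity)] at h2
  have hp : 0 < (b : ℝ) ^ k := by positivity
  constructor
  · nlinarith
  · nlinarith

/-- the digits are not all maximal from some place on, almost surely -/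
lemma ae_not_max {P : Measure Ω} [IsProbabilityMeasure P] {X : ℕ → Ω → ℕ} (hX : ∀ j, Measurable (X j))
    (hI : iIndepFun X P) {η : ℝ} (hη : 0 < η) (hinf : ∀ J, ∃ j, J ≤ j ∧ Two P X η j) (d : ℕ) :
    ∀ᵐ ω ∂P, ∀ J, ∃ j, J ≤ j ∧ X j ω ≠ d := by
  classical
  rw [ae_all_iff]
  intro J
  have hη1 : η ≤ 1 := by
    obtain ⟨j, -, hj⟩ := hinf 0
    exact two_le_one hj
  have key : ∀ n : ℕ, ∃ S : Finset ℕ, S.card = n ∧ ∀ j ∈ S, J ≤ j ∧ Two P X η j := by
    intro n
    induction n with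
    | zero => exact ⟨∅, rfl, fun j hj => absurd hj (notMem_empty j)⟩
    | succ n ih =>
      obtain ⟨S, hS1, hS2⟩ := ih
      obtain ⟨M, hM⟩ := S.bddAbove
      obtain ⟨j, hj1, hj2⟩ := hinf (M + J + 1)
      refine ⟨insert j S, ?_, ?_⟩
      · rw [card_insert_of_notMem, hS1]
        intro h
        have := hM h
        omega
      · intro i hi
        rw [mem_insert] at hi
        rcases hi with rfl | hi
        · exact ⟨by omega, hj2⟩
        · exact hS2 i hi
  have hm : ∀ (j k : ℕ), MeasurableSet {ω | X j ω = k} := fun j k => (hX j) (measurableSet_singleton k)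
  have hone : ∀ j, Two P X η j → P.real {ω | X j ω = d} ≤ 1 - η := by
    intro j hj
    obtain ⟨u, v, huv, h1, h2⟩ := hj
    obtain ⟨w, hw, hwη⟩ : ∃ w, w ≠ d ∧ η ≤ P.real {ω | X j ω = w} := by
      by_cases h : u = d
      · exact ⟨v, fun h3 => huv (h.trans h3.symm), h2⟩
      · exact ⟨u, h, h1⟩
    have h3 : P.real ({ω | X j ω = d} ∪ {ω | X j ω = w}) = P.real {ω | X j ω = d} + P.real {ω | X j ω = w} := by
      apply measureReal_union _ (hm j w)
      rw [Set.disjoint_left]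
      intro ω hω1 hω2
      simp only [Set.mem_ofPred_eq] at hω1 hω2
      exact hw (hω2.symm.trans hω1)
    have h4 : P.real ({ω | X j ω = d} ∪ {ω | X j ω = w}) ≤ 1 := measureReal_le_one
    linarith
  have hbound : ∀ n : ℕ, P.real {ω | ¬ ∃ j, J ≤ j ∧ X j ω ≠ d} ≤ (1 - η) ^ n := by
    intro n
    obtain ⟨S, hS1, hS2⟩ := key n
    have h1 : P (⋂ j ∈ S, X j ⁻¹' {d}) = ∏ j ∈ S, P (X j ⁻¹' {d}) :=
      hI.measure_inter_preimage_eq_mul S (sets := fun _ => {d}) (fun j _ => measurableSet_singleton d)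
    have h2 : P.real (⋂ j ∈ S, X j ⁻¹' {d}) = ∏ j ∈ S, P.real (X j ⁻¹' {d}) := by
      unfold Measure.real
      rw [h1, ENNReal.toReal_prod]
    have h3 : {ω | ¬ ∃ j, J ≤ j ∧ X j ω ≠ d} ⊆ ⋂ j ∈ S, X j ⁻¹' {d} := by
      intro ω hω
      simp only [Set.mem_ofPred_eq] at hω
      push Not at hω
      rw [Set.mem_iInter₂]
      intro j hj
      exact hω j (hS2 j hj).1
    refine (measureReal_mono h3).trans ?_
    rw [h2, ← hS1, ← prod_const]
    apply prod_le_prod (fun _ _ => measureReal_nonneg)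
    intro j hj
    exact hone j (hS2 j hj).2
  have hzero : P.real {ω | ¬ ∃ j, J ≤ j ∧ X j ω ≠ d} = 0 := by
    apply le_antisymm _ measureReal_nonneg
    refine ge_of_tendsto' (tendsto_pow_atTop_nhds_zero_of_lt_one (by linarith) (by linarith : 1 - η < 1)) hbound
  rw [ae_iff]
  exact (measureReal_eq_zero_iff).1 hzero

end Digits

end Pool.Agent.Run7.h672.AE
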