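import Pool.Agent.Run7.h672.AE.F

set_option autoImplicit false

/-!
# The base-6 automaton on configurations with independent random cells: the bridge
-/

namespace Pool.Agent.Run7.h672.AE
open Finset MeasureTheory ProbabilityTheory Filter Topology
open Pool.Agent.H807R2.Dav (ee)
open Pool.Agent.Run7.h672.EX (cnt)
open Pool.Agent.H429R2.Auto (Conf F Rep rep_iter letter digits_sum sum_lt eq_of_digits orbit)

variable {Ω : Type*} {m0 : MeasurableSpace Ω}

/-- two values of the cell `i` have probabilities of at least `η` -/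
def RandomCell (P : Measure Ω) (C : ℤ → Ω → Fin 6) (η : ℝ) (i : ℤ) : Prop :=
  ∃ u v : Fin 6, u ≠ v ∧ η ≤ P.real {ω | C i ω = u} ∧ η ≤ P.real {ω | C i ω = v}

/-- the digits -/
def dig (C : ℤ → Ω → Fin 6) (m : ℕ) (j : ℕ) (ω : Ω) : ℕ := (C ((j : ℤ) - m) ω : ℕ)

lemma dig_lt (C : ℤ → Ω → Fin 6) (m j : ℕ) (ω : Ω) : dig C m j ω < 6 := (C ((j : ℤ) - m) ω).isLt

lemma dig_meas {C : ℤ → Ω → Fin 6} (hC : ∀ i, Measurable (C i)) (m j : ℕ) : Measurable (dig C m j) :=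
  (measurable_from_top (f := fun a : Fin 6 => (a : ℕ))).comp (hC _)

lemma dig_indep {P : Measure Ω} {C : ℤ → Ω → Fin 6} (hI : iIndepFun C P) (m : ℕ) : iIndepFun (dig C m) P := by
  have h1 : iIndepFun (fun j : ℕ => C ((j : ℤ) - m)) P := hI.precomp (g := fun j : ℕ => (j : ℤ) - m) (fun i j hij => by
    simpa using hij)
  exact h1.comp (fun _ (a : Fin 6) => (a : ℕ)) (fun _ => measurable_from_top)

lemma two_of_cell {P : Measure Ω} {C : ℤ → Ω → Fin 6} {η : ℝ} {m j : ℕ} (h : RandomCell P C η ((j : ℤ) - m)) :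
    Two P (dig C m) η j := by
  obtain ⟨u, v, huv, h1, h2⟩ := h
  have e : ∀ w : Fin 6, {ω | dig C m j ω = (w : ℕ)} = {ω | C ((j : ℤ) - m) ω = w} := by
    intro w
    ext ω
    simp only [Set.mem_ofPred_eq, dig]
    exact Fin.val_inj
  exact ⟨u, v, fun h => huv (Fin.ext h), by rw [e]; exact h1, by rw [e]; exact h2⟩

/-- the real number of the configuration -/
noncomputable def val (C : ℤ → Ω → Fin 6) (m : ℕ) (ω : Ω) : ℝ := 6 ^ (m + 1) * num 6 (dig C m) ω

lemma num_nonneg {b : ℕ} (X : ℕ → Ω → ℕ) (ω : Ω) : 0 ≤ num b X ω := tsum_nonneg fun j => by positivity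

lemma val_nonneg (C : ℤ → Ω → Fin 6) (m : ℕ) (ω : Ω) : 0 ≤ val C m ω := mul_nonneg (by positivity) (num_nonneg _ _)

lemma rep_val {C : ℤ → Ω → Fin 6} {m : ℕ} {ω : Ω} (hleft : ∀ i : ℤ, i < -(m : ℤ) → C i ω = 0)
    (hne : ∀ J, ∃ j, J ≤ j ∧ dig C m j ω ≠ 6 - 1) : Rep (fun i => C i ω) (val C m ω) := by
  intro i
  show ((C i ω : Fin 6) : ℕ) = ⌊(6 : ℝ) ^ i * val C m ω⌋₊ % 6
  rcases lt_or_ge i (-(m : ℤ)) with h | h
  · rw [hleft i h]
    have h1 : num 6 (dig C m) ω < 1 := by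
      have := tail_lt (b := 6) (by norm_num) (dig_lt C m) ω hne 0
      simpa [part] using this
    have h0 := num_nonneg (b := 6) (dig C m) ω
    obtain ⟨k, hk⟩ : ∃ k : ℕ, i + (m + 1 : ℕ) = -(k : ℤ) := ⟨(-(i + (m + 1 : ℕ))).toNat, by push_cast; omega⟩
    have h2 : (6 : ℝ) ^ i * val C m ω = num 6 (dig C m) ω / 6 ^ k := by
      unfold val
      rw [← mul_assoc, ← zpow_natCast (6 : ℝ) (m + 1), ← zpow_add₀ (by norm_num), hk, zpow_neg, zpow_natCast]
      field_simp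
    have h3 : ⌊(6 : ℝ) ^ i * val C m ω⌋₊ = 0 := by
      rw [h2, Nat.floor_eq_zero, div_lt_one (by positivity)]
      refine lt_of_lt_of_le h1 (one_le_pow₀ (by norm_num))
    rw [h3]
    rfl
  · obtain ⟨j, hj⟩ : ∃ j : ℕ, i + m = (j : ℤ) := ⟨(i + m).toNat, by omega⟩
    have h2 : (6 : ℝ) ^ i * val C m ω = ((6 : ℕ) : ℝ) ^ (j + 1) * num 6 (dig C m) ω := by
      unfold val
      rw [← mul_assoc, ← zpow_natCast (6 : ℝ) (m + 1), ← zpow_add₀ (by norm_num)]
      have e1 : i + ((m + 1 : ℕ) : ℤ) = ((j + 1 : ℕ) : ℤ) := by push_cast; omega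
      rw [e1, zpow_natCast]
      norm_num
    rw [h2, floor_num (by norm_num) (dig_lt C m) ω hne]
    have h3 : head 6 (dig C m) ω (j + 1) = 6 * head 6 (dig C m) ω j + dig C m j ω := rfl
    have h4 := dig_lt C m j ω
    rw [h3]
    have h5 : (6 * head 6 (dig C m) ω j + dig C m j ω) % 6 = dig C m j ω := by omega
    rw [h5]
    unfold dig
    congr 3
    omega

/-- the number coding the word -/
def code {L : ℕ} (w : Fin L → Fin 6) : ℕ := ∑ r ∈ range L, ((if h : L - 1 - r < L then w ⟨L - 1 - r, h⟩ else 0 : Fin 6) : ℕ) * 6 ^ r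

lemma code_lt {L : ℕ} (w : Fin L → Fin 6) : code w < 6 ^ L := sum_lt L _

/-- a word stands at a position if and only if a fractional part lies in an interval -/
lemma shows_iff {x : Conf} {β : ℝ} (hβ : 0 ≤ β) (hx : Rep x β) {L : ℕ} (w : Fin L → Fin 6) (j : ℤ) :
    (∀ r : Fin L, x (j + (r : ℕ)) = w r) ↔
      ((code w : ℝ) / 6 ^ L ≤ Int.fract ((6 : ℝ) ^ (j - 1) * β) ∧ Int.fract ((6 : ℝ) ^ (j - 1) * β) < ((code w : ℝ) + 1) / 6 ^ L) := by
  obtain ⟨V, hV⟩ : ∃ V, V = (6 : ℝ) ^ (j - 1) * β := ⟨_, rfl⟩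
  have hV0 : 0 ≤ V := by rw [hV]; positivity
  have hVL : (6 : ℝ) ^ (j + L - 1) * β = 6 ^ L * V := by
    rw [hV, show j + L - 1 = (j - 1) + (L : ℤ) by ring, zpow_add₀ (by norm_num), zpow_natCast]
    ring
  -- the window as a residue
  have h1 : (∀ r : Fin L, x (j + (r : ℕ)) = w r) ↔ ⌊(6 : ℝ) ^ L * V⌋₊ % 6 ^ L = code w := by
    have hlet : ∀ r, r < L → ((x (j + L - 1 - r) : Fin 6) : ℕ) = (⌊(6 : ℝ) ^ L * V⌋₊ % 6 ^ L) / 6 ^ r % 6 := by
      intro r hr
      have := letter hx j L r hr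
      rw [hVL] at this
      exact this
    have hcode : ∀ r, (hr : r < L) → code w / 6 ^ r % 6 = ((w ⟨L - 1 - r, by omega⟩ : Fin 6) : ℕ) := by
      intro r hr
      have := digits_sum L (fun r => (if h : L - 1 - r < L then w ⟨L - 1 - r, h⟩ else 0 : Fin 6)) r hr
      unfold code
      rw [this, dif_pos (by omega)]
    constructor
    · intro h
      apply eq_of_digits L _ _ (Nat.mod_lt _ (by positivity)) (code_lt w)
      intro r hr
      rw [← hlet r hr, hcode r hr]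
      have h2 := h ⟨L - 1 - r, by omega⟩
      rw [← h2]
      congr 2
      have : ((L - 1 - r : ℕ) : ℤ) = (L : ℤ) - 1 - r := by omega
      simp only [this]
      ring
    · intro h r
      have hr := r.isLt
      have h2 := hlet (L - 1 - r) (by omega)
      rw [h, hcode (L - 1 - r) (by omega)] at h2
      have e1 : j + (L : ℤ) - 1 - ((L - 1 - (r : ℕ) : ℕ) : ℤ) = j + (r : ℕ) := by omega
      rw [e1] at h2
      have e2 : (⟨L - 1 - (L - 1 - (r : ℕ)), by omega⟩ : Fin L) = r := by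
        apply Fin.ext
        show L - 1 - (L - 1 - (r : ℕ)) = r
        omega
      rw [e2] at h2
      exact Fin.ext h2
  rw [h1, ← hV]
  -- the residue and the fractional part
  have hp : (0 : ℝ) < 6 ^ L := by positivity
  obtain ⟨z, f, hz, hf0, hf1⟩ : ∃ (z : ℕ) (f : ℝ), V = z + f ∧ 0 ≤ f ∧ f < 1 := ⟨⌊V⌋₊, V - ⌊V⌋₊, by ring, by linarith [Nat.floor_le hV0], by linarith [Nat.lt_floor_add_one V]⟩
  have hfr : Int.fract V = f := by
    rw [hz, Int.fract_natCast_add]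
    exact Int.fract_eq_self.2 ⟨hf0, hf1⟩
  have hfl : ⌊(6 : ℝ) ^ L * V⌋₊ = 6 ^ L * z + ⌊(6 : ℝ) ^ L * f⌋₊ := by
    rw [hz, mul_add, add_comm, show (6 : ℝ) ^ L * (z : ℝ) = ((6 ^ L * z : ℕ) : ℝ) by push_cast; ring, Nat.floor_add_natCast (by positivity), add_comm]
  have hlt : ⌊(6 : ℝ) ^ L * f⌋₊ < 6 ^ L := by
    rw [Nat.floor_lt (by positivity)]
    push_cast
    nlinarith
  have hmod : ⌊(6 : ℝ) ^ L * V⌋₊ % 6 ^ L = ⌊(6 : ℝ) ^ L * f⌋₊ := by
    rw [hfl, Nat.mul_add_mod, Nat.mod_eq_of_lt hlt]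
  rw [hmod, hfr, Nat.floor_eq_iff (by positivity), div_le_iff₀ hp, lt_div_iff₀ hp, mul_comm f]

/-- the frequencies `3 / 2` and `6` are independent -/
lemma irr_three_half : Irrational (Real.logb ((6 : ℕ) : ℝ) (3 / 2)) := by
  rintro ⟨r, hr⟩
  have h6 : ((6 : ℕ) : ℝ) = 6 := by norm_num
  rw [h6] at hr
  have h1 : (6 : ℝ) ^ (r : ℝ) = 3 / 2 := by
    rw [hr]
    exact Real.rpow_logb (by norm_num) (by norm_num) (by norm_num)
  have h2 : (3 / 2 : ℝ) ^ r.den = (6 : ℝ) ^ (r.num : ℤ) := by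
    rw [← h1, ← Real.rpow_natCast, ← Real.rpow_mul (by norm_num), ← Real.rpow_intCast]
    congr 1
    have h3 : (r : ℝ) = r.num / r.den := by exact_mod_cast (Rat.num_div_den r).symm
    rw [h3]
    have : (r.den : ℝ) ≠ 0 := by exact_mod_cast r.den_nz
    field_simp
  have hpos : 0 < r.num := by
    by_contra hcon
    have h3 : (6 : ℝ) ^ (r.num : ℤ) ≤ 1 := zpow_le_one_of_nonpos₀ (by norm_num) (not_lt.1 hcon)
    have h4 : (1 : ℝ) < (3 / 2 : ℝ) ^ r.den := one_lt_pow₀ (by norm_num) r.den_nz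
    linarith
  obtain ⟨p, hp⟩ : ∃ p : ℕ, r.num = (p : ℤ) := ⟨r.num.toNat, by omega⟩
  rw [hp, zpow_natCast, div_pow, div_eq_iff (by positivity)] at h2
  have h3 : 3 ^ r.den = 6 ^ p * 2 ^ r.den := by exact_mod_cast h2
  have h4 : 2 ∣ 3 ^ r.den := by
    rw [h3]
    exact Dvd.dvd.mul_left (dvd_pow_self 2 r.den_nz) _
  have h5 := Nat.Prime.dvd_of_dvd_pow Nat.prime_two h4
  omega

/-- locality of the automaton -/
lemma iter_congr (n : ℕ) : ∀ (x y : Conf) (a : ℤ), (∀ i, i ≤ a → x i = y i) → ∀ i, i ≤ a - n → F^[n] x i = F^[n] y i := by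
  induction n with
  | zero =>
    intro x y a h i hi
    exact h i (by simpa using hi)
  | succ n ih =>
    intro x y a h i hi
    rw [Function.iterate_succ_apply, Function.iterate_succ_apply]
    apply ih (F x) (F y) (a - 1)
    · intro i hi
      show Pool.Agent.H429R2.Auto.f (Pool.Agent.H429R2.Auto.f (x (i - 1)) (x (i + 1 - 1))) (Pool.Agent.H429R2.Auto.f (x (i + 1 - 1)) (x (i + 1 + 1 - 1))) =
        Pool.Agent.H429R2.Auto.f (Pool.Agent.H429R2.Auto.f (y (i - 1)) (y (i + 1 - 1))) (Pool.Agent.H429R2.Auto.f (y (i + 1 - 1)) (y (i + 1 + 1 - 1)))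
      rw [h (i - 1) (by omega), h (i + 1 - 1) (by omega), h (i + 1 + 1 - 1) (by omega)]
    · push_cast at hi
      omega

end Pool.Agent.Run7.h672.AE
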