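import Pool.Agent.Run7.h672.AE.F2

set_option autoImplicit false

/-!
# The base-6 automaton on configurations with independent random cells: the theorems
-/

namespace Pool.Agent.Run7.h672.AE
open Finset MeasureTheory ProbabilityTheory Filter Topology
open Pool.Agent.H807R2.Dav (ee)
open Pool.Agent.Run7.h672.EX (cnt)
open Pool.Agent.H429R2.Auto (Conf F Rep rep_iter letter digits_sum sum_lt eq_of_digits orbit)

variable {Ω : Type*} {m0 : MeasurableSpace Ω}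

lemma inf_of_dens {E : ℕ → Prop} [DecidablePred fun j => ¬ E j]
    (hE : ∀ ε : ℝ, 0 < ε → ∀ᶠ M : ℕ in atTop, (((range M).filter (fun j => ¬ E j)).card : ℝ) ≤ ε * M) (J : ℕ) : ∃ j, J ≤ j ∧ E j := by
  by_contra hcon
  push Not at hcon
  obtain ⟨M, hM, hM1⟩ := ((hE (1 / 4) (by norm_num)).and (eventually_ge_atTop (2 * J + 1))).exists
  have h1 : Ico J M ⊆ (range M).filter (fun j => ¬ E j) := by
    intro j hj
    rw [mem_Ico] at hj
    rw [mem_filter, mem_range]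
    exact ⟨hj.2, hcon j hj.1⟩
  have h2 := card_le_card h1
  rw [Nat.card_Ico] at h2
  have h3 : ((M - J : ℕ) : ℝ) ≤ 1 / 4 * M := le_trans (by exact_mod_cast h2) hM
  rw [Nat.cast_sub (by omega)] at h3
  have h4 : (2 * (J : ℝ) + 1) ≤ M := by exact_mod_cast hM1
  linarith

/-- the exponential sums of the columns -/
lemma columns {P : Measure Ω} [IsProbabilityMeasure P] {C : ℤ → Ω → Fin 6} (hC : ∀ i, Measurable (C i)) (hI : iIndepFun C P) {η : ℝ}
    (hη : 0 < η) (m : ℕ) [DecidablePred fun j => ¬ Two P (dig C m) η j]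
    (hE : ∀ ε : ℝ, 0 < ε → ∀ᶠ M : ℕ in atTop, (((range M).filter (fun j => ¬ Two P (dig C m) η j)).card : ℝ) ≤ ε * M) :
    ∀ᵐ ω ∂P, ∀ (j : ℤ) (h : ℕ), 1 ≤ h → ∀ ε : ℝ, 0 < ε → ∀ᶠ N : ℕ in atTop,
      ‖∑ n ∈ Icc 1 N, ee (h * ((6 : ℝ) ^ (j - 1) * ((3 / 2) ^ n * val C m ω)))‖ ≤ ε * N := by
  rw [ae_all_iff]
  intro j
  rw [ae_all_iff]
  intro h
  by_cases hh : 1 ≤ h
  · have hh0 : (0 : ℝ) < h := by exact_mod_cast hh
    obtain ⟨c, hc⟩ : ∃ c : ℝ, c = h * ((6 : ℝ) ^ (j - 1) * 6 ^ (m + 1)) := ⟨_, rfl⟩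
    have hc0 : c ≠ 0 := by rw [hc]; positivity
    have h1 := main (b := 6) (by norm_num) (dig_meas hC m) (dig_indep hI m) (dig_lt C m) hη hE (β := 3 / 2) (c := c) (by norm_num)
      irr_three_half hc0 (fun n => c * (3 / 2) ^ n) (by
        have e1 : (fun n : ℕ => c * (3 / 2 : ℝ) ^ n / (3 / 2) ^ n) = fun _ => c := by
          funext n
          have : (0 : ℝ) < (3 / 2) ^ n := by positivity
          field_simp
        rw [e1]
        exact tendsto_const_nhds) (fun _ => 1) (fun _ => by simp)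
    filter_upwards [h1] with ω hω _ ε hε
    filter_upwards [hω ε hε] with N hN
    refine le_trans (le_of_eq ?_) hN
    congr 1
    apply sum_congr rfl
    intro n _
    rw [one_mul]
    congr 1
    unfold val
    rw [hc]
    ring
  · exact ae_of_all _ fun ω h1 => absurd h1 hh

/-- the expansion of the configuration, almost surely -/
lemma ae_rep {P : Measure Ω} [IsProbabilityMeasure P] {C : ℤ → Ω → Fin 6} (hC : ∀ i, Measurable (C i)) (hI : iIndepFun C P) {η : ℝ}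
    (hη : 0 < η) (m : ℕ) (hleft : ∀ i : ℤ, i < -(m : ℤ) → ∀ ω, C i ω = 0) (hinf : ∀ J, ∃ j, J ≤ j ∧ Two P (dig C m) η j) :
    ∀ᵐ ω ∂P, Rep (fun i => C i ω) (val C m ω) := by
  filter_upwards [ae_not_max (dig_meas hC m) (dig_indep hI m) hη hinf (6 - 1)] with ω hω
  exact rep_val (fun i hi => hleft i hi ω) hω

open Classical in
/-- **frequencies of words in the columns** -/
theorem freq {P : Measure Ω} [IsProbabilityMeasure P] {C : ℤ → Ω → Fin 6} (hC : ∀ i, Measurable (C i)) (hI : iIndepFun C P) {η : ℝ}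
    (hη : 0 < η) (m : ℕ) (hleft : ∀ i : ℤ, i < -(m : ℤ) → ∀ ω, C i ω = 0)
    (hE : ∀ ε : ℝ, 0 < ε → ∀ᶠ M : ℕ in atTop, (((range M).filter (fun j => ¬ Two P (dig C m) η j)).card : ℝ) ≤ ε * M) :
    ∀ᵐ ω ∂P, ∀ (L : ℕ) (w : Fin L → Fin 6) (j : ℤ), Tendsto (fun N : ℕ =>
      (((Icc 1 N).filter (fun n => ∀ r : Fin L, F^[n] (fun i => C i ω) (j + (r : ℕ)) = w r)).card : ℝ) / N) atTop (𝓝 (1 / 6 ^ L)) := by
  filter_upwards [columns hC hI hη m hE, ae_rep hC hI hη m hleft (inf_of_dens hE)] with ω h1 h2 L w j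
  have h3 := disc_of (x := fun n : ℕ => (6 : ℝ) ^ (j - 1) * ((3 / 2) ^ n * val C m ω)) (h1 j)
  have hp : (0 : ℝ) < 6 ^ L := by positivity
  have hcl : ((code w : ℝ) + 1) ≤ 6 ^ L := by
    have := code_lt w
    exact_mod_cast this
  rw [Metric.tendsto_atTop]
  intro ε hε
  obtain ⟨N₀, hN₀⟩ := eventually_atTop.1 (h3 (ε / 2) (by positivity))
  refine ⟨N₀ + 1, fun N hN => ?_⟩
  have hN0 : (0 : ℝ) < N := by exact_mod_cast (by omega : 0 < N)
  have h4 := hN₀ N (by omega) ((code w : ℝ) / 6 ^ L) (((code w : ℝ) + 1) / 6 ^ L) (by positivity)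
    (by rw [div_lt_div_iff_of_pos_right hp]; linarith) (by rw [div_le_one hp]; exact hcl)
  have h5 : ((code w : ℝ) + 1) / 6 ^ L - (code w : ℝ) / 6 ^ L = 1 / 6 ^ L := by ring
  rw [h5] at h4
  have h6 : cnt (fun n : ℕ => (6 : ℝ) ^ (j - 1) * ((3 / 2) ^ n * val C m ω)) N ((code w : ℝ) / 6 ^ L) (((code w : ℝ) + 1) / 6 ^ L) =
      ((Icc 1 N).filter (fun n => ∀ r : Fin L, F^[n] (fun i => C i ω) (j + (r : ℕ)) = w r)).card := by
    unfold cnt
    congr 1
    apply filter_congr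
    intro n _
    exact (shows_iff (mul_nonneg (by positivity) (val_nonneg C m ω)) (rep_iter (val_nonneg C m ω) h2 n) w j).symm
  rw [h6] at h4
  rw [Real.dist_eq]
  have e1 : (((Icc 1 N).filter (fun n => ∀ r : Fin L, F^[n] (fun i => C i ω) (j + (r : ℕ)) = w r)).card : ℝ) / N - 1 / 6 ^ L =
      ((((Icc 1 N).filter (fun n => ∀ r : Fin L, F^[n] (fun i => C i ω) (j + (r : ℕ)) = w r)).card : ℝ) - 1 / 6 ^ L * N) / N := by
    field_simp
  rw [e1, abs_div, abs_of_pos hN0, div_lt_iff₀ hN0]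
  nlinarith

/-- the cells to the right of `M` are put to zero -/
def trunc (M : ℕ) (x : Conf) : Conf := fun i => if i ≤ M then x i else 0

/-- **dense orbits for sparse random cells** -/
theorem dense_orbit {P : Measure Ω} [IsProbabilityMeasure P] {C : ℤ → Ω → Fin 6} (hC : ∀ i, Measurable (C i)) (hI : iIndepFun C P) {η : ℝ}
    (hη : 0 < η) (m : ℕ) (hleft : ∀ i : ℤ, i < -(m : ℤ) → ∀ ω, C i ω = 0)
    (hrun : ∀ L : ℕ, ∃ a, ∀ j, a ≤ j → j < a + L → Two P (dig C m) η j) :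
    ∀ᵐ ω ∂P, ∀ (L : ℕ) (w : Fin L → Fin 6) (j : ℤ), {n : ℕ | ∀ r : Fin L, F^[n] (fun i => C i ω) (j + (r : ℕ)) = w r}.Infinite := by
  have h1 : ∀ᵐ ω ∂P, ∀ j : ℤ, ∀ s t : ℝ, 0 ≤ s → s < t → t ≤ 1 →
      {n : ℕ | s ≤ Int.fract ((6 : ℝ) ^ (j - 1) * ((3 / 2) ^ n * val C m ω)) ∧
        Int.fract ((6 : ℝ) ^ (j - 1) * ((3 / 2) ^ n * val C m ω)) < t}.Infinite := by
    rw [ae_all_iff]
    intro j
    obtain ⟨c, hc⟩ : ∃ c : ℝ, c = (6 : ℝ) ^ (j - 1) * 6 ^ (m + 1) := ⟨_, rfl⟩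
    have hc0 : c ≠ 0 := by rw [hc]; positivity
    have h1 := dense (b := 6) (by norm_num) (dig_meas hC m) (dig_indep hI m) (dig_lt C m) hη hrun (β := 3 / 2) (c := c) (by norm_num)
      irr_three_half hc0 (fun n => c * (3 / 2) ^ n) (by
        have e1 : (fun n : ℕ => c * (3 / 2 : ℝ) ^ n / (3 / 2) ^ n) = fun _ => c := by
          funext n
          have : (0 : ℝ) < (3 / 2) ^ n := by positivity
          field_simp
        rw [e1]
        exact tendsto_const_nhds) (fun _ => 0)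
    filter_upwards [h1] with ω hω s t hs hst ht
    refine (hω s t hs hst ht).mono fun n hn => ?_
    have e1 : (6 : ℝ) ^ (j - 1) * ((3 / 2) ^ n * val C m ω) = c * (3 / 2) ^ n * num 6 (dig C m) ω + 0 := by
      unfold val
      rw [hc]
      ring
    rw [Set.mem_ofPred_eq, e1]
    exact hn
  have hinf : ∀ J, ∃ j, J ≤ j ∧ Two P (dig C m) η j := by
    intro J
    obtain ⟨a, ha⟩ := hrun (J + 1)
    exact ⟨a + J, by omega, ha (a + J) (by omega) (by omega)⟩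
  filter_upwards [h1, ae_rep hC hI hη m hleft hinf] with ω h2 h3 L w j
  have hp : (0 : ℝ) < 6 ^ L := by positivity
  have hcl : ((code w : ℝ) + 1) ≤ 6 ^ L := by
    have := code_lt w
    exact_mod_cast this
  refine (h2 j ((code w : ℝ) / 6 ^ L) (((code w : ℝ) + 1) / 6 ^ L) (by positivity)
    (by rw [div_lt_div_iff_of_pos_right hp]; linarith) (by rw [div_le_one hp]; exact hcl)).mono fun n hn => ?_
  exact (shows_iff (mul_nonneg (by positivity) (val_nonneg C m ω)) (rep_iter (val_nonneg C m ω) h3 n) w j).2 hn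

/-- the truncated configurations -/
theorem truncated {P : Measure Ω} [IsProbabilityMeasure P] {C : ℤ → Ω → Fin 6} (L J : ℕ)
    (h : ∀ᵐ ω ∂P, ∀ (w : Fin L → Fin 6) (j : ℤ), ∃ n : ℕ, ∀ r : Fin L, F^[n] (fun i => C i ω) (j + (r : ℕ)) = w r) :
    Tendsto (fun M : ℕ => P {ω | ∀ j : ℤ, |j| ≤ J → ∀ w : Fin L → Fin 6, ∃ n : ℕ, ∀ r : Fin L,
      F^[n] (trunc M (fun i => C i ω)) (j + (r : ℕ)) = w r}) atTop (𝓝 1) := by
  classical
  obtain ⟨E, hE⟩ : ∃ E : ℕ → Set Ω, E = fun (M : ℕ) => {ω | ∀ j : ℤ, |j| ≤ J → ∀ w : Fin L → Fin 6, ∃ n : ℕ, j + L + n ≤ M ∧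
      ∀ r : Fin L, F^[n] (fun i => C i ω) (j + (r : ℕ)) = w r} := ⟨_, rfl⟩
  have hmono : Monotone E := by
    intro M M' hM
    rw [hE]
    intro ω hω j hj w
    obtain ⟨n, hn1, hn2⟩ := hω j hj w
    refine ⟨n, ?_, hn2⟩
    have : (M : ℤ) ≤ M' := by exact_mod_cast hM
    linarith
  have hunion : P (⋃ M, E M) = 1 := by
    have h1 : (⋃ M, E M) =ᵐ[P] Set.univ := by
      rw [eventuallyEq_univ]
      filter_upwards [h] with ω hω
      choose f hf using hω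
      rw [Set.mem_iUnion]
      refine ⟨J + L + ∑ j ∈ Icc (-(J : ℤ)) J, ∑ w : Fin L → Fin 6, f w j, ?_⟩
      rw [hE]
      intro j hj w
      refine ⟨f w j, ?_, hf w j⟩
      have h2 : f w j ≤ ∑ w : Fin L → Fin 6, f w j := single_le_sum (f := fun w => f w j) (fun _ _ => Nat.zero_le _) (mem_univ w)
      have h3 : ∑ w : Fin L → Fin 6, f w j ≤ ∑ j ∈ Icc (-(J : ℤ)) J, ∑ w : Fin L → Fin 6, f w j :=
        single_le_sum (f := fun j => ∑ w : Fin L → Fin 6, f w j) (fun _ _ => Nat.zero_le _) (mem_Icc.2 (abs_le.1 hj))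
      have h4 : (f w j : ℤ) ≤ ((∑ j ∈ Icc (-(J : ℤ)) J, ∑ w : Fin L → Fin 6, f w j : ℕ) : ℤ) := by exact_mod_cast h2.trans h3
      have h5 := (abs_le.1 hj).2
      rw [Nat.cast_add, Nat.cast_add]
      linarith
    rw [measure_congr h1, measure_univ]
  have hlim := tendsto_measure_iUnion_atTop (μ := P) hmono
  rw [hunion] at hlim
  refine tendsto_of_tendsto_of_tendsto_of_le_of_le hlim tendsto_const_nhds (fun M => ?_) (fun M => prob_le_one)
  apply measure_mono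
  intro ω hω j hj w
  rw [hE] at hω
  obtain ⟨n, hn1, hn2⟩ := hω j hj w
  refine ⟨n, fun r => ?_⟩
  rw [← hn2 r]
  apply iter_congr n _ _ (M : ℤ)
  · intro i hi
    unfold trunc
    rw [if_pos hi]
  · have := r.isLt
    have h6 : ((r : ℕ) : ℤ) < L := by exact_mod_cast this
    linarith

/-- the density of the orbit -/
lemma dense_of {x : Conf} {β : ℝ} (hβ : 0 ≤ β) (hx : Rep x β)
    (h : ∀ (L : ℕ) (w : Fin L → Fin 6) (j : ℤ), ∃ n : ℕ, ∀ r : Fin L, F^[n] x (j + (r : ℕ)) = w r) : Dense (orbit x) := by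
  rw [Pool.Agent.H429R2.Mult.dense_iff hβ hx]
  intro M u hu
  obtain ⟨w, hw⟩ : ∃ w : Fin (2 * M + 1) → Fin 6, w = fun r => ⟨u / 6 ^ (2 * M - (r : ℕ)) % 6, Nat.mod_lt _ (by norm_num)⟩ := ⟨_, rfl⟩
  obtain ⟨n, hn⟩ := h (2 * M + 1) w (-(M : ℤ))
  refine ⟨n, ?_⟩
  unfold Pool.Agent.H429R2.Gap.val
  apply eq_of_digits (2 * M + 1) _ _ (Nat.mod_lt _ (by positivity)) hu
  intro r hr
  have h1 := letter (rep_iter hβ hx n) (-(M : ℤ)) (2 * M + 1) r hr
  have e1 : -(M : ℤ) + ((2 * M + 1 : ℕ) : ℤ) - 1 = M := by push_cast; ring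
  rw [e1, zpow_natCast] at h1
  rw [← h1]
  have h2 := hn ⟨2 * M - r, by omega⟩
  have e2 : (M : ℤ) - r = -(M : ℤ) + ((2 * M - r : ℕ) : ℤ) := by omega
  rw [e2, h2, hw]
  show u / 6 ^ (2 * M - (2 * M - r)) % 6 = u / 6 ^ r % 6
  rw [Nat.sub_sub_self (by omega)]

end Pool.Agent.Run7.h672.AE
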