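import Pool.Agent.Run7.h672.AE.L
import Pool.Agent.R485.TransS.Box
import Pool.Agent.H340R2.LW

set_option autoImplicit false

/-!
# Numbers with independent random digits: joint equidistribution
-/

namespace Pool.Agent.Run7.h672.AE
open Finset MeasureTheory ProbabilityTheory Filter Topology
open Pool.Agent.H807R2.Dav (ee)
open Pool.Agent.Run7.h672.EX (cnt equi_of grid)

variable {Ω : Type*} {m0 : MeasurableSpace Ω}

open Classical in
/-- The sequence of the vectors `x n`, `n ≥ 1`, is equidistributed modulo one in the `d`-dimensional cube. -/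
def Joint {d : ℕ} (x : ℕ → Fin d → ℝ) : Prop :=
  ∀ u v : Fin d → ℝ, (∀ i, 0 ≤ u i ∧ u i ≤ v i ∧ v i ≤ 1) →
    Tendsto (fun N : ℕ => (((Icc 1 N).filter (fun n => ∀ i, u i ≤ Int.fract (x n i) ∧ Int.fract (x n i) < v i)).card : ℝ) / N)
      atTop (𝓝 (∏ i, (v i - u i)))

lemma e_ee (t : ℝ) : Pool.Agent.Y933.KD.e t = ee t := by
  rw [Pool.Agent.H807R2.Dav.ee_eq]
  rfl

lemma joint_of {d : ℕ} {x : ℕ → Fin d → ℝ}
    (hx : ∀ h : Fin d → ℤ, h ≠ 0 → ∀ ε : ℝ, 0 < ε → ∀ᶠ N : ℕ in atTop, ‖∑ n ∈ Icc 1 N, ee (∑ i, h i * x n i)‖ ≤ ε * N) : Joint x := by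
  classical
  intro u v huv
  rw [Metric.tendsto_atTop]
  intro ε hε
  obtain ⟨K, hK⟩ := exists_nat_gt (36 * (d + 1) / ε)
  have hK0 : (0 : ℝ) < K := lt_of_le_of_lt (by positivity) hK
  have hK1 : 0 < K := by exact_mod_cast hK0
  obtain ⟨Δ, hΔ⟩ : ∃ Δ : ℝ, Δ = ε / (3 * ((2 * (K : ℝ) ^ 3 + 1) ^ d + 5 * d + 1)) := ⟨_, rfl⟩
  have hΔ0 : 0 < Δ := by rw [hΔ]; positivity
  have h1 : ∀ᶠ N : ℕ in atTop, ∀ h ∈ (Fintype.piFinset (fun _ : Fin d => Icc (-((K : ℤ) ^ 3)) ((K : ℤ) ^ 3))),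
      h ≠ 0 → ‖∑ n ∈ Icc 1 N, ee (∑ i, h i * x n i)‖ ≤ Δ * N := by
    rw [eventually_all_finset]
    intro h _
    by_cases h0 : h = 0
    · exact Eventually.of_forall fun N hne => absurd h0 hne
    · filter_upwards [hx h h0 Δ hΔ0] with N hN _
      exact hN
  obtain ⟨N₀, hN₀⟩ := eventually_atTop.1 h1
  refine ⟨N₀ + 1, fun N hN => ?_⟩
  have hN1 : 1 ≤ N := by omega
  have hN0 : (0 : ℝ) < N := by exact_mod_cast hN1
  have hcard : ((Icc 1 N).card : ℝ) = N := by rw [Nat.card_Icc, Nat.add_sub_cancel]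
  have h2 := Pool.Agent.R485.TransS.weyl_box hK1 (Icc 1 N) ⟨1, by simp [hN1]⟩ x Δ hΔ0.le (fun h hh hb => by
    rw [hcard]
    simp_rw [e_ee]
    apply hN₀ N (by omega) h _ hh
    rw [Fintype.mem_piFinset]
    intro i
    rw [mem_Icc]
    exact abs_le.1 (hb i)) u v (fun i => (huv i).1) (fun i => (huv i).2.1) (fun i => (huv i).2.2)
  rw [hcard] at h2
  rw [Real.dist_eq]
  have e1 : (((Icc 1 N).filter (fun n => ∀ i, u i ≤ Int.fract (x n i) ∧ Int.fract (x n i) < v i)).card : ℝ) / N - ∏ i, (v i - u i) =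
      ((((Icc 1 N).filter (fun n => ∀ i, u i ≤ Int.fract (x n i) ∧ Int.fract (x n i) < v i)).card : ℝ) - N * ∏ i, (v i - u i)) / N := by
    field_simp
  rw [e1, abs_div, abs_of_pos hN0, div_lt_iff₀ hN0]
  refine lt_of_le_of_lt h2 ?_
  apply mul_lt_mul_of_pos_right _ hN0
  have h3 : ((2 * (K : ℝ) ^ 3 + 1) ^ d + 5 * d) * Δ ≤ ε / 3 := by
    rw [hΔ, mul_div_assoc', div_le_div_iff₀ (by positivity) (by norm_num)]
    nlinarith
  have h4 : (d : ℝ) * (12 / K) ≤ ε / 3 := by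
    rw [div_lt_iff₀ hε] at hK
    rw [mul_div_assoc', div_le_div_iff₀ hK0 (by norm_num)]
    nlinarith
  nlinarith

/-- **joint equidistribution** -/
theorem joint {P : Measure Ω} [IsProbabilityMeasure P] {b : ℕ} (hb : 2 ≤ b) {X : ℕ → Ω → ℕ} (hX : ∀ j, Measurable (X j))
    (hI : iIndepFun X P) (hlt : ∀ j ω, X j ω < b) {η : ℝ} (hη : 0 < η) [DecidablePred fun j => ¬ Two P X η j]
    (hE : ∀ ε : ℝ, 0 < ε → ∀ᶠ M : ℕ in atTop, (((range M).filter (fun j => ¬ Two P X η j)).card : ℝ) ≤ ε * M)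
    {d : ℕ} (β c : Fin d → ℝ) (hβ : ∀ i, 1 < β i) (hinj : Function.Injective β) (hirr : ∀ i, Irrational (Real.logb b (β i)))
    (hc : ∀ i, c i ≠ 0) (x : ℕ → Fin d → ℝ) (hx : ∀ i, Tendsto (fun n : ℕ => x n i / β i ^ n) atTop (𝓝 (c i))) (y : ℕ → Fin d → ℝ) :
    ∀ᵐ ω ∂P, Joint (fun n i => x n i * num b X ω + y n i) := by
  have key : ∀ h : Fin d → ℤ, h ≠ 0 → ∀ᵐ ω ∂P, ∀ ε : ℝ, 0 < ε → ∀ᶠ N : ℕ in atTop,
      ‖∑ n ∈ Icc 1 N, ee (∑ i, h i * (x n i * num b X ω + y n i))‖ ≤ ε * N := by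
    intro h hh
    obtain ⟨i₀, hi₀, hmax⟩ : ∃ i₀, h i₀ ≠ 0 ∧ ∀ i, h i ≠ 0 → i ≠ i₀ → β i < β i₀ := by
      have hne : (univ.filter (fun i => h i ≠ 0)).Nonempty := by
        by_contra hcon
        rw [not_nonempty_iff_eq_empty, filter_eq_empty_iff] at hcon
        apply hh
        funext i
        simpa using hcon (mem_univ i)
      obtain ⟨i₀, hi₀, hm⟩ := exists_max_image _ β hne
      rw [mem_filter] at hi₀
      refine ⟨i₀, hi₀.2, fun i hi hne => ?_⟩
      exact lt_of_le_of_ne (hm i (mem_filter.2 ⟨mem_univ i, hi⟩)) (fun h => hne (hinj h))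
    have hc' : (h i₀ : ℝ) * c i₀ ≠ 0 := mul_ne_zero (by exact_mod_cast hi₀) (hc i₀)
    have hlim : Tendsto (fun n : ℕ => (∑ i, h i * x n i) / β i₀ ^ n) atTop (𝓝 ((h i₀ : ℝ) * c i₀)) := by
      have h1 : ∀ i, Tendsto (fun n : ℕ => (h i : ℝ) * x n i / β i₀ ^ n) atTop (𝓝 (if i = i₀ then (h i₀ : ℝ) * c i₀ else 0)) := by
        intro i
        by_cases hi : i = i₀
        · subst hi
          rw [if_pos rfl]
          refine ((hx i).const_mul (h i : ℝ)).congr fun n => ?_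
          ring
        · rw [if_neg hi]
          by_cases h0 : h i = 0
          · rw [h0]
            simp
          · have h2 := hmax i h0 hi
            have hb0 : 0 < β i := by linarith [hβ i]
            have hb1 : 0 < β i₀ := by linarith [hβ i₀]
            have h3 : Tendsto (fun n : ℕ => (β i / β i₀) ^ n) atTop (𝓝 0) :=
              tendsto_pow_atTop_nhds_zero_of_lt_one (by positivity) (by rw [div_lt_one hb1]; exact h2)
            have h4 := ((hx i).const_mul (h i : ℝ)).mul h3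
            rw [mul_zero] at h4
            refine h4.congr fun n => ?_
            rw [div_pow]
            have e1 := pow_pos hb0 n
            have e2 := pow_pos hb1 n
            field_simp
      have h2 := tendsto_finset_sum univ fun i _ => h1 i
      rw [sum_ite_eq' univ i₀ (fun _ => (h i₀ : ℝ) * c i₀), if_pos (mem_univ i₀)] at h2
      refine h2.congr fun n => ?_
      rw [sum_div]
    have h1 := main hb hX hI hlt hη hE (hβ i₀) (hirr i₀) hc' (fun n => ∑ i, h i * x n i) hlim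
      (fun n => ee (∑ i, h i * y n i)) (fun n => by rw [Pool.Agent.H807R2.Dav.norm_ee])
    filter_upwards [h1] with ω hω ε hε
    filter_upwards [hω ε hε] with N hN
    refine le_trans (le_of_eq ?_) hN
    congr 1
    apply sum_congr rfl
    intro n _
    rw [← Pool.Agent.H807R2.Dav.ee_add]
    congr 1
    rw [sum_mul, ← sum_add_distrib]
    apply sum_congr rfl
    intro i _
    ring
  have h1 : ∀ᵐ ω ∂P, ∀ h : Fin d → ℤ, h ≠ 0 → ∀ ε : ℝ, 0 < ε → ∀ᶠ N : ℕ in atTop,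
      ‖∑ n ∈ Icc 1 N, ee (∑ i, h i * (x n i * num b X ω + y n i))‖ ≤ ε * N := by
    rw [ae_all_iff]
    intro h
    by_cases h0 : h = 0
    · exact ae_of_all _ fun ω hne => absurd h0 hne
    · filter_upwards [key h h0] with ω hω _
      exact hω
  filter_upwards [h1] with ω hω
  exact joint_of hω

/-- the logarithms of transcendental numbers -/
lemma irr_of_trans {b : ℕ} (hb : 2 ≤ b) {β : ℝ} (hβ : 1 < β) (h : Transcendental ℚ β) : Irrational (Real.logb b β) := by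
  rintro ⟨r, hr⟩
  have hb2 : (2 : ℝ) ≤ b := by exact_mod_cast hb
  have hb0 : (0 : ℝ) < b := by linarith
  have h1 : (b : ℝ) ^ (r : ℝ) = β := by
    rw [hr]
    exact Real.rpow_logb hb0 (by linarith) (by linarith)
  have h2 : β ^ r.den = (b : ℝ) ^ (r.num : ℤ) := by
    rw [← h1, ← Real.rpow_natCast, ← Real.rpow_mul hb0.le, ← Real.rpow_intCast]
    congr 1
    have h3 : (r : ℝ) = r.num / r.den := by exact_mod_cast (Rat.num_div_den r).symm
    rw [h3]
    have : (r.den : ℝ) ≠ 0 := by exact_mod_cast r.den_nz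
    field_simp
  apply h
  have h3 : IsAlgebraic ℚ (β ^ r.den) := by
    rw [h2]
    have h4 : IsAlgebraic ℚ (algebraMap ℚ ℝ ((b : ℚ) ^ (r.num : ℤ))) := isAlgebraic_algebraMap _
    have e1 : algebraMap ℚ ℝ ((b : ℚ) ^ (r.num : ℤ)) = (b : ℝ) ^ (r.num : ℤ) := by
      rw [map_zpow₀, map_natCast]
    rw [e1] at h4
    exact h4
  exact h3.of_pow r.den_pos

end Pool.Agent.Run7.h672.AE
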