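import Pool.Agent.Run7.h672.AE.M

set_option autoImplicit false

/-!
# Numbers with independent random digits: the sequences `x_n` with `x_n / β ^ n` convergent
-/

namespace Pool.Agent.Run7.h672.AE
open Finset MeasureTheory ProbabilityTheory Filter Topology
open Pool.Agent.H807R2.Dav (ee)
open Pool.Agent.TH872.Mir (Far farCount)
open Pool.Agent.Run7.h672.EX (cnt equi_of grid)

variable {Ω : Type*} {m0 : MeasurableSpace Ω}

/-- the number of the digits -/
noncomputable def KK (α α₀ : ℝ) (n : ℕ) : ℕ := ⌊(n : ℝ) * α + α₀⌋₊ + 1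

lemma KK_gap {α α₀ : ℝ} (hα : 0 < α) (G : ℕ) : ∃ q : ℕ, ∀ m n, m + q ≤ n → KK α α₀ m + 2 * G ≤ KK α α₀ n := by
  obtain ⟨q, hq⟩ := exists_nat_gt ((2 * G + |α₀|) / α)
  refine ⟨q, fun m n hmn => ?_⟩
  rw [div_lt_iff₀ hα] at hq
  have h1 : ((m : ℝ) + q) ≤ n := by exact_mod_cast hmn
  have h2 : (m : ℝ) * α + α₀ + (2 * G + |α₀|) ≤ n * α + α₀ := by nlinarith
  unfold KK
  have h3 : ⌊(m : ℝ) * α + α₀⌋₊ + 2 * G ≤ ⌊(n : ℝ) * α + α₀⌋₊ := by
    have hm0 : 0 ≤ (m : ℝ) * α := by positivity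
    rcases le_total 0 ((m : ℝ) * α + α₀) with h | h
    · apply Nat.le_floor
      push_cast
      have h4 := Nat.floor_le h
      have h5 := abs_nonneg α₀
      linarith
    · rw [Nat.floor_of_nonpos h, zero_add]
      apply Nat.le_floor
      push_cast
      have h5 := neg_abs_le α₀
      linarith
  omega

/-- few windows meet the set of the places without two probable digits -/
lemma window_count (K : ℕ → ℕ) (A : ℕ) (hA : ∀ n, K n ≤ A * (n + 1)) (hgap : ∀ G : ℕ, ∃ q : ℕ, ∀ m n, m + q ≤ n → K m + 2 * G ≤ K n)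
    (E : ℕ → Prop) [DecidablePred E] (hE : ∀ ε : ℝ, 0 < ε → ∀ᶠ M : ℕ in atTop, (((range M).filter E).card : ℝ) ≤ ε * M) (G : ℕ) (ε : ℝ)
    (hε : 0 < ε) [DecidablePred fun n : ℕ => ∃ j, K n - G ≤ j ∧ j < K n ∧ E j] :
    ∀ᶠ N : ℕ in atTop, (((Icc 1 N).filter (fun n => ∃ j, K n - G ≤ j ∧ j < K n ∧ E j)).card : ℝ) ≤ ε * N := by
  classical
  rcases Nat.eq_zero_or_pos A with hA0 | hA0
  · filter_upwards with N
    have h1 : (Icc 1 N).filter (fun n => ∃ j, K n - G ≤ j ∧ j < K n ∧ E j) = ∅ := by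
      apply filter_false_of_mem
      rintro n _ ⟨j, _, hj, _⟩
      have := hA n
      rw [hA0, zero_mul] at this
      omega
    rw [h1, card_empty, Nat.cast_zero]
    positivity
  obtain ⟨q, hq⟩ := hgap G
  obtain ⟨M₀, hM₀⟩ := eventually_atTop.1 (hE (ε / (2 * A * (q + 1))) (by positivity))
  filter_upwards [eventually_ge_atTop (M₀ + 1)] with N hN
  have hN1 : 1 ≤ N := by omega
  have hN0 : (1 : ℝ) ≤ N := by exact_mod_cast hN1
  have hsub : (Icc 1 N).filter (fun n => ∃ j, K n - G ≤ j ∧ j < K n ∧ E j) ⊆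
      ((range (A * (N + 1))).filter E).biUnion (fun j => (Icc 1 N).filter (fun n => K n - G ≤ j ∧ j < K n)) := by
    intro n hn
    rw [mem_filter, mem_Icc] at hn
    obtain ⟨hn, j, h1, h2, h3⟩ := hn
    rw [mem_biUnion]
    refine ⟨j, mem_filter.2 ⟨mem_range.2 ?_, h3⟩, mem_filter.2 ⟨mem_Icc.2 hn, h1, h2⟩⟩
    have h4 := hA n
    have h5 : A * (n + 1) ≤ A * (N + 1) := Nat.mul_le_mul_left _ (by omega)
    omega
  have hone : ∀ j, ((Icc 1 N).filter (fun n => K n - G ≤ j ∧ j < K n)).card ≤ q := by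
    intro j
    rcases ((Icc 1 N).filter (fun n => K n - G ≤ j ∧ j < K n)).eq_empty_or_nonempty with h | h
    · rw [h, card_empty]
      exact Nat.zero_le _
    · obtain ⟨m, hm⟩ : ∃ m, m = ((Icc 1 N).filter (fun n => K n - G ≤ j ∧ j < K n)).min' h := ⟨_, rfl⟩
      have hmm : m ∈ (Icc 1 N).filter (fun n => K n - G ≤ j ∧ j < K n) := by rw [hm]; exact min'_mem _ _
      have h1 : (Icc 1 N).filter (fun n => K n - G ≤ j ∧ j < K n) ⊆ Ico m (m + q) := by
        intro n hn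
        have h2 : m ≤ n := by rw [hm]; exact min'_le _ _ hn
        rw [mem_filter] at hn hmm
        rw [mem_Ico]
        refine ⟨h2, ?_⟩
        by_contra hcon
        rw [not_lt] at hcon
        have h3 := hq m n hcon
        rcases Nat.eq_zero_or_pos G with h0 | h0
        · subst h0
          omega
        · omega
      refine (card_le_card h1).trans (le_of_eq ?_)
      rw [Nat.card_Ico]
      omega
  have h1 : (((Icc 1 N).filter (fun n => ∃ j, K n - G ≤ j ∧ j < K n ∧ E j)).card : ℝ) ≤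
      (((range (A * (N + 1))).filter E).card : ℝ) * q := by
    have h2 := (card_le_card hsub).trans (card_biUnion_le_card_mul _ _ q (fun j _ => hone j))
    exact_mod_cast h2
  have h2 := hM₀ (A * (N + 1)) (by nlinarith)
  refine h1.trans ?_
  have hq0 : (0 : ℝ) ≤ q := Nat.cast_nonneg q
  have hA' : (0 : ℝ) < A := by exact_mod_cast hA0
  calc (((range (A * (N + 1))).filter E).card : ℝ) * q ≤ (ε / (2 * A * (q + 1)) * ((A * (N + 1) : ℕ) : ℝ)) * q :=
        mul_le_mul_of_nonneg_right h2 hq0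
    _ = ε * ((N : ℝ) + 1) / 2 * (q / (q + 1)) := by
        push_cast
        field_simp
    _ ≤ ε * ((N : ℝ) + 1) / 2 * 1 := by
        apply mul_le_mul_of_nonneg_left _ (by positivity)
        rw [div_le_one (by positivity)]
        linarith
    _ ≤ ε * N := by nlinarith

/-- **exponential sums over `ξ x_n`, `x_n ~ c β ^ n`** -/
theorem main {P : Measure Ω} [IsProbabilityMeasure P] {b : ℕ} (hb : 2 ≤ b) {X : ℕ → Ω → ℕ} (hX : ∀ j, Measurable (X j))
    (hI : iIndepFun X P) (hlt : ∀ j ω, X j ω < b) {η : ℝ} (hη : 0 < η) [DecidablePred fun j => ¬ Two P X η j]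
    (hE : ∀ ε : ℝ, 0 < ε → ∀ᶠ M : ℕ in atTop, (((range M).filter (fun j => ¬ Two P X η j)).card : ℝ) ≤ ε * M)
    {β c : ℝ} (hβ : 1 < β) (hirr : Irrational (Real.logb b β)) (hc : c ≠ 0) (x : ℕ → ℝ)
    (hx : Tendsto (fun n : ℕ => x n / β ^ n) atTop (𝓝 c)) (z : ℕ → ℂ) (hz : ∀ n, ‖z n‖ ≤ 1) :
    ∀ᵐ ω ∂P, ∀ ε : ℝ, 0 < ε → ∀ᶠ N : ℕ in atTop, ‖∑ n ∈ Icc 1 N, z n * ee (x n * num b X ω)‖ ≤ ε * N := by
  classical
  have hb2 : (2 : ℝ) ≤ b := by exact_mod_cast hb
  have hb0 : (0 : ℝ) < b := by linarith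
  have hb1 : (b : ℝ) ≠ 1 := by linarith
  obtain ⟨α, hα⟩ : ∃ α, α = Real.logb b β := ⟨_, rfl⟩
  obtain ⟨α₀, hα₀⟩ : ∃ α₀, α₀ = Real.logb b |c| := ⟨_, rfl⟩
  have hα0 : 0 < α := by rw [hα]; exact Real.logb_pos (by linarith) hβ
  rw [← hα] at hirr
  have hβ0 : 0 < β := by linarith
  have hbα : (b : ℝ) ^ α = β := by rw [hα]; exact Real.rpow_logb hb0 hb1 hβ0
  have hbα₀ : (b : ℝ) ^ α₀ = |c| := by rw [hα₀]; exact Real.rpow_logb hb0 hb1 (abs_pos.2 hc)
  have hpow : ∀ n : ℕ, (b : ℝ) ^ ((n : ℝ) * α + α₀) = |c| * β ^ n := by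
    intro n
    rw [Real.rpow_add hb0, hbα₀, mul_comm (n : ℝ), Real.rpow_mul hb0.le, hbα, Real.rpow_natCast, mul_comm]
  -- boundedness
  obtain ⟨C₀, hC₀⟩ : ∃ C₀ : ℝ, ∀ n : ℕ, |x n / β ^ n| ≤ C₀ := by
    obtain ⟨C₀, hC₀⟩ := (Metric.isBounded_range_of_tendsto _ hx).exists_norm_le
    exact ⟨C₀, fun n => hC₀ _ ⟨n, rfl⟩⟩
  have hC₀0 : 0 ≤ C₀ := (abs_nonneg _).trans (hC₀ 0)
  obtain ⟨C, hC⟩ : ∃ C, C = C₀ / |c| := ⟨_, rfl⟩
  have hxK : ∀ n, |x n| ≤ C * (b : ℝ) ^ KK α α₀ n := by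
    intro n
    have h1 : |x n| = |x n / β ^ n| * β ^ n := by
      rw [abs_div, abs_of_pos (pow_pos hβ0 n)]
      field_simp
    have h2 : |c| * β ^ n ≤ (b : ℝ) ^ KK α α₀ n := by
      rw [← hpow, ← Real.rpow_natCast]
      apply Real.rpow_le_rpow_of_exponent_le (by linarith)
      unfold KK
      push_cast
      exact (Nat.lt_floor_add_one _).le
    have hc' : 0 < |c| := abs_pos.2 hc
    rw [h1, hC]
    calc |x n / β ^ n| * β ^ n ≤ C₀ * β ^ n := mul_le_mul_of_nonneg_right (hC₀ n) (by positivity)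
      _ = C₀ / |c| * (|c| * β ^ n) := by field_simp
      _ ≤ C₀ / |c| * (b : ℝ) ^ KK α α₀ n := mul_le_mul_of_nonneg_left h2 (by positivity)
  have hC0 : 0 ≤ C := by rw [hC]; positivity
  have hgap := fun G => KK_gap (α₀ := α₀) hα0 G
  -- the leading digits
  obtain ⟨σ, hσ, hσc⟩ : ∃ σ : ℤ, (σ = 1 ∨ σ = -1) ∧ (σ : ℝ) * |c| = c := by
    rcases lt_or_gt_of_ne hc with h | h
    · exact ⟨-1, Or.inr rfl, by rw [abs_of_neg h]; push_cast; ring⟩
    · exact ⟨1, Or.inl rfl, by rw [abs_of_pos h]; push_cast; ring⟩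
  have hge : ∀ᶠ n : ℕ in atTop, 0 ≤ (n : ℝ) * α + α₀ := by
    obtain ⟨n₁, hn₁⟩ := exists_nat_gt (|α₀| / α)
    filter_upwards [eventually_ge_atTop n₁] with n hn
    rw [div_lt_iff₀ hα0] at hn₁
    have h1 : (n₁ : ℝ) ≤ n := by exact_mod_cast hn
    have h2 := neg_abs_le α₀
    nlinarith
  have hlead : ∀ᶠ n : ℕ in atTop, (b : ℝ) ^ (Int.fract ((n : ℝ) * α + α₀) - 1) = |c| * β ^ n / (b : ℝ) ^ KK α α₀ n := by
    filter_upwards [hge] with n hn
    rw [← hpow, ← Real.rpow_natCast, ← Real.rpow_sub hb0]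
    congr 1
    unfold KK
    have e1 : (((⌊(n : ℝ) * α + α₀⌋₊ : ℕ) : ℤ)) = ⌊(n : ℝ) * α + α₀⌋ := Int.natCast_floor_eq_floor hn
    have e2 : ((⌊(n : ℝ) * α + α₀⌋₊ : ℕ) : ℝ) = (⌊(n : ℝ) * α + α₀⌋ : ℝ) := by
      rw [← e1]
      push_cast
      rfl
    have e3 : Int.fract ((n : ℝ) * α + α₀) = (n : ℝ) * α + α₀ - ⌊(n : ℝ) * α + α₀⌋ := rfl
    rw [e3]
    push_cast
    rw [e2]
    ring
  have hθ : Tendsto (fun n : ℕ => x n / (b : ℝ) ^ KK α α₀ n - σ * (b : ℝ) ^ (Int.fract ((n : ℝ) * α + α₀) - 1)) atTop (𝓝 0) := by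
    have h1 : Tendsto (fun n : ℕ => (x n / β ^ n - c) / |c|) atTop (𝓝 0) := by
      have h2 := (hx.sub_const c).div_const |c|
      rw [sub_self, zero_div] at h2
      exact h2
    refine squeeze_zero_norm' (a := fun n : ℕ => ‖(x n / β ^ n - c) / |c|‖) ?_ (by simpa using h1.norm)
    filter_upwards [hlead] with n hn
    have hu1 : (b : ℝ) ^ (Int.fract ((n : ℝ) * α + α₀) - 1) ≤ 1 := by
      apply Real.rpow_le_one_of_one_le_of_nonpos (by linarith)
      linarith [Int.fract_lt_one ((n : ℝ) * α + α₀)]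
    have hu0 : 0 < (b : ℝ) ^ (Int.fract ((n : ℝ) * α + α₀) - 1) := Real.rpow_pos_of_pos hb0 _
    have hc' : 0 < |c| := abs_pos.2 hc
    have e1 : x n / (b : ℝ) ^ KK α α₀ n - σ * (b : ℝ) ^ (Int.fract ((n : ℝ) * α + α₀) - 1) =
        ((x n / β ^ n - c) / |c|) * (b : ℝ) ^ (Int.fract ((n : ℝ) * α + α₀) - 1) := by
      rw [hn]
      have e2 : ((x n / β ^ n - c) / |c|) * (|c| * β ^ n / (b : ℝ) ^ KK α α₀ n) = (x n - c * β ^ n) / (b : ℝ) ^ KK α α₀ n := by
        have := pow_pos hβ0 n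
        field_simp
      rw [e2, sub_div]
      congr 1
      conv_rhs => rw [← hσc]
      ring
    rw [e1, norm_mul, Real.norm_of_nonneg hu0.le]
    exact mul_le_of_le_one_right (norm_nonneg _) hu1
  -- the averages
  refine weyl hb hX hI hlt x z hz (KK α α₀) C hxK hgap (fun ε hε => ?_)
  have hη1 : η ≤ 1 := by
    by_contra hcon
    obtain ⟨M, hM, hM1⟩ := ((hE (1 / 2) (by norm_num)).and (eventually_ge_atTop 1)).exists
    have h1 : (range M).filter (fun j => ¬ Two P X η j) = range M := by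
      apply filter_true_of_mem
      intro j _ h
      exact hcon (two_le_one h)
    rw [h1, card_range] at hM
    have : (1 : ℝ) ≤ M := by exact_mod_cast hM1
    linarith
  obtain ⟨hg0, hg1⟩ := gam_bounds hb hη hη1
  obtain ⟨r, hr⟩ := exists_pow_lt_of_lt_one (by positivity : (0 : ℝ) < ε / 4) hg1
  obtain ⟨l₀, hl₀⟩ := bad_count (F := b.factorial) hb b.factorial_pos α α₀ hirr _ σ hσ hθ r (ε / 4) (by positivity)
  obtain ⟨g₀, hg₀⟩ := exists_nat_gt (C / ε)
  obtain ⟨l, hl⟩ : ∃ l, l = l₀ + g₀ + 1 := ⟨_, rfl⟩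
  obtain ⟨G, hG⟩ : ∃ G, G = r * l + g₀ := ⟨_, rfl⟩
  refine ⟨G, ?_, ?_⟩
  · have h1 : g₀ < b ^ g₀ := Nat.lt_pow_self (by omega)
    have h2 : b ^ g₀ ≤ b ^ G := Nat.pow_le_pow_right (by omega) (by omega)
    have h3 : (g₀ : ℝ) ≤ (b : ℝ) ^ G := by exact_mod_cast (h1.le.trans h2)
    rw [div_lt_iff₀ hε] at hg₀
    nlinarith
  obtain ⟨A, hA⟩ : ∃ A : ℕ, ∀ n, KK α α₀ n ≤ A * (n + 1) := by
    obtain ⟨A, hA⟩ := exists_nat_gt (α + |α₀| + 1)
    refine ⟨A, fun n => ?_⟩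
    have h1 : (KK α α₀ n : ℝ) ≤ A * (n + 1) := by
      unfold KK
      push_cast
      have h2 : (⌊(n : ℝ) * α + α₀⌋₊ : ℝ) ≤ n * α + |α₀| := by
        rcases le_total 0 ((n : ℝ) * α + α₀) with h | h
        · exact (Nat.floor_le h).trans (by linarith [le_abs_self α₀])
        · rw [Nat.floor_of_nonpos h]
          push_cast
          positivity
      have h3 : (0 : ℝ) ≤ n := Nat.cast_nonneg n
      have h4 := abs_nonneg α₀
      nlinarith
    exact_mod_cast h1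
  have hwin := window_count (KK α α₀) A hA hgap (fun j => ¬ Two P X η j) hE G (ε / 4) (by positivity)
  obtain ⟨q, hq⟩ := hgap G
  obtain ⟨N₁, hN₁⟩ := exists_nat_gt (4 * q / ε)
  filter_upwards [hl₀ l (by omega), hwin, eventually_ge_atTop N₁] with N h1 h2 h3
  have h4 : ∀ n ∈ Icc 1 N, ∏ j ∈ Ico (KK α α₀ n - G) (KK α α₀ n + G), ‖phi P X j (x n / (b : ℝ) ^ (j + 1))‖ ≤
      (if farCount b b.factorial (r * l) (x n / (b : ℝ) ^ KK α α₀ n) < r then (1 : ℝ) else 0) +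
      (if ∃ j, KK α α₀ n - G ≤ j ∧ j < KK α α₀ n ∧ ¬ Two P X η j then (1 : ℝ) else 0) + (if n < q then (1 : ℝ) else 0) + ε / 4 := by
    intro n _
    have h5 : ∏ j ∈ Ico (KK α α₀ n - G) (KK α α₀ n + G), ‖phi P X j (x n / (b : ℝ) ^ (j + 1))‖ ≤ 1 :=
      prod_le_one (fun _ _ => norm_nonneg _) (fun j _ => norm_phi X j _)
    by_cases c1 : farCount b b.factorial (r * l) (x n / (b : ℝ) ^ KK α α₀ n) < r
    · rw [if_pos c1]
      have : (0 : ℝ) ≤ (if ∃ j, KK α α₀ n - G ≤ j ∧ j < KK α α₀ n ∧ ¬ Two P X η j then (1 : ℝ) else 0) := by split_ifs <;> norm_num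
      have : (0 : ℝ) ≤ (if n < q then (1 : ℝ) else 0) := by split_ifs <;> norm_num
      linarith
    by_cases c2 : ∃ j, KK α α₀ n - G ≤ j ∧ j < KK α α₀ n ∧ ¬ Two P X η j
    · rw [if_pos c2]
      have : (0 : ℝ) ≤ (if farCount b b.factorial (r * l) (x n / (b : ℝ) ^ KK α α₀ n) < r then (1 : ℝ) else 0) := by split_ifs <;> norm_num
      have : (0 : ℝ) ≤ (if n < q then (1 : ℝ) else 0) := by split_ifs <;> norm_num
      linarith
    by_cases c3 : n < q
    · rw [if_pos c3]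
      have : (0 : ℝ) ≤ (if farCount b b.factorial (r * l) (x n / (b : ℝ) ^ KK α α₀ n) < r then (1 : ℝ) else 0) := by split_ifs <;> norm_num
      have : (0 : ℝ) ≤ (if ∃ j, KK α α₀ n - G ≤ j ∧ j < KK α α₀ n ∧ ¬ Two P X η j then (1 : ℝ) else 0) := by split_ifs <;> norm_num
      linarith
    rw [if_neg c1, if_neg c2, if_neg c3, zero_add, zero_add, zero_add]
    have h6 := hq 0 n (by omega)
    push Not at c2
    have h7 : r ≤ farCount b b.factorial G (x n / (b : ℝ) ^ KK α α₀ n) := by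
      refine (not_lt.1 c1).trans ?_
      unfold farCount
      apply card_le_card
      apply filter_subset_filter
      apply range_subset_range.2
      omega
    have h8 := window hb hX hlt hη hη1 (x n) (KK α α₀ n) G r (by omega) (fun j hj1 hj2 => by
      exact c2 j hj1 hj2) h7
    exact h8.trans hr.le
  refine (sum_le_sum h4).trans ?_
  rw [sum_add_distrib, sum_add_distrib, sum_add_distrib, sum_const, nsmul_eq_mul, Nat.card_Icc, Nat.add_sub_cancel,
    ← sum_filter, ← sum_filter, ← sum_filter, sum_const, sum_const, sum_const, nsmul_eq_mul, nsmul_eq_mul, nsmul_eq_mul, mul_one, mul_one, mul_one]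
  have h5 : (((Icc 1 N).filter (fun n => n < q)).card : ℝ) ≤ ε / 4 * N := by
    have h6 : ((Icc 1 N).filter (fun n => n < q)).card ≤ q := by
      have h7 : (Icc 1 N).filter (fun n => n < q) ⊆ range q := by
        intro n hn
        rw [mem_filter] at hn
        exact mem_range.2 hn.2
      have := card_le_card h7
      rwa [card_range] at this
    have h8 : (((Icc 1 N).filter (fun n => n < q)).card : ℝ) ≤ q := by exact_mod_cast h6
    rw [div_lt_iff₀ hε] at hN₁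
    have h9 : (N₁ : ℝ) ≤ N := by exact_mod_cast h3
    nlinarith
  linarith

end Pool.Agent.Run7.h672.AE
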