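import Pool.Agent.Run7.h672.AE.E

set_option autoImplicit false

/-!
# The leading digits of `β ^ n`
-/

namespace Pool.Agent.Run7.h672.AE
open Finset MeasureTheory ProbabilityTheory Filter Topology
open Pool.Agent.H807R2.Dav (ee)
open Pool.Agent.TH872.Mir (Far farCount)
open Pool.Agent.Run7.h672.EX (cnt equi_of grid)

lemma rpow_gap {b : ℕ} (hb : 2 ≤ b) (s t : ℝ) (hs : 0 ≤ s) (hst : s ≤ t) :
    (t - s) / (2 * b) ≤ (b : ℝ) ^ (t - 1) - (b : ℝ) ^ (s - 1) := by
  have hb2 : (2 : ℝ) ≤ b := by exact_mod_cast hb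
  have hb0 : (0 : ℝ) < b := by linarith
  have h1 : (b : ℝ) ^ (t - 1) = (b : ℝ) ^ (s - 1) * (b : ℝ) ^ (t - s) := by
    rw [← Real.rpow_add hb0]
    congr 1
    ring
  have h2 : 1 + (t - s) / 2 ≤ (b : ℝ) ^ (t - s) := by
    rw [Real.rpow_def_of_pos hb0]
    refine le_trans ?_ (Real.add_one_le_exp _)
    have h3 : 1 / 2 ≤ Real.log b := by
      have h4 : Real.log 2 ≤ Real.log b := Real.log_le_log (by norm_num) hb2
      have h5 := Real.log_two_gt_d9
      linarith
    nlinarith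
  have h3 : 1 / (b : ℝ) ≤ (b : ℝ) ^ (s - 1) := by
    rw [one_div, ← Real.rpow_neg_one]
    exact Real.rpow_le_rpow_of_exponent_le (by linarith) (by linarith)
  rw [h1]
  have h4 : 0 < (b : ℝ) ^ (s - 1) := Real.rpow_pos_of_pos hb0 _
  calc (t - s) / (2 * b) = 1 / b * ((t - s) / 2) := by field_simp
    _ ≤ (b : ℝ) ^ (s - 1) * ((t - s) / 2) := mul_le_mul_of_nonneg_right h3 (by linarith)
    _ ≤ (b : ℝ) ^ (s - 1) * ((b : ℝ) ^ (t - s) - 1) := mul_le_mul_of_nonneg_left (by linarith) h4.le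
    _ = _ := by ring

/-- few terms have their leading digits in a short interval -/
lemma mant_interval {b : ℕ} (hb : 2 ≤ b) (y : ℕ → ℝ) (ε : ℝ) (N : ℕ)
    (hN : ∀ s t : ℝ, 0 ≤ s → s < t → t ≤ 1 → |(cnt y N s t : ℝ) - (t - s) * N| ≤ ε * N) (hε : 0 ≤ ε) (s w : ℝ) (hw : 0 < w)
    [DecidablePred fun n : ℕ => |(b : ℝ) ^ (Int.fract (y n) - 1) - s| < w] :
    (((Icc 1 N).filter (fun n : ℕ => |(b : ℝ) ^ (Int.fract (y n) - 1) - s| < w)).card : ℝ) ≤ (8 * b * w + ε) * N := by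
  classical
  have hb2 : (2 : ℝ) ≤ b := by exact_mod_cast hb
  have hb0 : (0 : ℝ) < b := by linarith
  have hN0 : (0 : ℝ) ≤ N := Nat.cast_nonneg N
  rcases ((Icc 1 N).filter (fun n : ℕ => |(b : ℝ) ^ (Int.fract (y n) - 1) - s| < w)).eq_empty_or_nonempty with h | ⟨n₀, hn₀⟩
  · rw [h, card_empty, Nat.cast_zero]
    positivity
  · rw [mem_filter] at hn₀
    obtain ⟨-, hn₀⟩ := hn₀
    obtain ⟨t₀, ht₀⟩ : ∃ t₀, t₀ = Int.fract (y n₀) := ⟨_, rfl⟩
    rw [← ht₀] at hn₀
    have ht0 : 0 ≤ t₀ := by rw [ht₀]; exact Int.fract_nonneg _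
    have ht1 : t₀ < 1 := by rw [ht₀]; exact Int.fract_lt_one _
    obtain ⟨v, hv⟩ : ∃ v : ℝ, v = 4 * b * w := ⟨_, rfl⟩
    have hv0 : 0 < v := by rw [hv]; positivity
    have hclose : ∀ t : ℝ, 0 ≤ t → |(b : ℝ) ^ (t - 1) - s| < w → |t - t₀| < v := by
      intro t ht h1
      rw [abs_lt] at h1 hn₀ ⊢
      have key : ∀ p q : ℝ, 0 ≤ p → p ≤ q → (b : ℝ) ^ (q - 1) - (b : ℝ) ^ (p - 1) < 2 * w → q - p < v := by
        intro p q hp hpq h2
        have h3 := rpow_gap hb p q hp hpq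
        have h4 : (q - p) / (2 * b) < 2 * w := lt_of_le_of_lt h3 h2
        rw [div_lt_iff₀ (by positivity)] at h4
        rw [hv]
        linarith
      rcases le_total t t₀ with h2 | h2
      · have := key t t₀ ht h2 (by linarith)
        constructor <;> linarith
      · have := key t₀ t ht0 h2 (by linarith)
        constructor <;> linarith
    have h1 := hN (max 0 (t₀ - v)) (min 1 (t₀ + v)) (le_max_left _ _)
      (max_lt (lt_min one_pos (by linarith)) (lt_min (by linarith) (by linarith))) (min_le_left _ _)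
    have h2 : ((Icc 1 N).filter (fun n : ℕ => |(b : ℝ) ^ (Int.fract (y n) - 1) - s| < w)).card ≤ cnt y N (max 0 (t₀ - v)) (min 1 (t₀ + v)) := by
      unfold cnt
      apply card_le_card
      intro n hn
      rw [mem_filter] at hn ⊢
      refine ⟨hn.1, ?_⟩
      have h3 := hclose (Int.fract (y n)) (Int.fract_nonneg _) hn.2
      rw [abs_lt] at h3
      exact ⟨max_le (Int.fract_nonneg _) (by linarith), lt_min (Int.fract_lt_one _) (by linarith)⟩
    have h3 : ((((Icc 1 N).filter (fun n : ℕ => |(b : ℝ) ^ (Int.fract (y n) - 1) - s| < w)).card : ℕ) : ℝ) ≤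
        (cnt y N (max 0 (t₀ - v)) (min 1 (t₀ + v)) : ℝ) := by exact_mod_cast h2
    have h4 := (abs_le.1 h1).2
    have h5 : min 1 (t₀ + v) - max 0 (t₀ - v) ≤ 2 * v := by
      have := min_le_right 1 (t₀ + v)
      have := le_max_right 0 (t₀ - v)
      linarith
    have h6 : (min 1 (t₀ + v) - max 0 (t₀ - v)) * N ≤ 2 * v * N := mul_le_mul_of_nonneg_right h5 hN0
    rw [hv] at h6
    nlinarith

/-- for most `n` the expansion has many places at which it is far from the integers -/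
lemma bad_count {b F : ℕ} (hb : 2 ≤ b) (hF : 1 ≤ F) (α α₀ : ℝ) (hα : Irrational α) (θ : ℕ → ℝ) (σ : ℤ) (hσ : σ = 1 ∨ σ = -1)
    (hθ : Tendsto (fun n : ℕ => θ n - σ * (b : ℝ) ^ (Int.fract (n * α + α₀) - 1)) atTop (𝓝 0)) (r : ℕ) (ε : ℝ) (hε : 0 < ε) :
    ∃ l₀ : ℕ, ∀ l : ℕ, l₀ ≤ l → ∀ᶠ N : ℕ in atTop,
      (((Icc 1 N).filter (fun n => farCount b F (r * l) (θ n) < r)).card : ℝ) ≤ ε * N := by
  classical
  have hb2 : (2 : ℝ) ≤ b := by exact_mod_cast hb
  have hb0 : (0 : ℝ) < b := by linarith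
  have hF0 : (0 : ℝ) < F := by exact_mod_cast hF
  obtain ⟨l₀, hl₀⟩ := exists_nat_gt (192 * r / ε)
  refine ⟨l₀ + 1, fun l hl => ?_⟩
  have hbl : (l : ℝ) ≤ (b : ℝ) ^ l := by
    have h1 : l < b ^ l := Nat.lt_pow_self (by omega)
    exact_mod_cast h1.le
  have hl1 : 48 * r / (b : ℝ) ^ l ≤ ε / 4 := by
    rw [div_le_iff₀ (by positivity)]
    rw [div_lt_iff₀ hε] at hl₀
    have h1 : (l₀ : ℝ) ≤ l := by exact_mod_cast (by omega : l₀ ≤ l)
    nlinarith
  obtain ⟨ε', hε'⟩ : ∃ ε' : ℝ, ε' = ε / (12 * (F * r * (b : ℝ) ^ (r * l) + 1)) := ⟨_, rfl⟩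
  have hε'0 : 0 < ε' := by rw [hε']; positivity
  have hdisc := disc_of (x := fun n : ℕ => n * α + α₀) (fun h hh ε hε => rotation α α₀ hα h hh ε hε) ε' hε'0
  obtain ⟨n₀, hn₀⟩ := Metric.tendsto_atTop.1 hθ (1 / ((b : ℝ) ^ (l + 1) * (F * (b : ℝ) ^ (r * l)))) (by positivity)
  obtain ⟨N₁, hN₁⟩ := exists_nat_gt (4 * n₀ / ε)
  filter_upwards [hdisc, eventually_ge_atTop N₁] with N hN hNN
  have hN0 : (0 : ℝ) ≤ N := Nat.cast_nonneg N
  obtain ⟨g, hg⟩ : ∃ g : ℕ → ℝ, g = fun i => (F : ℝ) * (b : ℝ) ^ (i * l) := ⟨_, rfl⟩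
  have hg0 : ∀ i, 0 < g i := by
    intro i
    rw [hg]
    positivity
  have hg1 : ∀ i, 1 ≤ g i := by
    intro i
    rw [hg]
    have h1 : (1 : ℝ) ≤ F := by exact_mod_cast hF
    have h2 : (1 : ℝ) ≤ (b : ℝ) ^ (i * l) := one_le_pow₀ (by linarith)
    show (1 : ℝ) ≤ F * (b : ℝ) ^ (i * l)
    nlinarith
  have hsub : (Icc 1 N).filter (fun n => farCount b F (r * l) (θ n) < r) ⊆
      (range n₀) ∪ (range r).biUnion (fun i => (range (F * b ^ (i * l) + 2)).biUnion (fun z =>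
        (Icc 1 N).filter (fun n : ℕ => |(b : ℝ) ^ (Int.fract (n * α + α₀) - 1) - z / g i| < 2 / ((b : ℝ) ^ (l + 1) * g i)))) := by
    intro n hn
    rw [mem_filter] at hn
    rw [mem_union]
    by_cases hnn : n < n₀
    · exact Or.inl (mem_range.2 hnn)
    · right
      rw [not_lt] at hnn
      have h1 : ∃ i < r, ∃ z : ℤ, |(F : ℝ) * ((b : ℝ) ^ (i * l) * θ n) - z| < 1 / (b : ℝ) ^ (l + 1) := by
        by_contra hcon
        push Not at hcon
        have := grid b F (r * l) r l hb (by omega) le_rfl (θ n) (fun i hi z => hcon i hi z)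
        omega
      obtain ⟨i, hi, z, hz⟩ := h1
      obtain ⟨u, hu⟩ : ∃ u : ℝ, u = (b : ℝ) ^ (Int.fract (n * α + α₀) - 1) := ⟨_, rfl⟩
      have hu0 : 0 < u := by rw [hu]; exact Real.rpow_pos_of_pos hb0 _
      have hu1 : u ≤ 1 := by
        rw [hu]
        apply Real.rpow_le_one_of_one_le_of_nonpos (by linarith)
        linarith [Int.fract_lt_one ((n : ℝ) * α + α₀)]
      have h2 := hn₀ n hnn
      rw [Real.dist_eq, sub_zero, ← hu] at h2
      have e1 : g i ≤ F * (b : ℝ) ^ (r * l) := by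
        rw [hg]
        apply mul_le_mul_of_nonneg_left _ hF0.le
        exact pow_le_pow_right₀ (by linarith) (Nat.mul_le_mul_right _ hi.le)
      have h3 : |θ n - σ * u| < 1 / ((b : ℝ) ^ (l + 1) * g i) := by
        refine lt_of_lt_of_le h2 ?_
        apply one_div_le_one_div_of_le (mul_pos (by positivity) (hg0 i))
        exact mul_le_mul_of_nonneg_left e1 (by positivity)
      have h4 : |θ n - z / g i| < 1 / ((b : ℝ) ^ (l + 1) * g i) := by
        have e2 : (F : ℝ) * ((b : ℝ) ^ (i * l) * θ n) - z = g i * (θ n - z / g i) := by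
          have := (hg0 i).ne'
          rw [mul_sub, mul_div_cancel₀ _ this, hg]
          ring
        rw [e2, abs_mul, abs_of_pos (hg0 i)] at hz
        rw [mul_comm, lt_div_iff₀ (by positivity)] at hz
        rw [lt_div_iff₀ (mul_pos (by positivity) (hg0 i))]
        linarith
      have h5 : |σ * u - z / g i| < 2 / ((b : ℝ) ^ (l + 1) * g i) := by
        have e2 : (σ : ℝ) * u - z / g i = (θ n - z / g i) - (θ n - σ * u) := by ring
        rw [e2]
        refine lt_of_le_of_lt (abs_sub _ _) ?_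
        have : 2 / ((b : ℝ) ^ (l + 1) * g i) = 1 / ((b : ℝ) ^ (l + 1) * g i) + 1 / ((b : ℝ) ^ (l + 1) * g i) := by ring
        linarith
      have h6 : |u - ((σ * z : ℤ) : ℝ) / g i| < 2 / ((b : ℝ) ^ (l + 1) * g i) := by
        refine lt_of_eq_of_lt ?_ h5
        rcases hσ with h | h
        · rw [h]
          push_cast
          rw [one_mul, one_mul]
        · rw [h]
          push_cast
          rw [← abs_neg]
          congr 1
          ring
      obtain ⟨y, hy⟩ : ∃ y : ℤ, y = σ * z := ⟨_, rfl⟩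
      rw [← hy] at h6
      have h7 : |g i * u - y| < 1 := by
        have e3 : g i * u - y = g i * (u - y / g i) := by
          rw [mul_sub, mul_div_cancel₀ _ (hg0 i).ne']
        rw [e3, abs_mul, abs_of_pos (hg0 i)]
        have h8 : 2 / ((b : ℝ) ^ (l + 1) * g i) ≤ 1 / g i := by
          rw [div_le_div_iff₀ (mul_pos (by positivity) (hg0 i)) (hg0 i)]
          have : (2 : ℝ) ≤ (b : ℝ) ^ (l + 1) := by
            calc (2 : ℝ) ≤ b := hb2
              _ = (b : ℝ) ^ 1 := (pow_one _).symm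
              _ ≤ (b : ℝ) ^ (l + 1) := pow_le_pow_right₀ (by linarith) (by omega)
          nlinarith [hg0 i]
        calc g i * |u - y / g i| < g i * (1 / g i) := mul_lt_mul_of_pos_left (lt_of_lt_of_le h6 h8) (hg0 i)
          _ = 1 := mul_one_div_cancel (hg0 i).ne'
      rw [abs_lt] at h7
      have h8 : 0 ≤ y := by
        have : (-1 : ℝ) < y := by nlinarith [mul_pos (hg0 i) hu0]
        have h9 : (-1 : ℤ) < y := by exact_mod_cast this
        omega
      obtain ⟨y', hy'⟩ : ∃ y' : ℕ, y = (y' : ℤ) := ⟨y.toNat, by omega⟩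
      rw [mem_biUnion]
      refine ⟨i, mem_range.2 hi, ?_⟩
      rw [mem_biUnion]
      refine ⟨y', ?_, ?_⟩
      · rw [mem_range]
        have h9 : (y' : ℝ) < F * (b : ℝ) ^ (i * l) + 1 := by
          have e4 : (y : ℝ) = (y' : ℝ) := by rw [hy']; push_cast; rfl
          rw [e4] at h7
          have e5 : g i = F * (b : ℝ) ^ (i * l) := by rw [hg]
          rw [← e5]
          nlinarith [hg0 i]
        have h10 : y' < F * b ^ (i * l) + 1 := by exact_mod_cast h9
        omega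
      · rw [mem_filter]
        refine ⟨hn.1, ?_⟩
        rw [← hu]
        have e4 : (y : ℝ) = (y' : ℝ) := by rw [hy']; push_cast; rfl
        rw [e4] at h6
        exact h6
  have hcount : ∀ i ∈ range r, ((((range (F * b ^ (i * l) + 2)).biUnion (fun z =>
        (Icc 1 N).filter (fun n : ℕ => |(b : ℝ) ^ (Int.fract (n * α + α₀) - 1) - z / g i| < 2 / ((b : ℝ) ^ (l + 1) * g i)))).card : ℕ) : ℝ) ≤
      (48 / (b : ℝ) ^ l + 3 * (F * (b : ℝ) ^ (r * l)) * ε') * N := by
    intro i hi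
    rw [mem_range] at hi
    have h1 : ((((range (F * b ^ (i * l) + 2)).biUnion (fun z =>
        (Icc 1 N).filter (fun n : ℕ => |(b : ℝ) ^ (Int.fract (n * α + α₀) - 1) - z / g i| < 2 / ((b : ℝ) ^ (l + 1) * g i)))).card : ℕ) : ℝ) ≤
        ∑ z ∈ range (F * b ^ (i * l) + 2), (((Icc 1 N).filter (fun n : ℕ => |(b : ℝ) ^ (Int.fract (n * α + α₀) - 1) - z / g i| <
          2 / ((b : ℝ) ^ (l + 1) * g i))).card : ℝ) := by
      exact_mod_cast card_biUnion_le
    refine h1.trans ?_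
    have h2 : ∀ z ∈ range (F * b ^ (i * l) + 2), (((Icc 1 N).filter (fun n : ℕ => |(b : ℝ) ^ (Int.fract (n * α + α₀) - 1) - z / g i| <
          2 / ((b : ℝ) ^ (l + 1) * g i))).card : ℝ) ≤ (8 * b * (2 / ((b : ℝ) ^ (l + 1) * g i)) + ε') * N := fun z _ =>
      mant_interval hb (fun n : ℕ => (n : ℝ) * α + α₀) ε' N hN hε'0.le _ _ (div_pos (by norm_num) (mul_pos (by positivity) (hg0 i)))
    refine (sum_le_sum h2).trans ?_
    rw [sum_const, card_range, nsmul_eq_mul]
    have e1 : ((F * b ^ (i * l) + 2 : ℕ) : ℝ) = g i + 2 := by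
      rw [hg]
      push_cast
      ring
    rw [e1, ← mul_assoc]
    apply mul_le_mul_of_nonneg_right _ hN0
    have h3 : g i + 2 ≤ 3 * g i := by linarith [hg1 i]
    have h4 : g i ≤ F * (b : ℝ) ^ (r * l) := by
      rw [hg]
      apply mul_le_mul_of_nonneg_left _ hF0.le
      exact pow_le_pow_right₀ (by linarith) (Nat.mul_le_mul_right _ hi.le)
    have h5 : 8 * (b : ℝ) * (2 / ((b : ℝ) ^ (l + 1) * g i)) = 16 / ((b : ℝ) ^ l * g i) := by
      have := (hg0 i).ne'
      rw [pow_succ]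
      field_simp
      ring
    rw [h5]
    calc (g i + 2) * (16 / ((b : ℝ) ^ l * g i) + ε') ≤ 3 * g i * (16 / ((b : ℝ) ^ l * g i) + ε') := by
          apply mul_le_mul_of_nonneg_right h3
          have := hg0 i
          positivity
      _ = 48 / (b : ℝ) ^ l + 3 * g i * ε' := by
          have := (hg0 i).ne'
          field_simp
          ring
      _ ≤ _ := by nlinarith
  have h1 := card_le_card hsub
  have h2 : (((Icc 1 N).filter (fun n => farCount b F (r * l) (θ n) < r)).card : ℝ) ≤ n₀ + ∑ i ∈ range r,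
      ((((range (F * b ^ (i * l) + 2)).biUnion (fun z =>
        (Icc 1 N).filter (fun n : ℕ => |(b : ℝ) ^ (Int.fract (n * α + α₀) - 1) - z / g i| < 2 / ((b : ℝ) ^ (l + 1) * g i)))).card : ℕ) : ℝ) := by
    have h3 := h1.trans (card_union_le _ _)
    rw [card_range] at h3
    have h4 := h3.trans (Nat.add_le_add_left (card_biUnion_le) n₀)
    exact_mod_cast h4
  refine h2.trans ?_
  have h3 := sum_le_sum hcount
  rw [sum_const, card_range, nsmul_eq_mul] at h3
  have h4 : (n₀ : ℝ) ≤ ε / 4 * N := by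
    rw [div_lt_iff₀ hε] at hN₁
    have : (N₁ : ℝ) ≤ N := by exact_mod_cast hNN
    nlinarith
  have h5 : (r : ℝ) * ((48 / (b : ℝ) ^ l + 3 * (F * (b : ℝ) ^ (r * l)) * ε') * N) ≤ (ε / 4 + ε / 4) * N := by
    rw [← mul_assoc]
    apply mul_le_mul_of_nonneg_right _ hN0
    have h6 : (r : ℝ) * (48 / (b : ℝ) ^ l) = 48 * r / (b : ℝ) ^ l := by ring
    have h7 : (r : ℝ) * (3 * (F * (b : ℝ) ^ (r * l)) * ε') ≤ ε / 4 := by
      rw [hε', mul_div_assoc', mul_div_assoc', div_le_iff₀ (by positivity)]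
      nlinarith
    rw [mul_add, h6]
    linarith
  nlinarith

end Pool.Agent.Run7.h672.AE
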