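import Pool.Agent.Run7.h672.AE.J
import Pool.Agent.Run7.h672.AE.P

set_option autoImplicit false

/-!
# Products of numbers with sparse random digits and irrational numbers
-/

namespace Pool.Agent.Run7.h672.AE
open Finset MeasureTheory ProbabilityTheory Filter Topology
open Pool.Agent.H807R2.Dav (ee)

lemma digits_sum' {b : ℕ} (hb : 2 ≤ b) (N : ℕ) : ∀ (g : ℕ → Fin b) (l : ℕ), l < N →
    ((∑ r ∈ Finset.range N, (g r : ℕ) * b ^ r) / b ^ l) % b = (g l : ℕ) := by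
  have hb0 : 0 < b := by omega
  induction N with
  | zero => intro g l hl; omega
  | succ N ih =>
    intro g l hl
    rw [Finset.sum_range_succ']
    simp only [pow_zero, mul_one]
    have e : ∑ r ∈ Finset.range N, (g (r + 1) : ℕ) * b ^ (r + 1)
        = b * ∑ r ∈ Finset.range N, (g (r + 1) : ℕ) * b ^ r := by
      rw [Finset.mul_sum]
      refine Finset.sum_congr rfl fun r _ => ?_
      rw [pow_succ]; ring
    rw [e]
    rcases l with _ | l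
    · simp only [pow_zero, Nat.div_one]
      rw [Nat.mul_add_mod, Nat.mod_eq_of_lt (g 0).isLt]
    · rw [pow_succ', ← Nat.div_div_eq_div_mul, Nat.mul_add_div hb0, Nat.div_eq_of_lt (g 0).isLt, add_zero]
      exact ih (fun r => g (r + 1)) l (by omega)

lemma sum_lt' {b : ℕ} (hb : 2 ≤ b) (N : ℕ) (g : ℕ → Fin b) : ∑ r ∈ Finset.range N, (g r : ℕ) * b ^ r < b ^ N := by
  induction N with
  | zero => simp
  | succ N ih =>
    rw [Finset.sum_range_succ, pow_succ]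
    have h1 := (g N).isLt
    have h2 : ((g N : ℕ) + 1) * b ^ N ≤ b * b ^ N := Nat.mul_le_mul_right _ h1
    nlinarith

/-- a word stands at the place `n` if the fractional part of `b ^ n y` lies in an interval -/
lemma stands_of {b : ℕ} (hb : 2 ≤ b) (L : ℕ) (w : Fin L → Fin b) : ∃ c : ℕ, c < b ^ L ∧ ∀ (y : ℝ) (n : ℕ),
    (c : ℝ) / (b : ℝ) ^ L ≤ Int.fract ((b : ℝ) ^ n * y) → Int.fract ((b : ℝ) ^ n * y) < ((c : ℝ) + 1) / (b : ℝ) ^ L →
    ∀ s : Fin L, ⌊y * (b : ℝ) ^ (n + s + 1)⌋ % (b : ℤ) = ((w s : ℕ) : ℤ) := by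
  have hb0 : (0 : ℝ) < b := by exact_mod_cast (by omega : 0 < b)
  obtain ⟨g, hg⟩ : ∃ g : ℕ → Fin b, g = fun r => if h : L - 1 - r < L then w ⟨L - 1 - r, h⟩ else ⟨0, by omega⟩ := ⟨_, rfl⟩
  refine ⟨∑ r ∈ Finset.range L, (g r : ℕ) * b ^ r, sum_lt' hb L g, fun y n h1 h2 s => ?_⟩
  obtain ⟨c, hc⟩ : ∃ c, c = ∑ r ∈ Finset.range L, (g r : ℕ) * b ^ r := ⟨_, rfl⟩
  rw [← hc] at h1 h2
  obtain ⟨z, hz⟩ : ∃ z : ℤ, z = ⌊(b : ℝ) ^ n * y⌋ := ⟨_, rfl⟩
  obtain ⟨f, hf⟩ : ∃ f : ℝ, f = Int.fract ((b : ℝ) ^ n * y) := ⟨_, rfl⟩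
  have hV : (b : ℝ) ^ n * y = z + f := by rw [hz, hf]; exact (Int.floor_add_fract _).symm
  have hf0 : 0 ≤ f := by rw [hf]; exact Int.fract_nonneg _
  rw [← hf] at h1 h2
  have hs := s.isLt
  have hp : (0 : ℝ) < (b : ℝ) ^ L := by positivity
  rw [div_le_iff₀ hp] at h1
  rw [lt_div_iff₀ hp] at h2
  have hfl : ⌊f * (b : ℝ) ^ L⌋₊ = c := (Nat.floor_eq_iff (by positivity)).2 ⟨h1, h2⟩
  have e1 : y * (b : ℝ) ^ (n + (s : ℕ) + 1) = (((b : ℤ) ^ ((s : ℕ) + 1) * z : ℤ) : ℝ) + f * (b : ℝ) ^ ((s : ℕ) + 1) := by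
    have : y * (b : ℝ) ^ (n + (s : ℕ) + 1) = ((b : ℝ) ^ n * y) * (b : ℝ) ^ ((s : ℕ) + 1) := by
      rw [add_assoc, pow_add]
      ring
    rw [this, hV]
    push_cast
    ring
  have e2 : ⌊f * (b : ℝ) ^ ((s : ℕ) + 1)⌋₊ = c / b ^ (L - 1 - s) := by
    have e3 : f * (b : ℝ) ^ ((s : ℕ) + 1) = f * (b : ℝ) ^ L / ((b ^ (L - 1 - s) : ℕ) : ℝ) := by
      have e4 : (b : ℝ) ^ L = (b : ℝ) ^ ((s : ℕ) + 1) * (b : ℝ) ^ (L - 1 - (s : ℕ)) := by
        rw [← pow_add]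
        congr 1
        omega
      push_cast
      rw [e4]
      field_simp
    rw [e3, Nat.floor_div_natCast, hfl]
  have e3 : ⌊y * (b : ℝ) ^ (n + (s : ℕ) + 1)⌋ = (b : ℤ) ^ ((s : ℕ) + 1) * z + ((c / b ^ (L - 1 - s) : ℕ) : ℤ) := by
    rw [e1, Int.floor_intCast_add, ← e2, Int.natCast_floor_eq_floor (by positivity)]
  rw [e3, pow_succ, mul_assoc, mul_comm ((b : ℤ) ^ (s : ℕ)), mul_assoc, Int.add_comm, Int.add_mul_emod_self_left]
  have e4 := digits_sum' hb L g (L - 1 - s) (by omega)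
  rw [← hc] at e4
  have e5 : ((c / b ^ (L - 1 - (s : ℕ)) : ℕ) : ℤ) % (b : ℤ) = ((c / b ^ (L - 1 - (s : ℕ)) % b : ℕ) : ℤ) := by
    rw [Int.natCast_mod]
  rw [e5, e4]
  congr 2
  rw [hg]
  simp only
  rw [dif_pos (by omega)]
  congr 1
  apply Fin.ext
  show L - 1 - (L - 1 - (s : ℕ)) = s
  omega

variable {Ω : Type*} {m0 : MeasurableSpace Ω}

/-- times in the middle of long runs -/
lemma run_times (E : ℕ → Prop) (hrun : ∀ L : ℕ, ∃ a, ∀ j, a ≤ j → j < a + L → E j) :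
    ∃ ns : ℕ → ℕ, StrictMono ns ∧ ∀ k j, ns k - k ≤ j → j < ns k → E j := by
  have h1 : ∀ k M : ℕ, ∃ n, M < n ∧ ∀ j, n - k ≤ j → j < n → E j := by
    intro k M
    obtain ⟨a, ha⟩ := hrun (M + 1 + k)
    exact ⟨a + (M + 1) + k, by omega, fun j hj1 hj2 => ha j (by omega) (by omega)⟩
  choose f hf using h1
  obtain ⟨ns, hns0, hns⟩ : ∃ ns : ℕ → ℕ, ns 0 = f 0 0 ∧ ∀ k, ns (k + 1) = f (k + 1) (ns k) :=
    ⟨fun k => Nat.rec (f 0 0) (fun k n => f (k + 1) n) k, rfl, fun k => rfl⟩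
  refine ⟨ns, strictMono_nat_of_lt_succ fun k => ?_, fun k => ?_⟩
  · rw [hns]
    exact (hf (k + 1) (ns k)).1
  · cases k with
    | zero => rw [hns0]; exact (hf 0 0).2
    | succ k => rw [hns]; exact (hf (k + 1) _).2

/-- **products with irrational numbers** -/
theorem products {P : Measure Ω} [IsProbabilityMeasure P] {b : ℕ} (hb : 2 ≤ b) {X : ℕ → Ω → ℕ} (hX : ∀ j, Measurable (X j))
    (hI : iIndepFun X P) (hlt : ∀ j ω, X j ω < b) {η : ℝ} (hη : 0 < η)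
    (hrun : ∀ L : ℕ, ∃ a, ∀ j, a ≤ j → j < a + L → Two P X η j) (α : ℝ) (hα : Irrational α) (y : ℕ → ℝ) :
    ∀ᵐ ω ∂P, ∀ s t : ℝ, 0 ≤ s → s < t → t ≤ 1 →
      {n : ℕ | s ≤ Int.fract ((b : ℝ) ^ n * (α * num b X ω) + y n) ∧ Int.fract ((b : ℝ) ^ n * (α * num b X ω) + y n) < t}.Infinite := by
  have hb0 : (0 : ℝ) < b := by exact_mod_cast (by omega : 0 < b)
  obtain ⟨ns, hns, hE⟩ := run_times _ hrun
  have hsp := sparse hb hX hI hlt hη (fun k => α * (b : ℝ) ^ ns k) (fun k => y (ns k)) ns hns α hα (by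
    have e1 : (fun k => α * (b : ℝ) ^ ns k / (b : ℝ) ^ ns k) = fun _ => α := by
      funext k
      field_simp
    rw [e1]
    exact tendsto_const_nhds) (fun G => by
    filter_upwards [eventually_ge_atTop G] with k hk j hj1 hj2
    exact hE k j (by omega) hj2)
  filter_upwards [hsp] with ω hω s t hs hst ht
  have h1 := inf_of (x := fun k => α * (b : ℝ) ^ ns k * num b X ω + y (ns k)) hω s t hs hst ht
  have h2 := h1.image (f := ns) hns.injective.injOn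
  refine h2.mono ?_
  rintro n ⟨k, hk, rfl⟩
  have e1 : (b : ℝ) ^ ns k * (α * num b X ω) + y (ns k) = α * (b : ℝ) ^ ns k * num b X ω + y (ns k) := by ring
  rw [Set.mem_ofPred_eq, e1]
  exact hk

end Pool.Agent.Run7.h672.AE
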