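import Pool.Agent.Run7.h672.AE.L

set_option autoImplicit false

/-!
# Numbers with independent random digits: sparse sets of random digits
-/

namespace Pool.Agent.Run7.h672.AE
open Finset MeasureTheory ProbabilityTheory Filter Topology
open Pool.Agent.H807R2.Dav (ee)
open Pool.Agent.TH872.Mir (Far farCount)
open Pool.Agent.Run7.h672.EX (cnt equi_of grid run)

variable {Ω : Type*} {m0 : MeasurableSpace Ω}

/-- infinitely many places are far -/
lemma far_inf {b : ℕ} (hb : 2 ≤ b) (v : ℝ) (hv : Irrational v) (M : ℕ) : ∃ j, M ≤ j ∧ Far (1 / (b : ℝ) ^ 2) ((b : ℝ) ^ j * v) := by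
  by_contra hcon
  push Not at hcon
  have hb2 : (2 : ℝ) ≤ b := by exact_mod_cast hb
  have hb0 : (0 : ℝ) < b := by linarith
  obtain ⟨w, hw⟩ : ∃ w, w = (b : ℝ) ^ M * v := ⟨_, rfl⟩
  have hwi : Irrational w := by
    rw [hw]
    have h1 : (b : ℝ) ^ M * v = ((b ^ M : ℕ) : ℝ) * v := by push_cast; rfl
    rw [h1]
    exact hv.natCast_mul (by positivity)
  have h1 : ∀ L : ℕ, 1 ≤ L → ∃ z : ℤ, |w - z| < 1 / (b : ℝ) ^ (L + 1) := by
    intro L hL
    apply run b hb w L hL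
    intro j _
    have h2 := hcon (M + j) (by omega)
    have e1 : (b : ℝ) ^ (M + j) * v = (b : ℝ) ^ j * w := by rw [hw, pow_add]; ring
    rw [e1] at h2
    exact h2
  obtain ⟨δ, hδ0, hδ⟩ : ∃ δ : ℝ, 0 < δ ∧ ∀ z : ℤ, δ ≤ |w - z| := by
    refine ⟨|w - round w|, ?_, fun z => round_le w z⟩
    rw [abs_pos, sub_ne_zero]
    exact hwi.ne_int _
  obtain ⟨L, hL⟩ := exists_nat_gt (1 / δ)
  obtain ⟨z, hz⟩ := h1 (L + 1) (by omega)
  have h2 := hδ z
  have h3 : (L : ℝ) ≤ (b : ℝ) ^ (L + 1 + 1) := by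
    have h4 : L < b ^ (L + 1 + 1) := lt_of_lt_of_le (Nat.lt_pow_self (by omega)) (Nat.pow_le_pow_right (by omega) (by omega))
    exact_mod_cast h4.le
  rw [div_lt_iff₀ hδ0] at hL
  have h5 : δ < 1 / (b : ℝ) ^ (L + 1 + 1) := lt_of_le_of_lt h2 hz
  rw [lt_div_iff₀ (by positivity)] at h5
  nlinarith

/-- an irrational number and the numbers near to it have many far places -/
lemma far_near {b F : ℕ} (hb : 2 ≤ b) (hF : 1 ≤ F) (v : ℝ) (hv : Irrational v) (r : ℕ) :
    ∃ (G : ℕ) (δ : ℝ), 0 < δ ∧ ∀ θ : ℝ, |θ - v| < δ → r ≤ farCount b F G θ := by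
  classical
  have hb2 : (2 : ℝ) ≤ b := by exact_mod_cast hb
  have hb0 : (0 : ℝ) < b := by linarith
  have hF0 : (0 : ℝ) < F := by exact_mod_cast hF
  have hFv : Irrational ((F : ℝ) * v) := hv.natCast_mul (by omega)
  -- one more place
  have key : ∀ r : ℕ, ∃ (S : Finset ℕ), S.card = r ∧ ∀ j ∈ S, Far (1 / (b : ℝ) ^ 2) ((b : ℝ) ^ j * (F * v)) := by
    intro r
    induction r with
    | zero => exact ⟨∅, rfl, fun j hj => absurd hj (notMem_empty j)⟩
    | succ r ih =>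
      obtain ⟨S, hS1, hS2⟩ := ih
      obtain ⟨M, hM⟩ := S.bddAbove
      obtain ⟨j, hj1, hj2⟩ := far_inf hb ((F : ℝ) * v) hFv (M + 1)
      refine ⟨insert j S, ?_, ?_⟩
      · rw [card_insert_of_notMem, hS1]
        intro h
        have := hM h
        omega
      · intro i hi
        rw [mem_insert] at hi
        rcases hi with rfl | hi
        · exact hj2
        · exact hS2 i hi
  obtain ⟨S, hS1, hS2⟩ := key r
  -- the margins
  have hmar : ∀ j ∈ S, ∃ δ : ℝ, 0 < δ ∧ ∀ n : ℤ, 1 / (b : ℝ) ^ 2 + δ ≤ |(b : ℝ) ^ j * (F * v) - n| := by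
    intro j hj
    have h1 := hS2 j hj (round ((b : ℝ) ^ j * (F * v)))
    have hirr : Irrational ((b : ℝ) ^ j * (F * v)) := by
      have e1 : (b : ℝ) ^ j * (F * v) = ((b ^ j : ℕ) : ℝ) * (F * v) := by push_cast; rfl
      rw [e1]
      exact hFv.natCast_mul (by positivity)
    have h2 : 1 / (b : ℝ) ^ 2 ≠ |(b : ℝ) ^ j * (F * v) - round ((b : ℝ) ^ j * (F * v))| := by
      intro h3
      have h4 : Irrational (|(b : ℝ) ^ j * (F * v) - round ((b : ℝ) ^ j * (F * v))|) := by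
        have h5 : Irrational ((b : ℝ) ^ j * (F * v) - round ((b : ℝ) ^ j * (F * v))) := hirr.sub_intCast _
        rcases abs_choice ((b : ℝ) ^ j * (F * v) - round ((b : ℝ) ^ j * (F * v))) with h | h
        · rw [h]; exact h5
        · rw [h]; exact h5.neg
      apply h4
      refine ⟨1 / (b : ℚ) ^ 2, ?_⟩
      rw [← h3]
      push_cast
      rfl
    refine ⟨|(b : ℝ) ^ j * (F * v) - round ((b : ℝ) ^ j * (F * v))| - 1 / (b : ℝ) ^ 2, ?_, fun n => ?_⟩
    · have := lt_of_le_of_ne h1 h2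
      linarith
    · have := round_le ((b : ℝ) ^ j * (F * v)) n
      linarith
  choose! δ hδ0 hδ using hmar
  obtain ⟨M, hM⟩ := S.bddAbove
  -- a common margin
  obtain ⟨δ₀, hδ₀, hδ₀'⟩ : ∃ δ₀ : ℝ, 0 < δ₀ ∧ ∀ j ∈ S, δ₀ ≤ δ j := by
    rcases S.eq_empty_or_nonempty with h | h
    · exact ⟨1, one_pos, fun j hj => by rw [h] at hj; exact absurd hj (notMem_empty j)⟩
    · obtain ⟨j₀, hj₀, hmin⟩ := exists_min_image S δ h
      exact ⟨δ j₀, hδ0 j₀ hj₀, fun j hj => hmin j hj⟩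
  refine ⟨M + 1, δ₀ / ((b : ℝ) ^ M * F), by positivity, fun θ hθ => ?_⟩
  rw [← hS1]
  unfold farCount
  apply card_le_card
  intro j hj
  have hjM : j ≤ M := hM hj
  rw [mem_filter, mem_range]
  refine ⟨by omega, fun n => ?_⟩
  have h1 := hδ j hj n
  have h2 : |(F : ℝ) * ((b : ℝ) ^ j * θ) - (b : ℝ) ^ j * (F * v)| ≤ δ₀ := by
    have e1 : (F : ℝ) * ((b : ℝ) ^ j * θ) - (b : ℝ) ^ j * (F * v) = ((b : ℝ) ^ j * F) * (θ - v) := by ring
    rw [e1, abs_mul, abs_of_pos (by positivity)]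
    rw [lt_div_iff₀ (by positivity)] at hθ
    have h3 : (b : ℝ) ^ j * F ≤ (b : ℝ) ^ M * F := mul_le_mul_of_nonneg_right (pow_le_pow_right₀ (by linarith) hjM) hF0.le
    nlinarith [abs_nonneg (θ - v)]
  have h3 := hδ₀' j hj
  have h4 : |(b : ℝ) ^ j * (F * v) - n| ≤ |(F : ℝ) * ((b : ℝ) ^ j * θ) - n| + |(F : ℝ) * ((b : ℝ) ^ j * θ) - (b : ℝ) ^ j * (F * v)| := by
    have e1 : (b : ℝ) ^ j * (F * v) - n = ((F : ℝ) * ((b : ℝ) ^ j * θ) - n) - ((F : ℝ) * ((b : ℝ) ^ j * θ) - (b : ℝ) ^ j * (F * v)) := by ring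
    rw [e1]
    exact abs_sub _ _
  linarith

/-- **sparse random digits** -/
theorem sparse {P : Measure Ω} [IsProbabilityMeasure P] {b : ℕ} (hb : 2 ≤ b) {X : ℕ → Ω → ℕ} (hX : ∀ j, Measurable (X j))
    (hI : iIndepFun X P) (hlt : ∀ j ω, X j ω < b) {η : ℝ} (hη : 0 < η) (x y : ℕ → ℝ) (K : ℕ → ℕ) (hK : StrictMono K)
    (v : ℝ) (hv : Irrational v) (hxv : Tendsto (fun k : ℕ => x k / (b : ℝ) ^ K k) atTop (𝓝 v))
    (hT : ∀ G : ℕ, ∀ᶠ k : ℕ in atTop, ∀ j, K k - G ≤ j → j < K k → Two P X η j) :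
    ∀ᵐ ω ∂P, ∀ h : ℕ, 1 ≤ h → ∀ ε : ℝ, 0 < ε → ∀ᶠ N : ℕ in atTop, ‖∑ n ∈ Icc 1 N, ee (h * (x n * num b X ω + y n))‖ ≤ ε * N := by
  classical
  have hb2 : (2 : ℝ) ≤ b := by exact_mod_cast hb
  have hb0 : (0 : ℝ) < b := by linarith
  have hη1 : η ≤ 1 := by
    obtain ⟨k, hk, hk1⟩ := ((hT 1).and (eventually_ge_atTop 1)).exists
    have h1 : 1 ≤ K k := hk1.trans (hK.id_le k)
    exact two_le_one (hk (K k - 1) (by omega) (by omega))
  obtain ⟨hg0, hg1⟩ := gam_bounds hb hη hη1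
  obtain ⟨C₀, hC₀⟩ : ∃ C₀ : ℝ, ∀ n : ℕ, |x n / (b : ℝ) ^ K n| ≤ C₀ := by
    obtain ⟨C₀, hC₀⟩ := (Metric.isBounded_range_of_tendsto _ hxv).exists_norm_le
    exact ⟨C₀, fun n => hC₀ _ ⟨n, rfl⟩⟩
  have hC₀0 : 0 ≤ C₀ := (abs_nonneg _).trans (hC₀ 0)
  rw [ae_all_iff]
  intro h
  by_cases hh : 1 ≤ h
  · have hh0 : (0 : ℝ) < h := by exact_mod_cast hh
    have hbd : ∀ n, |(h : ℝ) * x n| ≤ (h * C₀) * (b : ℝ) ^ K n := by
      intro n
      have h1 := hC₀ n
      rw [abs_div, abs_of_pos (by positivity : (0 : ℝ) < (b : ℝ) ^ K n), div_le_iff₀ (by positivity)] at h1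
      rw [abs_mul, abs_of_pos hh0, mul_assoc]
      exact mul_le_mul_of_nonneg_left h1 hh0.le
    have hgap : ∀ G : ℕ, ∃ q : ℕ, ∀ m n, m + q ≤ n → K m + 2 * G ≤ K n := by
      intro G
      refine ⟨2 * G, fun m n hmn => ?_⟩
      have h1 : ∀ t, K m + t ≤ K (m + t) := by
        intro t
        induction t with
        | zero => simp
        | succ t ih =>
          have := hK (show m + t < m + (t + 1) by omega)
          omega
      exact (h1 (2 * G)).trans (hK.monotone hmn)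
    have hw := weyl hb hX hI hlt (fun n => (h : ℝ) * x n) (fun n => ee (h * y n)) (fun n => by rw [Pool.Agent.H807R2.Dav.norm_ee]) K (h * C₀)
      hbd hgap (fun ε hε => by
        obtain ⟨r, hr⟩ := exists_pow_lt_of_lt_one (by positivity : (0 : ℝ) < ε / 2) hg1
        obtain ⟨G₁, δ, hδ, hfar⟩ := far_near (F := b.factorial) hb b.factorial_pos ((h : ℝ) * v) (hv.natCast_mul (by omega)) r
        obtain ⟨g₀, hg₀⟩ := exists_nat_gt (h * C₀ / ε)
        refine ⟨G₁ + g₀, ?_, ?_⟩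
        · have h1 : g₀ < b ^ g₀ := Nat.lt_pow_self (by omega)
          have h2 : b ^ g₀ ≤ b ^ (G₁ + g₀) := Nat.pow_le_pow_right (by omega) (by omega)
          have h3 : (g₀ : ℝ) ≤ (b : ℝ) ^ (G₁ + g₀) := by exact_mod_cast (h1.le.trans h2)
          rw [div_lt_iff₀ hε] at hg₀
          nlinarith
        · have hlim : Tendsto (fun k : ℕ => (h : ℝ) * x k / (b : ℝ) ^ K k) atTop (𝓝 (h * v)) := by
            refine (hxv.const_mul (h : ℝ)).congr fun n => ?_
            ring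
          obtain ⟨k₀, hk₀⟩ := eventually_atTop.1 ((hT (G₁ + g₀)).and (Metric.tendsto_nhds.1 hlim δ hδ))
          obtain ⟨N₁, hN₁⟩ := exists_nat_gt (2 * (k₀ + (G₁ + g₀)) / ε)
          filter_upwards [eventually_ge_atTop N₁] with N hN
          have h4 : ∀ n ∈ Icc 1 N, ∏ j ∈ Ico (K n - (G₁ + g₀)) (K n + (G₁ + g₀)), ‖phi P X j ((h : ℝ) * x n / (b : ℝ) ^ (j + 1))‖ ≤
              (if n < k₀ + (G₁ + g₀) then (1 : ℝ) else 0) + ε / 2 := by
            intro n _
            by_cases c1 : n < k₀ + (G₁ + g₀)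
            · rw [if_pos c1]
              have h5 : ∏ j ∈ Ico (K n - (G₁ + g₀)) (K n + (G₁ + g₀)), ‖phi P X j ((h : ℝ) * x n / (b : ℝ) ^ (j + 1))‖ ≤ 1 :=
                prod_le_one (fun _ _ => norm_nonneg _) (fun j _ => norm_phi X j _)
              linarith
            · rw [if_neg c1, zero_add]
              obtain ⟨h5, h6⟩ := hk₀ n (by omega)
              rw [Real.dist_eq] at h6
              have h7 : r ≤ farCount b b.factorial (G₁ + g₀) ((h : ℝ) * x n / (b : ℝ) ^ K n) := by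
                refine (hfar _ h6).trans ?_
                unfold farCount
                apply card_le_card
                apply filter_subset_filter
                apply range_subset_range.2
                omega
              have h8 : n ≤ K n := hK.id_le n
              exact (window hb hX hlt hη hη1 ((h : ℝ) * x n) (K n) (G₁ + g₀) r (by omega) h5 h7).trans hr.le
          refine (sum_le_sum h4).trans ?_
          rw [sum_add_distrib, sum_const, nsmul_eq_mul, Nat.card_Icc, Nat.add_sub_cancel, ← sum_filter, sum_const, nsmul_eq_mul, mul_one]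
          have h5 : (((Icc 1 N).filter (fun n => n < k₀ + (G₁ + g₀))).card : ℝ) ≤ ε / 2 * N := by
            have h6 : ((Icc 1 N).filter (fun n => n < k₀ + (G₁ + g₀))).card ≤ k₀ + (G₁ + g₀) := by
              have h7 : (Icc 1 N).filter (fun n => n < k₀ + (G₁ + g₀)) ⊆ range (k₀ + (G₁ + g₀)) := by
                intro n hn
                rw [mem_filter] at hn
                exact mem_range.2 hn.2
              have := card_le_card h7
              rwa [card_range] at this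
            have h8 : (((Icc 1 N).filter (fun n => n < k₀ + (G₁ + g₀))).card : ℝ) ≤ k₀ + (G₁ + g₀) := by exact_mod_cast h6
            rw [div_lt_iff₀ hε] at hN₁
            have h9 : (N₁ : ℝ) ≤ N := by exact_mod_cast hN
            nlinarith
          linarith)
    filter_upwards [hw] with ω hω _ ε hε
    filter_upwards [hω ε hε] with N hN
    refine le_trans (le_of_eq ?_) hN
    congr 1
    apply sum_congr rfl
    intro n _
    rw [← Pool.Agent.H807R2.Dav.ee_add]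
    congr 1
    ring
  · exact ae_of_all _ fun ω h1 => absurd h1 hh

end Pool.Agent.Run7.h672.AE
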